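import Mathlib
import Pool.Agent.Lib.MP_fd6ff4_co.Two.Defs

/-!
# Generation in degrees at most `max (d / 2) (d - 6)`: definitions

`Sp a σ Γ U t` is the central statement: a function `f` on the faces of `Γ` with `t` vertices and
carrier `U` which satisfies the relations `Rels` is zero. In terms of modules it says that
`I_U` is generated, modulo the `θ_i I_(U - i)`, in degrees smaller than `t`, where `I_U` is the
interior ideal of `Γ_U`.
-/

set_option autoImplicit false

open Finset

namespace Pool.Agent.Lib.MP_fd6ff4_co.Six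

open Two

universe u

variable {d n : ℕ} {K : Type u} [Field K]

/-- The relations: `f` vanishes on the faces which are not minimal with carrier `U`, and for every
face `N` with `t - 1` vertices and carrier `U - i` the sum of the `a i k * f (insert k N)` over the
vertices `k` of `Γ_U` is zero. -/
structure Rels (a : Fin d → Fin n → K) (σ : Fin n → Finset (Fin d)) (Γ : Finset (Finset (Fin n)))
    (U : Finset (Fin d)) (t : ℕ) (f : Finset (Fin n) → K) : Prop where
  r1 : ∀ N ∈ Γ, #N = t → car σ N = U → ∀ k ∈ N, car σ (N.erase k) = U → f N = 0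
  r2 : ∀ N ∈ Γ, #N + 1 = t → ∀ i ∈ U, car σ N = U.erase i →
    ∑ k ∈ univ.filter (fun k => i ∈ σ k ∧ σ k ⊆ U ∧ insert k N ∈ Γ), a i k * f (insert k N) = 0

/-- Every solution of the relations is zero. -/
def Sp (a : Fin d → Fin n → K) (σ : Fin n → Finset (Fin d)) (Γ : Finset (Finset (Fin n)))
    (U : Finset (Fin d)) (t : ℕ) : Prop :=
  ∀ f : Finset (Fin n) → K, Rels a σ Γ U t f → ∀ N ∈ Γ, #N = t → car σ N = U → f N = 0

/-- The polynomials with integer coefficients in the `a i j`, `i ∈ σ j`, which are not zero modulo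
2, do not vanish (characteristic 0 or 2, `a i j` algebraically independent over the prime field);
the other `a i j` are zero. -/
def Good (a : Fin d → Fin n → K) (σ : Fin n → Finset (Fin d)) : Prop :=
  (∀ i j, i ∉ σ j → a i j = 0) ∧
  ∀ P : MvPolynomial (Idx σ) ℤ, MvPolynomial.map (Int.castRingHom (ZMod 2)) P ≠ 0 →
    MvPolynomial.aeval (fun p : Idx σ => a p.1.1 p.1.2) P ≠ 0

/-- the field of rational functions in the `a i j`, `i ∈ σ j`, over the field with two elements -/
abbrev K2 (σ : Fin n → Finset (Fin d)) : Type := FractionRing (MvPolynomial (Idx σ) (ZMod 2))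

/-- the generic coefficients -/
noncomputable def gen (σ : Fin n → Finset (Fin d)) (i : Fin d) (j : Fin n) : K2 σ :=
  if h : i ∈ σ j then
    algebraMap (MvPolynomial (Idx σ) (ZMod 2)) (K2 σ) (MvPolynomial.X ⟨(i, j), h⟩) else 0

/-- `Γ'`, `σ'` is the subcomplex `Γ_U` with renumbered vertices: `e` is the embedding of the vertices
of the small simplex with the image `U`, `g` the embedding of the vertices of `Γ_U`. -/
structure Sub {d' n' : ℕ} (σ : Fin n → Finset (Fin d)) (Γ : Finset (Finset (Fin n)))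
    (U : Finset (Fin d)) (σ' : Fin n' → Finset (Fin d')) (Γ' : Finset (Finset (Fin n')))
    (e : Fin d' ↪ Fin d) (g : Fin n' ↪ Fin n) : Prop where
  he : univ.map e = U
  hg : ∀ v, v ∈ Set.range g ↔ σ v ⊆ U
  hσ : ∀ v', (σ' v').map e = σ (g v')
  hΓ : ∀ F', F' ∈ Γ' ↔ F'.map g ∈ Γ

/-! ### The interior part of the complex -/

/-- the interior faces -/
def intr (σ : Fin n → Finset (Fin d)) (Γ : Finset (Finset (Fin n))) : Finset (Finset (Fin n)) :=
  Γ.filter fun F => car σ F = univ

/-- The ideal of the polynomials whose coefficients at the monomials `M` with support a face of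
`Γ_U` are zero if the carrier of the support does not contain `W`. Modulo `SRU` it is the ideal of
the face ring of `Γ_U` spanned by the monomials with carrier containing `W`. -/
noncomputable def JJ (K : Type u) [Field K] (σ : Fin n → Finset (Fin d))
    (Γ : Finset (Finset (Fin n))) (W U : Finset (Fin d)) : Ideal (MvPolynomial (Fin n) K) :=
  Ideal.span {f | ∃ F : Finset (Fin n), (F ∉ Γ ∨ ¬ car σ F ⊆ U ∨ W ⊆ car σ F) ∧ f = mon K F}

/-- the Stanley-Reisner ideal of `Γ_U` -/
noncomputable def SRU (K : Type u) [Field K] (σ : Fin n → Finset (Fin d))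
    (Γ : Finset (Finset (Fin n))) (U : Finset (Fin d)) : Ideal (MvPolynomial (Fin n) K) :=
  Ideal.span {f | ∃ F : Finset (Fin n), (F ∉ Γ ∨ ¬ car σ F ⊆ U) ∧ f = mon K F}

/-- Exactness at the place `p` of the twisted Koszul complex of `Γ_U` (characteristic 2): in degree
`p` it is the sum over the `P ⊆ U`, `#P = p`, of the ideals `JJ (W \ P) U` of the face ring of
`Γ_U`; the differential maps `x e_P` to the sum of the `θ_i x e_(P - i)`. For `W = ∅` it is the
Koszul complex of the face ring of `Γ_U`. -/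
def KE (a : Fin d → Fin n → K) (σ : Fin n → Finset (Fin d)) (Γ : Finset (Finset (Fin n)))
    (W U : Finset (Fin d)) (p : ℕ) : Prop :=
  ∀ y : Finset (Fin d) → MvPolynomial (Fin n) K,
    (∀ P ⊆ U, #P = p → y P ∈ JJ K σ Γ (W \ P) U) →
    (∀ Q ⊆ U, #Q + 1 = p → ∑ i ∈ U \ Q, theta a i * y (insert i Q) ∈ SRU K σ Γ U) →
    ∃ w : Finset (Fin d) → MvPolynomial (Fin n) K,
      (∀ P ⊆ U, #P = p + 1 → w P ∈ JJ K σ Γ (W \ P) U) ∧
      ∀ P ⊆ U, #P = p → y P + ∑ i ∈ U \ P, theta a i * w (insert i P) ∈ SRU K σ Γ U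

/-! ### The supports of the solutions -/

/-- What we use about the support `S` of a solution of the relations for `U = univ`: the members are
minimal covers `N` of `univ` with `t` elements, and for a subset `A` of `N` whose carrier `U ≠ univ` has
less than `2 * #A` elements there is another member `(N \ A) ∪ M ∪ {k}`, `car σ M = U - i`,
`i ∈ σ k`, `σ k ⊄ U`. -/
structure Clo (σ : Fin n → Finset (Fin d)) (t : ℕ) (S : Finset (Fin n) → Prop) : Prop where
  card : ∀ N, S N → #N = t
  cover : ∀ N, S N → car σ N = univ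
  minimal : ∀ N, S N → ∀ v ∈ N, car σ (N.erase v) ≠ univ
  small : ∀ N, S N → ∀ A ⊆ N, #A ≤ #(car σ A)
  step : ∀ N, S N → ∀ A ⊆ N, car σ A ≠ univ → #(car σ A) < 2 * #A →
    ∃ (i : Fin d) (M : Finset (Fin n)) (k : Fin n), i ∈ car σ A ∧ i ∉ car σ (N \ A) ∧
      i ∈ σ k ∧ ¬ σ k ⊆ car σ A ∧ #M + 1 = #A ∧ car σ M = (car σ A).erase i ∧
      Disjoint (N \ A) M ∧ k ∉ M ∧ k ∉ N \ A ∧ S (N \ A ∪ insert k M)

end Pool.Agent.Lib.MP_fd6ff4_co.Six
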