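import Mathlib
import Pool.Agent.Lib.MP_fd6ff4_co.Six.Defs
import Pool.Agent.Lib.MP_fd6ff4_co.Two.Coef

/-!
# Relative chains: the interior faces containing a given face
-/

set_option autoImplicit false

open Finset

namespace Pool.Agent.Lib.MP_fd6ff4_co.Six

open Two

universe u

variable {d n : ℕ} {K : Type u} [Field K] {Γ : Finset (Finset (Fin n))}
  {σ : Fin n → Finset (Fin d)}

/-- the faces `G ∈ Γ` with `G₀ ⊆ G`, `W ⊆ car σ G ⊆ U` and `j` vertices -/
def Rg (σ : Fin n → Finset (Fin d)) (Γ : Finset (Finset (Fin n))) (G₀ : Finset (Fin n))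
    (W U : Finset (Fin d)) (j : ℕ) (G : Finset (Fin n)) : Prop :=
  G ∈ Γ ∧ G₀ ⊆ G ∧ W ⊆ car σ G ∧ car σ G ⊆ U ∧ #G = j

/-- Exactness at the place `j` of the chains (coefficients `K`, characteristic 2) of the faces `G` with
`Rg σ Γ G₀ W U _ G`. -/
def Ex (K : Type u) [Field K] (σ : Fin n → Finset (Fin d)) (Γ : Finset (Finset (Fin n)))
    (G₀ : Finset (Fin n)) (W U : Finset (Fin d)) (j : ℕ) : Prop :=
  ∀ c : Finset (Fin n) → K, (∀ G, c G ≠ 0 → Rg σ Γ G₀ W U j G) →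
    (∀ R ∈ Γ, G₀ ⊆ R → W ⊆ car σ R → car σ R ⊆ U → #R + 1 = j →
      ∑ G ∈ Γ.filter (fun G => R ⊆ G), c G = 0) →
    ∃ b : Finset (Fin n) → K, (∀ G, b G ≠ 0 → Rg σ Γ G₀ W U (j + 1) G) ∧
      ∀ G, Rg σ Γ G₀ W U j G → ∑ G' ∈ Γ.filter (fun G' => G ⊆ G'), b G' = c G

/-! ### Coefficients `ZMod 2` -/

private theorem mem_lkc {U : Finset (Fin d)} {F G : Finset (Fin n)} :
    G ∈ link Γ σ U F ↔ G ∈ Γ ∧ Disjoint G F ∧ G ∪ F ∈ Γ ∧ car σ (G ∪ F) ⊆ U := by
  rw [link, mem_filter]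

private theorem car_sub {F G : Finset (Fin n)} (h : F ⊆ G) : car σ F ⊆ car σ G :=
  biUnion_subset_biUnion_of_subset_left _ h

private theorem eq_one_of_ne {x : ZMod 2} (hx : x ≠ 0) : x = 1 := by
  revert x
  decide

private theorem sum_eq_card (S : Finset (Finset (Fin n))) (e : Finset (Fin n) → ZMod 2) :
    ∑ G ∈ S, e G = ((#{G ∈ S | e G ≠ 0} : ℕ) : ZMod 2) := by
  rw [← sum_filter_ne_zero, sum_congr rfl (g := fun _ => (1 : ZMod 2)), sum_const, nsmul_one]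
  intro G hG
  exact eq_one_of_ne (mem_filter.mp hG).2

/-- the set of the `G \ G₀` with `e G ≠ 0` -/
private def sup2 (Γ : Finset (Finset (Fin n))) (G₀ : Finset (Fin n))
    (e : Finset (Fin n) → ZMod 2) : Finset (Finset (Fin n)) :=
  (Γ.filter fun G => e G ≠ 0).image fun G => G \ G₀

private theorem mem_sup2 {G₀ : Finset (Fin n)} {U : Finset (Fin d)} {j : ℕ}
    {e : Finset (Fin n) → ZMod 2}
    (hc : ∀ G, e G ≠ 0 → Rg σ Γ G₀ ∅ U j G) {G : Finset (Fin n)} (hG : G₀ ⊆ G) :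
    G \ G₀ ∈ sup2 Γ G₀ e ↔ e G ≠ 0 := by
  rw [sup2, mem_image]
  constructor
  · rintro ⟨G', h1, h2⟩
    rw [mem_filter] at h1
    have h3 := (hc G' h1.2).2.1
    have h4 : G' = G := by
      rw [← sdiff_union_of_subset h3, h2, sdiff_union_of_subset hG]
    rw [← h4]
    exact h1.2
  · intro h1
    exact ⟨G, mem_filter.mpr ⟨(hc G h1).1, h1⟩, rfl⟩

private theorem card_sup2 {G₀ : Finset (Fin n)} {U : Finset (Fin d)} {j : ℕ}
    {e : Finset (Fin n) → ZMod 2}
    (hc : ∀ G, e G ≠ 0 → Rg σ Γ G₀ ∅ U j G) {E : Finset (Fin n)} (hE : Disjoint E G₀) :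
    #{G ∈ sup2 Γ G₀ e | E ⊆ G} = #{G ∈ Γ.filter (fun G => E ∪ G₀ ⊆ G) | e G ≠ 0} := by
  symm
  refine card_bij (fun G _ => G \ G₀) ?_ ?_ ?_
  · intro G hG
    rw [mem_filter, mem_filter] at hG
    rw [mem_filter, mem_sup2 hc (subset_union_right.trans hG.1.2)]
    refine ⟨hG.2, ?_⟩
    intro x hx
    rw [mem_sdiff]
    exact ⟨hG.1.2 (mem_union_left _ hx), disjoint_left.mp hE hx⟩
  · intro G hG G' hG' he
    rw [mem_filter, mem_filter] at hG hG'
    rw [← sdiff_union_of_subset (subset_union_right.trans hG.1.2), he,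
      sdiff_union_of_subset (subset_union_right.trans hG'.1.2)]
  · intro G hG
    rw [mem_filter, sup2, mem_image] at hG
    obtain ⟨⟨G', h1, h2⟩, h3⟩ := hG
    rw [mem_filter] at h1
    refine ⟨G', ?_, h2⟩
    rw [mem_filter, mem_filter]
    refine ⟨⟨h1.1, union_subset ?_ (hc G' h1.2).2.1⟩, h1.2⟩
    rw [← h2] at h3
    exact h3.trans sdiff_subset

private theorem sup2_cycle (h : Ball Γ σ) {G₀ : Finset (Fin n)} {U : Finset (Fin d)} {j : ℕ}
    {e : Finset (Fin n) → ZMod 2} (hc : ∀ G, e G ≠ 0 → Rg σ Γ G₀ ∅ U j G)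
    (hcyc : ∀ R ∈ Γ, G₀ ⊆ R → ∅ ⊆ car σ R → car σ R ⊆ U → #R + 1 = j →
      ∑ G ∈ Γ.filter (fun G => R ⊆ G), e G = 0) :
    IsCycle (link Γ σ U G₀) (j - #G₀) (sup2 Γ G₀ e) := by
  refine ⟨?_, ?_, ?_⟩
  · intro G hG
    rw [sup2, mem_image] at hG
    obtain ⟨G', h1, rfl⟩ := hG
    rw [mem_filter] at h1
    have h2 := hc G' h1.2
    rw [mem_lkc, sdiff_union_of_subset h2.2.1]
    exact ⟨h.down G' h1.1 _ sdiff_subset, sdiff_disjoint, h1.1, h2.2.2.2.1⟩
  · intro G hG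
    rw [sup2, mem_image] at hG
    obtain ⟨G', h1, rfl⟩ := hG
    rw [mem_filter] at h1
    have h2 := hc G' h1.2
    rw [card_sdiff_of_subset h2.2.1, h2.2.2.2.2]
  · intro E hE
    by_cases hd : Disjoint E G₀
    · rw [card_sup2 hc hd]
      by_cases hm : E ∪ G₀ ∈ Γ ∧ car σ (E ∪ G₀) ⊆ U
      · have h1 := hcyc (E ∪ G₀) hm.1 subset_union_right (empty_subset _) hm.2 (by
          rw [card_union_of_disjoint hd]
          omega)
        rw [sum_eq_card, ZMod.natCast_eq_zero_iff_even] at h1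
        exact h1
      · rw [filter_eq_empty_iff.2, card_empty]
        · exact Even.zero
        · intro G hG he
          rw [mem_filter] at hG
          exact hm ⟨h.down G hG.1 _ hG.2, (car_sub hG.2).trans (hc G he).2.2.2.1⟩
    · rw [filter_eq_empty_iff.2, card_empty]
      · exact Even.zero
      · intro G hG hEG
        rw [sup2, mem_image] at hG
        obtain ⟨G', h1, rfl⟩ := hG
        exact hd (disjoint_of_subset_left hEG sdiff_disjoint)

private theorem low_two (h : Ball Γ σ) {G₀ : Finset (Fin n)} (hG₀ : G₀ ∈ Γ)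
    {U : Finset (Fin d)} (hU : car σ G₀ ⊆ U) {j : ℕ} (hj : j < #U) :
    Ex (ZMod 2) σ Γ G₀ ∅ U j := by
  intro e hc hcyc
  by_cases hle : #G₀ ≤ j
  swap
  · refine ⟨fun _ => 0, fun G hG => absurd rfl hG, ?_⟩
    intro G hG
    exact absurd (hG.2.2.2.2 ▸ card_le_card hG.2.1) hle
  obtain ⟨D, hD1, hD2, hD3⟩ := (h.ball U G₀ hG₀ hU).low (j - #G₀) (by omega)
    (sup2 Γ G₀ e) (sup2_cycle h hc hcyc)
  have hDm : ∀ G : Finset (Fin n), G₀ ⊆ G → G \ G₀ ∈ D → Rg σ Γ G₀ ∅ U (j + 1) G := by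
    intro G h1 h2
    have h3 := mem_lkc.mp (hD1 h2)
    rw [sdiff_union_of_subset h1] at h3
    have h4 := hD2 _ h2
    rw [card_sdiff_of_subset h1] at h4
    have h5 := card_le_card h1
    exact ⟨h3.2.2.1, h1, empty_subset _, h3.2.2.2, by omega⟩
  have hne : ∀ G : Finset (Fin n),
      (if G₀ ⊆ G ∧ G \ G₀ ∈ D then (1 : ZMod 2) else 0) ≠ 0 ↔ G₀ ⊆ G ∧ G \ G₀ ∈ D := by
    intro G
    by_cases h1 : G₀ ⊆ G ∧ G \ G₀ ∈ D
    · rw [if_pos h1]
      exact ⟨fun _ => h1, fun _ => one_ne_zero⟩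
    · rw [if_neg h1]
      exact ⟨fun h2 => absurd rfl h2, fun h2 => absurd h2 h1⟩
  refine ⟨fun G => if G₀ ⊆ G ∧ G \ G₀ ∈ D then 1 else 0, ?_, ?_⟩
  · intro G hG
    have h1 := (hne G).mp hG
    exact hDm G h1.1 h1.2
  · intro G hG
    have hGG := hG.2.1
    rw [sum_eq_card]
    have hcard : #{G' ∈ Γ.filter (fun G' => G ⊆ G') |
        (if G₀ ⊆ G' ∧ G' \ G₀ ∈ D then (1 : ZMod 2) else 0) ≠ 0} =
        #{G' ∈ D | G \ G₀ ⊆ G'} := by
      refine card_bij (fun G' _ => G' \ G₀) ?_ ?_ ?_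
      · intro G' h1
        rw [mem_filter, mem_filter, hne] at h1
        rw [mem_filter]
        exact ⟨h1.2.2, sdiff_subset_sdiff h1.1.2 (Subset.refl _)⟩
      · intro G' h1 G'' h2 he
        rw [mem_filter, mem_filter, hne] at h1 h2
        rw [← sdiff_union_of_subset h1.2.1, he, sdiff_union_of_subset h2.2.1]
      · intro E h1
        rw [mem_filter] at h1
        have h2 := mem_lkc.mp (hD1 h1.1)
        have h3 : (E ∪ G₀) \ G₀ = E := union_sdiff_cancel_right h2.2.1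
        refine ⟨E ∪ G₀, ?_, h3⟩
        rw [mem_filter, mem_filter, hne, h3]
        refine ⟨⟨h2.2.2.1, ?_⟩, subset_union_right, h1.1⟩
        rw [← sdiff_union_of_subset hGG]
        exact union_subset_union_left h1.2
    rw [hcard]
    have h1 := hD3 (G \ G₀) (by rw [card_sdiff_of_subset hGG, hG.2.2.2.2])
    rw [mem_sup2 hc hGG] at h1
    by_cases h2 : e G = 0
    · rw [h2, ZMod.natCast_eq_zero_iff_even, ← Nat.not_odd_iff_even, ← h1]
      exact fun h3 => h3 h2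
    · rw [eq_one_of_ne h2, ZMod.natCast_eq_one_iff_odd, ← h1]
      exact h2

private theorem top_two (h : Ball Γ σ) {G₀ : Finset (Fin n)} (hG₀ : G₀ ∈ Γ)
    {U : Finset (Fin d)} (hU : car σ G₀ ⊆ U) (hne : car σ G₀ ≠ U) :
    Ex (ZMod 2) σ Γ G₀ ∅ U #U := by
  intro e hc hcyc
  refine ⟨fun _ => 0, fun G hG => absurd rfl hG, fun G _ => ?_⟩
  rw [sum_const_zero]
  by_contra h1
  have h1' : e G ≠ 0 := fun h => h1 h.symm
  have h2 := (h.ball U G₀ hG₀ hU).boundary hne (sup2 Γ G₀ e) (sup2_cycle h hc hcyc)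
  have h3 := (mem_sup2 hc (hc G h1').2.1).mpr h1'
  rw [h2] at h3
  exact notMem_empty _ h3

/-- From the coefficients `ZMod 2` to `K`. -/
private theorem ex_base [CharP K 2] {G₀ : Finset (Fin n)} {W U : Finset (Fin d)} {j : ℕ}
    (hE : Ex (ZMod 2) σ Γ G₀ W U j) : Ex K σ Γ G₀ W U j := by
  classical
  intro c hc hcyc
  let _ : Algebra (ZMod 2) K := ZMod.algebra K 2
  let B := Module.Basis.ofVectorSpace (ZMod 2) K
  have hz : ∀ β G, B.repr (c G) β ≠ 0 → c G ≠ 0 := by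
    intro β G h1 h2
    rw [h2, map_zero, Finsupp.zero_apply] at h1
    exact h1 rfl
  have hex : ∀ β, ∃ b : Finset (Fin n) → ZMod 2,
      (∀ G, b G ≠ 0 → Rg σ Γ G₀ W U (j + 1) G) ∧
      ∀ G, Rg σ Γ G₀ W U j G →
        ∑ G' ∈ Γ.filter (fun G' => G ⊆ G'), b G' = B.repr (c G) β := by
    intro β
    refine hE (fun G => B.repr (c G) β) (fun G hG => hc G (hz β G hG)) ?_
    intro R h1 h2 h3 h4 h5
    have h6 := congrArg (fun x => B.repr x β) (hcyc R h1 h2 h3 h4 h5)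
    simpa only [map_sum, Finsupp.finsetSum_apply, map_zero, Finsupp.zero_apply] using h6
  choose b hb1 hb2 using hex
  let T := Γ.biUnion fun G => (B.repr (c G)).support
  refine ⟨fun G' => ∑ β ∈ T, b β G' • B β, ?_, ?_⟩
  · intro G hG
    obtain ⟨β, _, h1⟩ := exists_ne_zero_of_sum_ne_zero hG
    refine hb1 β G ?_
    intro h2
    rw [h2, zero_smul] at h1
    exact h1 rfl
  · intro G h1
    rw [sum_comm]
    have h4 : ∀ β, ∑ G' ∈ Γ.filter (fun G' => G ⊆ G'), b β G' • B β = B.repr (c G) β • B β := by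
      intro β
      rw [← sum_smul, hb2 β G h1]
    rw [sum_congr rfl fun β _ => h4 β]
    conv_rhs => rw [← B.linearCombination_repr (c G), Finsupp.linearCombination_apply,
      Finsupp.sum]
    symm
    refine sum_subset (fun β hβ => mem_biUnion.mpr ⟨G, h1.1, hβ⟩) ?_
    intro β _ hβ
    rw [Finsupp.notMem_support_iff.mp hβ, zero_smul]

/-- The case `W = ∅` below the top dimension. PROOF. As `chain_low` in `Two/Coef` with `U` in place of
`univ` and `#U` in place of `d` (`low` of `BallAt Γ σ U G₀`, `h.ball U G₀`); the faces of the link of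
`G₀` in `Γ_U` are the `G \ G₀`. -/
theorem ex_low [CharP K 2] (h : Ball Γ σ) {G₀ : Finset (Fin n)} (hG₀ : G₀ ∈ Γ)
    {U : Finset (Fin d)} (hU : car σ G₀ ⊆ U) {j : ℕ} (hj : j < #U) : Ex K σ Γ G₀ ∅ U j := by
  exact ex_base (low_two h hG₀ hU hj)

/-- The case `W = ∅` in the top dimension for a boundary face `G₀` of `Γ_U`: the only cycle is zero
(`b = 0`). PROOF. As `chain_top_boundary` in `Two/Coef` with `U` in place of `univ` and `#U` in
place of `d`. -/
theorem ex_top [CharP K 2] (h : Ball Γ σ) {G₀ : Finset (Fin n)} (hG₀ : G₀ ∈ Γ)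
    {U : Finset (Fin d)} (hU : car σ G₀ ⊆ U) (hne : car σ G₀ ≠ U) : Ex K σ Γ G₀ ∅ U #U := by
  exact ex_base (top_two h hG₀ hU hne)

/-- There are two faces between `R'` and `G`. -/
private theorem two_between (h : Ball Γ σ) {R' G : Finset (Fin n)} (hG : G ∈ Γ) (hRG : R' ⊆ G)
    (hcard : #G = #R' + 2) :
    #(Γ.filter fun R => (R' ⊆ R ∧ #R = #R' + 1) ∧ R ⊆ G) = 2 := by
  have h2 : #(G \ R') = 2 := by
    rw [card_sdiff_of_subset hRG]
    omega
  refine Eq.trans (Eq.symm ?_) h2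
  refine card_bij (fun x _ => insert x R') ?_ ?_ ?_
  · intro x hx
    rw [mem_sdiff] at hx
    rw [mem_filter]
    have h3 : insert x R' ⊆ G := insert_subset hx.1 hRG
    exact ⟨h.down G hG _ h3, ⟨subset_insert x R', card_insert_of_notMem hx.2⟩, h3⟩
  · intro x hx y hy hxy
    rw [mem_sdiff] at hx
    have h4 : x ∈ insert y R' := hxy ▸ mem_insert_self x R'
    rcases mem_insert.1 h4 with h5 | h5
    · exact h5
    · exact absurd h5 hx.2
  · intro R hR
    rw [mem_filter] at hR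
    obtain ⟨x, hx, hxR⟩ := exists_eq_insert_iff.2 ⟨hR.2.1.1, hR.2.1.2.symm⟩
    exact ⟨x, mem_sdiff.2 ⟨hR.2.2 (hxR ▸ mem_insert_self x R'), hx⟩, hxR⟩

private theorem double_sum [CharP K 2] (h : Ball Γ σ) {j : ℕ} {R' : Finset (Fin n)}
    (hR' : #R' + 1 = j) (c : Finset (Fin n) → K) (hc : ∀ G, c G ≠ 0 → G ∈ Γ ∧ #G = j + 1) :
    ∑ R ∈ Γ.filter (fun R => R' ⊆ R ∧ #R = j), ∑ G ∈ Γ.filter (fun G => R ⊆ G), c G = 0 := by
  have h1 : ∀ R : Finset (Fin n), ∑ G ∈ Γ.filter (fun G => R ⊆ G), c G =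
      ∑ G ∈ Γ, if R ⊆ G then c G else 0 := fun R => sum_filter _ _
  simp only [h1]
  rw [sum_comm]
  refine sum_eq_zero fun G hG => ?_
  rw [← sum_filter, sum_const, filter_filter]
  by_cases h0 : c G = 0
  · rw [h0, smul_zero]
  · by_cases hRG : R' ⊆ G
    · subst hR'
      rw [two_between h hG hRG (by have := (hc G h0).2; omega), two_smul]
      exact CharTwo.add_self_eq_zero _
    · rw [filter_eq_empty_iff.2, card_empty, zero_smul]
      intro R _ h2
      exact hRG (h2.1.1.trans h2.2)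

/-- PROOF. For `j = 0` a chain of `insert w W` is zero (`w ∉ car σ ∅`). Let `j = j' + 1` and let `c` be a
cycle for `insert w W`, `U`. Let `e R = ∑ G ⊇ R, c G` for the `R` with `Rg G₀ W U j' R`, `0`
otherwise. If `w ∈ car σ R` it is zero; so `e` is a chain for `W`, `U.erase w`, at the place `j'`. It is a
cycle: the sum over the `R ⊇ R'` of the sums over the `G ⊇ R` of `c G`; for `G ⊇ R'` with two more
elements there are exactly two `R` in between (`Two/Exact`: `ex_two`, `bdy_bdy`; all such `R` are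
faces of `Γ_U` with `W ⊆ car σ R' ⊆ car σ R`, and those with `w ∈ car σ R` contribute zero). If `e = 0` let
`c₁ = 0`; otherwise `ex1` (its hypothesis is used only if some `R` with `G₀ ⊆ R`,
`car σ R ⊆ U.erase w` exists, so `car σ G₀ ⊆ U.erase w`) gives `c₁` with `∑ G ⊇ R, c₁ G = e R` for all
`R` with `Rg G₀ W (U.erase w) j' R`. Then `c + c₁` is a cycle for `W`, `U` at the place `j`, `ex2` gives `b` with
boundary `c + c₁`; drop the `b G` with `w ∉ car σ G`: at the `G` with `w ∈ car σ G` the boundary does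
not change, and `c₁ G = 0`. -/
theorem ex_step [CharP K 2] (h : Ball Γ σ) {G₀ : Finset (Fin n)}
    {W U : Finset (Fin d)} {w : Fin d} (hwU : w ∈ U) (hwW : w ∉ W) {j : ℕ}
    (ex1 : ∀ j', j' + 1 = j → car σ G₀ ⊆ U.erase w → Ex K σ Γ G₀ W (U.erase w) j')
    (ex2 : Ex K σ Γ G₀ W U j) : Ex K σ Γ G₀ (insert w W) U j := by
  classical
  intro c hc hcyc
  rcases Nat.eq_zero_or_eq_succ_pred j with hj0 | hj0
  · refine ⟨fun _ => 0, fun G hG => absurd rfl hG, fun G hG => ?_⟩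
    exfalso
    have h1 : #G = 0 := by rw [hG.2.2.2.2, hj0]
    rw [card_eq_zero] at h1
    have h2 := hG.2.2.1 (mem_insert_self w W)
    rw [h1, car, biUnion_empty] at h2
    exact notMem_empty _ h2
  obtain ⟨j', hj'⟩ : ∃ j', j' + 1 = j := ⟨j - 1, by simpa using hj0.symm⟩
  obtain ⟨s, hs⟩ : ∃ s : Finset (Fin n) → K,
      s = fun R => ∑ G ∈ Γ.filter (fun G => R ⊆ G), c G := ⟨_, rfl⟩
  obtain ⟨e, he⟩ : ∃ e : Finset (Fin n) → K,
      e = fun R => if Rg σ Γ G₀ W U j' R then s R else 0 := ⟨_, rfl⟩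
  -- the sum is zero if `w` is in the carrier
  have hs1 : ∀ R, Rg σ Γ G₀ W U j' R → w ∈ car σ R → s R = 0 := by
    intro R hR hw
    rw [hs]
    exact hcyc R hR.1 hR.2.1 (insert_subset hw hR.2.2.1) hR.2.2.2.1 (by rw [hR.2.2.2.2, hj'])
  have he1 : ∀ R, e R ≠ 0 → Rg σ Γ G₀ W (U.erase w) j' R := by
    intro R hR
    rw [he] at hR
    by_cases h1 : Rg σ Γ G₀ W U j' R
    · simp only [if_pos h1] at hR
      have h2 : w ∉ car σ R := fun h2 => hR (hs1 R h1 h2)
      exact ⟨h1.1, h1.2.1, h1.2.2.1, subset_erase.2 ⟨h1.2.2.2.1, h2⟩, h1.2.2.2.2⟩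
    · simp only [if_neg h1] at hR
      exact absurd rfl hR
  have he2 : ∀ R' ∈ Γ, G₀ ⊆ R' → W ⊆ car σ R' → car σ R' ⊆ U.erase w → #R' + 1 = j' →
      ∑ R ∈ Γ.filter (fun R => R' ⊆ R), e R = 0 := by
    intro R' _ h2 h3 _ h5
    have h6 := double_sum h h5 c (fun G hG => ⟨(hc G hG).1, by rw [(hc G hG).2.2.2.2, hj']⟩)
    rw [← h6]
    have h7 : Γ.filter (fun R => R' ⊆ R ∧ #R = j') ⊆ Γ.filter (fun R => R' ⊆ R) := by
      intro R hR
      rw [mem_filter] at hR ⊢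
      exact ⟨hR.1, hR.2.1⟩
    rw [← sum_subset h7]
    · refine sum_congr rfl fun R hR => ?_
      rw [mem_filter] at hR
      rw [he]
      by_cases h8 : Rg σ Γ G₀ W U j' R
      · simp only [if_pos h8, hs]
      · simp only [if_neg h8]
        symm
        refine sum_eq_zero fun G hG => ?_
        rw [mem_filter] at hG
        by_contra h9
        exact h8 ⟨hR.1, h2.trans hR.2.1, h3.trans (car_sub hR.2.1),
          (car_sub hG.2).trans (hc G h9).2.2.2.1, hR.2.2⟩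
    · intro R hR hR'
      rw [mem_filter] at hR
      by_contra h8
      exact hR' (mem_filter.2 ⟨hR.1, hR.2, (he1 R h8).2.2.2.2⟩)
  obtain ⟨c₁, hc1, hc2⟩ : ∃ c₁ : Finset (Fin n) → K,
      (∀ G, c₁ G ≠ 0 → Rg σ Γ G₀ W (U.erase w) (j' + 1) G) ∧
      ∀ R, Rg σ Γ G₀ W (U.erase w) j' R →
        ∑ G ∈ Γ.filter (fun G => R ⊆ G), c₁ G = e R := by
    by_cases h0 : ∃ R, e R ≠ 0
    · obtain ⟨R, hR⟩ := h0
      have h1 := he1 R hR
      exact ex1 j' hj' ((car_sub h1.2.1).trans h1.2.2.2.1) e he1 he2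
    · refine ⟨fun _ => 0, fun G hG => absurd rfl hG, fun R _ => ?_⟩
      rw [sum_const_zero]
      by_contra h1
      exact h0 ⟨R, fun h2 => h1 h2.symm⟩
  have hcw : ∀ G, w ∈ car σ G → c₁ G = 0 := by
    intro G hw
    by_contra h1
    exact notMem_erase w U ((hc1 G h1).2.2.2.1 hw)
  obtain ⟨b, hb1, hb2⟩ := ex2 (fun G => c G + c₁ G) (fun G hG => by
      by_cases h1 : c G = 0
      · have h2 : c₁ G ≠ 0 := by
          intro h2
          simp only [h1, h2, add_zero] at hG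
          exact absurd rfl hG
        have h3 := hc1 G h2
        exact ⟨h3.1, h3.2.1, h3.2.2.1, h3.2.2.2.1.trans (erase_subset w U), by
          rw [h3.2.2.2.2, hj']⟩
      · have h3 := hc G h1
        exact ⟨h3.1, h3.2.1, (subset_insert w W).trans h3.2.2.1, h3.2.2.2.1, h3.2.2.2.2⟩)
    (fun R h1 h2 h3 h4 h5 => by
      rw [sum_add_distrib]
      have h6 : Rg σ Γ G₀ W U j' R := ⟨h1, h2, h3, h4, by omega⟩
      by_cases hw : w ∈ car σ R
      · have h7 := hs1 R h6 hw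
        rw [hs] at h7
        simp only at h7
        rw [h7, zero_add]
        refine sum_eq_zero fun G hG => ?_
        rw [mem_filter] at hG
        exact hcw G (car_sub hG.2 hw)
      · have h7 : Rg σ Γ G₀ W (U.erase w) j' R :=
          ⟨h1, h2, h3, subset_erase.2 ⟨h4, hw⟩, by omega⟩
        rw [hc2 R h7, he]
        simp only [if_pos h6, hs]
        exact CharTwo.add_self_eq_zero _)
  refine ⟨fun G => if w ∈ car σ G then b G else 0, fun G hG => ?_, fun G hG => ?_⟩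
  · by_cases hw : w ∈ car σ G
    · simp only [if_pos hw] at hG
      have h1 := hb1 G hG
      exact ⟨h1.1, h1.2.1, insert_subset hw h1.2.2.1, h1.2.2.2.1, h1.2.2.2.2⟩
    · simp only [if_neg hw] at hG
      exact absurd rfl hG
  · have hw : w ∈ car σ G := hG.2.2.1 (mem_insert_self w W)
    have h1 := hb2 G ⟨hG.1, hG.2.1, (subset_insert w W).trans hG.2.2.1, hG.2.2.2.1,
      hG.2.2.2.2⟩
    rw [hcw G hw, add_zero] at h1
    rw [← h1]
    refine sum_congr rfl fun G' hG' => ?_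
    rw [mem_filter] at hG'
    exact if_pos (car_sub hG'.2 hw)

/-- PROOF. Induction on `W` for all `U ⊇ W` and `j`: below the top dimension (`j < #U`), or in the top
dimension if `W ∪ car σ G₀ ≠ U`. `W = ∅`: `ex_low`, `ex_top`. Step: `ex_step`;
`j' < #(U.erase w)` if `j < #U`; if `j = #U` and `insert w W ∪ car σ G₀ ≠ U` then
`W ∪ car σ G₀ ≠ U.erase w` (if `car σ G₀ ⊆ U.erase w`) and `W ∪ car σ G₀ ≠ U`. -/
theorem ex_all [CharP K 2] (h : Ball Γ σ) {G₀ : Finset (Fin n)} (hG₀ : G₀ ∈ Γ)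
    (W : Finset (Fin d)) : ∀ U : Finset (Fin d), W ⊆ U → car σ G₀ ⊆ U → ∀ j : ℕ,
      (j < #U ∨ (j = #U ∧ W ∪ car σ G₀ ≠ U)) → Ex K σ Γ G₀ W U j := by
  classical
  induction W using Finset.induction_on with
  | empty =>
    intro U _ hU j hj
    rcases hj with hj | ⟨rfl, hj⟩
    · exact ex_low h hG₀ hU hj
    · rw [empty_union] at hj
      exact ex_top h hG₀ hU hj
  | insert w W hw ih =>
    intro U hWU hU j hj
    have hwU : w ∈ U := hWU (mem_insert_self w W)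
    have hW : W ⊆ U := (subset_insert w W).trans hWU
    have hcard : #(U.erase w) + 1 = #U := card_erase_add_one hwU
    refine ex_step h hwU hw (fun j' hj' hU' => ih (U.erase w) (subset_erase.2 ⟨hW, hw⟩) hU' j' ?_)
      (ih U hW hU j ?_)
    · rcases hj with hj | ⟨hj, hne⟩
      · exact Or.inl (by omega)
      · refine Or.inr ⟨by omega, fun h1 => hne ?_⟩
        rw [insert_union, h1, insert_erase hwU]
    · rcases hj with hj | ⟨hj, hne⟩
      · exact Or.inl hj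
      · refine Or.inr ⟨hj, fun h1 => hne ?_⟩
        rw [insert_union, h1, insert_eq_of_mem hwU]

/-- PROOF. `ex_all` for `W = U = univ`. -/
theorem chain_int [CharP K 2] (h : Ball Γ σ) {G₀ : Finset (Fin n)} (hG₀ : G₀ ∈ Γ) {j : ℕ}
    (hj : j < d) (c : Finset (Fin n) → K)
    (hc : ∀ G, c G ≠ 0 → G ∈ intr σ Γ ∧ #G = j ∧ G₀ ⊆ G)
    (hcyc : ∀ R ∈ intr σ Γ, G₀ ⊆ R → #R + 1 = j →
      ∑ G ∈ (intr σ Γ).filter (fun G => R ⊆ G), c G = 0) :
    ∃ b : Finset (Fin n) → K, (∀ G, b G ≠ 0 → G ∈ intr σ Γ ∧ #G = j + 1 ∧ G₀ ⊆ G) ∧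
      ∀ G ∈ intr σ Γ, #G = j → G₀ ⊆ G →
        ∑ G' ∈ (intr σ Γ).filter (fun G' => G ⊆ G'), b G' = c G := by
  have hfil : ∀ R : Finset (Fin n), car σ R = univ →
      (intr σ Γ).filter (fun G => R ⊆ G) = Γ.filter (fun G => R ⊆ G) := by
    intro R hR
    ext G
    rw [mem_filter, mem_filter, intr, mem_filter]
    constructor
    · rintro ⟨⟨h1, _⟩, h2⟩
      exact ⟨h1, h2⟩
    · rintro ⟨h1, h2⟩
      exact ⟨⟨h1, univ_subset_iff.1 (hR ▸ car_sub h2)⟩, h2⟩
  have hint : ∀ G : Finset (Fin n), G ∈ intr σ Γ ↔ G ∈ Γ ∧ car σ G = univ := by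
    intro G
    rw [intr, mem_filter]
  obtain ⟨b, hb1, hb2⟩ := ex_all (K := K) h hG₀ univ univ subset_rfl (subset_univ _) j
    (Or.inl (by rw [card_univ, Fintype.card_fin]; exact hj)) c
    (fun G hG => by
      obtain ⟨h1, h2, h3⟩ := hc G hG
      rw [hint] at h1
      exact ⟨h1.1, h3, h1.2.ge, subset_univ _, h2⟩)
    (fun R h1 h2 h3 _ h5 => by
      have h6 : car σ R = univ := univ_subset_iff.1 h3
      rw [← hfil R h6]
      exact hcyc R ((hint R).2 ⟨h1, h6⟩) h2 h5)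
  refine ⟨b, fun G hG => ?_, fun G hG h2 h3 => ?_⟩
  · have h1 := hb1 G hG
    exact ⟨(hint G).2 ⟨h1.1, univ_subset_iff.1 h1.2.2.1⟩, h1.2.2.2.2, h1.2.1⟩
  · rw [hint] at hG
    rw [hfil G hG.2]
    exact hb2 G ⟨hG.1, h3, hG.2.ge, subset_univ _, h2⟩

end Pool.Agent.Lib.MP_fd6ff4_co.Six
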