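import Mathlib
import Pool.Agent.Lib.MP_fd6ff4_co.Six.Defs
import Pool.Agent.Lib.MP_fd6ff4_co.Two.CombTwo

/-!
# The closure property: first consequences

`C` is the context, the part of the cover which is kept; `In S C D` says that `C ∪ D` is a member of
`S` (and `C`, `D` are disjoint).
-/

set_option autoImplicit false

open Finset

namespace Pool.Agent.Lib.MP_fd6ff4_co.Six

open Two

variable {d n : ℕ} {σ : Fin n → Finset (Fin d)} {t : ℕ} {S : Finset (Fin n) → Prop}

/-- the excess -/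
def dl (σ : Fin n → Finset (Fin d)) (A : Finset (Fin n)) : ℤ := 2 * (#A : ℤ) - #(car σ A)

def In (S : Finset (Fin n) → Prop) (C D : Finset (Fin n)) : Prop := Disjoint C D ∧ S (C ∪ D)

def Eta (σ : Fin n → Finset (Fin d)) (D : Finset (Fin n)) (m : ℤ) : Prop := ∀ A ⊆ D, dl σ A ≤ m

def NoSing (σ : Fin n → Finset (Fin d)) (D : Finset (Fin n)) : Prop := ∀ v ∈ D, 2 ≤ #(σ v)

/-- Every `D` with `m` elements in a nonempty context can be replaced by a good one with a larger
footprint. -/
def RelS (σ : Fin n → Finset (Fin d)) (S : Finset (Fin n) → Prop) (m : ℕ) : Prop :=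
  ∀ C D : Finset (Fin n), C.Nonempty → In S C D → #D = m →
    ∃ D', In S C D' ∧ #D' = m ∧ car σ D ⊆ car σ D' ∧ dl σ D' ≤ 0 ∧ Eta σ D' 1 ∧ NoSing σ D'

theorem car_mono {A B : Finset (Fin n)} (h : A ⊆ B) : car σ A ⊆ car σ B :=
  biUnion_subset_biUnion_of_subset_left _ h

theorem car_union (A B : Finset (Fin n)) : car σ (A ∪ B) = car σ A ∪ car σ B := by
  ext i
  simp only [car, mem_biUnion, mem_union]
  constructor
  · rintro ⟨v, hv | hv, hi⟩
    · exact Or.inl ⟨v, hv, hi⟩
    · exact Or.inr ⟨v, hv, hi⟩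
  · rintro (⟨v, hv, hi⟩ | ⟨v, hv, hi⟩)
    · exact ⟨v, Or.inl hv, hi⟩
    · exact ⟨v, Or.inr hv, hi⟩

theorem car_insert (v : Fin n) (A : Finset (Fin n)) : car σ (insert v A) = σ v ∪ car σ A := by
  rw [car, biUnion_insert]
  rfl

theorem dl_empty : dl σ ∅ = 0 := by
  simp [dl, car]

/-- PROOF. `car (A ∪ B) = car A ∪ car B`, `car (A ∩ B) ⊆ car A ∩ car B` and
`Finset.card_union_add_card_inter`. -/
theorem dl_union (A B : Finset (Fin n)) : dl σ A + dl σ B ≤ dl σ (A ∪ B) + dl σ (A ∩ B) := by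
  have h1 := card_union_add_card_inter A B
  have h2 := card_union_add_card_inter (car σ A) (car σ B)
  have h3 : #(car σ (A ∩ B)) ≤ #(car σ A ∩ car σ B) :=
    card_le_card (subset_inter (car_mono inter_subset_left) (car_mono inter_subset_right))
  have h4 : #(car σ (A ∪ B)) = #(car σ A ∪ car σ B) := by rw [car_union]
  unfold dl
  omega

/-- Replacing `B ⊆ D` by `B'` (keeping `D \ B` in the context). -/
theorem In.sub {C D B : Finset (Fin n)} (h : In S C D) (hB : B ⊆ D) : In S (C ∪ D \ B) B := by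
  obtain ⟨h1, h2⟩ := h
  refine ⟨?_, ?_⟩
  · rw [disjoint_union_left]
    exact ⟨h1.mono_right hB, sdiff_disjoint⟩
  · rwa [union_assoc, sdiff_union_of_subset hB]

/-- PROOF. Set algebra. -/
theorem In.back {C D B B' : Finset (Fin n)} (h : In S C D) (hB : B ⊆ D)
    (h' : In S (C ∪ D \ B) B') : In S C (D \ B ∪ B') ∧ #(D \ B ∪ B') + #B = #D + #B' := by
  obtain ⟨h1, h2⟩ := h
  obtain ⟨h3, h4⟩ := h'
  rw [disjoint_union_left] at h3
  refine ⟨⟨?_, ?_⟩, ?_⟩
  · rw [disjoint_union_right]
    exact ⟨h1.mono_right sdiff_subset, h3.1⟩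
  · rwa [← union_assoc]
  · rw [card_union_of_disjoint h3.2]
    have := card_sdiff_add_card_eq_card hB
    omega

/-- Every element of a member has a private point. PROOF. `minimal` and `cover`. -/
theorem private_point (h : Clo σ t S) {C D : Finset (Fin n)} (hD : In S C D) {v : Fin n}
    (hv : v ∈ C ∪ D) : ∃ i ∈ σ v, i ∉ car σ ((C ∪ D).erase v) := by
  by_contra hc
  have hc' : ∀ i ∈ σ v, i ∈ car σ ((C ∪ D).erase v) := by
    intro i hi
    by_contra h'
    exact hc ⟨i, hi, h'⟩
  apply h.minimal _ hD.2 v hv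
  have h1 := h.cover _ hD.2
  rw [← insert_erase hv, car_insert] at h1
  rw [union_eq_right.mpr hc'] at h1
  exact h1

/-- PROOF. `private_point`: the carrier grows by at least one. -/
theorem dl_insert (h : Clo σ t S) {C D : Finset (Fin n)} (hD : In S C D) {A : Finset (Fin n)}
    {v : Fin n} (hA : insert v A ⊆ C ∪ D) (hv : v ∉ A) : dl σ (insert v A) ≤ dl σ A + 1 := by
  have hvN : v ∈ C ∪ D := hA (mem_insert_self v A)
  obtain ⟨i, hi, hi'⟩ := private_point h hD hvN
  have hAe : A ⊆ (C ∪ D).erase v := by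
    intro w hw
    refine mem_erase.mpr ⟨fun e => hv (e ▸ hw), hA (mem_insert_of_mem hw)⟩
  have hiA : i ∉ car σ A := fun h' => hi' (car_mono hAe h')
  have h1 : insert i (car σ A) ⊆ car σ (insert v A) := by
    rw [car_insert]
    intro j hj
    rcases mem_insert.mp hj with rfl | hj
    · exact mem_union_left _ hi
    · exact mem_union_right _ hj
  have h2 := card_le_card h1
  rw [card_insert_of_notMem hiA] at h2
  have h3 := card_insert_of_notMem hv
  unfold dl
  omega

/-- PROOF. Induction on `B`, `dl_insert` (if `v ∈ Q` nothing changes). -/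
theorem dl_add (h : Clo σ t S) {C D : Finset (Fin n)} (hD : In S C D) {Q B : Finset (Fin n)}
    (hQ : Q ⊆ C ∪ D) (hB : B ⊆ C ∪ D) : dl σ (Q ∪ B) ≤ dl σ Q + #B := by
  induction B using Finset.induction_on with
  | empty => simp
  | insert v B hv ih =>
    have hB' : B ⊆ C ∪ D := (subset_insert _ _).trans hB
    have ih := ih hB'
    rw [card_insert_of_notMem hv, union_insert]
    by_cases hvq : v ∈ Q ∪ B
    · rw [insert_eq_of_mem hvq]
      push_cast
      omega
    · have h1 : insert v (Q ∪ B) ⊆ C ∪ D := by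
        intro w hw
        rcases mem_insert.mp hw with rfl | hw
        · exact hB (mem_insert_self _ _)
        · rcases mem_union.mp hw with hw | hw
          · exact hQ hw
          · exact hB' hw
      have h2 := dl_insert h hD h1 hvq
      push_cast
      omega

/-- PROOF. If `car σ D = univ` then `car σ ((C ∪ D).erase v) = univ` for `v ∈ C`, against
`minimal`. -/
theorem car_ne_univ (h : Clo σ t S) {C D : Finset (Fin n)} (hC : C.Nonempty) (hD : In S C D) :
    car σ D ≠ univ := by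
  intro hu
  obtain ⟨v, hv⟩ := hC
  apply h.minimal _ hD.2 v (mem_union_left _ hv)
  have h1 : D ⊆ (C ∪ D).erase v := by
    intro w hw
    refine mem_erase.mpr ⟨fun e => ?_, mem_union_right _ hw⟩
    exact (disjoint_left.mp hD.1 hv) (e ▸ hw)
  refine eq_univ_iff_forall.mpr fun i => car_mono h1 ?_
  rw [hu]
  exact mem_univ i

/-- The footprint grows if the excess is positive. PROOF. `step` for `N = C ∪ D`, `A = D`
(`car_ne_univ`, `N \ A = C`), `D' = insert k M`: `car σ D'` contains `(car σ D).erase i` and `i`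
(`i ∈ σ k`) and a point of `σ k` outside `car σ D`. -/
theorem grow (h : Clo σ t S) {C D : Finset (Fin n)} (hC : C.Nonempty) (hD : In S C D)
    (hdl : 1 ≤ dl σ D) : ∃ D', In S C D' ∧ #D' = #D ∧ car σ D ⊂ car σ D' := by
  have hlt : #(car σ D) < 2 * #D := by
    unfold dl at hdl
    omega
  obtain ⟨i, M, k, h1, -, h3, h4, h5, h6, h7, h8, h9, h10⟩ :=
    h.step _ hD.2 D subset_union_right (car_ne_univ h hC hD) hlt
  have hC' : (C ∪ D) \ D = C := by
    rw [union_sdiff_right]
    exact sdiff_eq_self_of_disjoint hD.1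
  rw [hC'] at h7 h9 h10
  refine ⟨insert k M, ⟨?_, h10⟩, ?_, ?_⟩
  · exact disjoint_insert_right.mpr ⟨h9, h7⟩
  · rw [card_insert_of_notMem h8]
    exact h5
  · rw [car_insert, h6]
    refine ⟨?_, ?_⟩
    · intro j hj
      by_cases hji : j = i
      · rw [hji]
        exact mem_union_left _ h3
      · exact mem_union_right _ (mem_erase.mpr ⟨hji, hj⟩)
    · intro hs
      exact h4 (fun j hj => hs (mem_union_left _ hj))

/-- PROOF. Choose `D'` with `In S C D'`, `#D' = #D`, `car σ D ⊆ car σ D'` and `#(car σ D')` maximal (at most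
`d`; or induction on `d - #(car σ D)`). -/
theorem max_foot {C D : Finset (Fin n)} (hD : In S C D) :
    ∃ D', In S C D' ∧ #D' = #D ∧ car σ D ⊆ car σ D' ∧
      ∀ D'', In S C D'' → #D'' = #D → car σ D' ⊆ car σ D'' → car σ D'' = car σ D' := by
  classical
  obtain ⟨D', hD', hmax⟩ := Finset.exists_max_image
    ((univ : Finset (Finset (Fin n))).filter
      (fun D' => In S C D' ∧ #D' = #D ∧ car σ D ⊆ car σ D')) (fun D' => #(car σ D'))
    ⟨D, mem_filter.mpr ⟨mem_univ _, hD, rfl, Subset.rfl⟩⟩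
  rw [mem_filter] at hD'
  obtain ⟨-, h1, h2, h3⟩ := hD'
  refine ⟨D', h1, h2, h3, ?_⟩
  intro D'' h4 h5 h6
  have h7 := hmax D'' (mem_filter.mpr ⟨mem_univ _, h4, h5, h3.trans h6⟩)
  exact (eq_of_subset_of_card_le h6 h7).symm

/-- The case `2 * t - d ≥ 2`. PROOF. Let `p v = σ v \ car σ (N.erase v)` be the set of the private
points of `v ∈ N`, nonempty and pairwise disjoint. If all had at least two elements then
`2 * t ≤ d`; so there is `k₀ ∈ N` with `p k₀ = {i₀}`. Let `A = N.erase k₀`; `car σ A = univ.erase i₀`, with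
`d - 1 < 2 * (t - 1)` elements (`t = #N ≥ 1`). `step` gives `i`, `M`, `k`; `N \ A = {k₀}`,
`N' = {k₀} ∪ insert k M`. As `σ k ⊄ car σ A` we have `i₀ ∈ σ k`; also `i ∈ σ k`, and
`car σ M = (univ.erase i₀).erase i`, so `car σ (insert k M) = univ`: this contradicts `minimal` for `N'` and
`k₀ ∈ N'` (`k₀ ∉ insert k M`). -/
theorem clo_two (h : Clo σ t S) (hd : d + 2 ≤ 2 * t) {N : Finset (Fin n)} (hN : S N) : False := by
  classical
  have ht := h.card N hN
  have hc := h.cover N hN
  -- the private points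
  have hne : ∀ v ∈ N, (σ v \ car σ (N.erase v)).Nonempty := by
    intro v hv
    by_contra hc'
    rw [not_nonempty_iff_eq_empty, sdiff_eq_empty_iff_subset] at hc'
    apply h.minimal N hN v hv
    have h1 := hc
    rw [← insert_erase hv, car_insert, union_eq_right.mpr hc'] at h1
    exact h1
  obtain ⟨k₀, hk₀, hp⟩ : ∃ k₀ ∈ N, #(σ k₀ \ car σ (N.erase k₀)) ≤ 1 := by
    by_contra hcon
    have h2 : ∀ v ∈ N, 2 ≤ #(σ v \ car σ (N.erase v)) := by
      intro v hv
      by_contra h'
      exact hcon ⟨v, hv, by omega⟩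
    have hdis : ∀ v ∈ N, ∀ w ∈ N, v ≠ w →
        Disjoint (σ v \ car σ (N.erase v)) (σ w \ car σ (N.erase w)) := by
      intro v hv w hw hvw
      rw [disjoint_left]
      intro j hj hj'
      rw [mem_sdiff] at hj hj'
      apply hj.2
      rw [car, mem_biUnion]
      exact ⟨w, mem_erase.mpr ⟨hvw.symm, hw⟩, hj'.1⟩
    have h3 : #(N.biUnion fun v => σ v \ car σ (N.erase v)) =
        ∑ v ∈ N, #(σ v \ car σ (N.erase v)) := card_biUnion hdis
    have h4 : ∑ _v ∈ N, 2 ≤ ∑ v ∈ N, #(σ v \ car σ (N.erase v)) := sum_le_sum h2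
    rw [sum_const, smul_eq_mul, ht] at h4
    have h5 : #(N.biUnion fun v => σ v \ car σ (N.erase v)) ≤ d := by
      refine (card_le_univ _).trans ?_
      simp
    omega
  obtain ⟨i₀, hi₀⟩ : ∃ i₀, σ k₀ \ car σ (N.erase k₀) = {i₀} := by
    rw [← card_eq_one]
    have h0 : 0 < #(σ k₀ \ car σ (N.erase k₀)) := card_pos.mpr (hne k₀ hk₀)
    exact le_antisymm hp h0
  have hi₁ : i₀ ∈ σ k₀ ∧ i₀ ∉ car σ (N.erase k₀) := by
    have : i₀ ∈ σ k₀ \ car σ (N.erase k₀) := by
      rw [hi₀]
      exact mem_singleton_self _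
    exact mem_sdiff.mp this
  have hcA : ∀ j, j ≠ i₀ → j ∈ car σ (N.erase k₀) := by
    intro j hj
    by_contra hj'
    have h1 : j ∈ σ k₀ ∪ car σ (N.erase k₀) := by
      rw [← car_insert, insert_erase hk₀, hc]
      exact mem_univ _
    rcases mem_union.mp h1 with h1 | h1
    · have : j ∈ σ k₀ \ car σ (N.erase k₀) := mem_sdiff.mpr ⟨h1, hj'⟩
      rw [hi₀, mem_singleton] at this
      exact hj this
    · exact hj' h1
  have hcA' : car σ (N.erase k₀) = univ.erase i₀ := by
    ext j
    rw [mem_erase]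
    constructor
    · intro hj
      exact ⟨fun e => hi₁.2 (e ▸ hj), mem_univ _⟩
    · intro hj
      exact hcA j hj.1
  have hcard : #(car σ (N.erase k₀)) < 2 * #(N.erase k₀) := by
    have hd0 : 0 < d := i₀.pos
    rw [hcA', card_erase_of_mem (mem_univ _), card_erase_of_mem hk₀, card_univ, Fintype.card_fin, ht]
    omega
  have hnu : car σ (N.erase k₀) ≠ univ := by
    intro e
    apply hi₁.2
    rw [e]
    exact mem_univ _
  obtain ⟨i, M, k, h1, -, h3, h4, -, h6, h7, -, h9, h10⟩ :=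
    h.step N hN (N.erase k₀) (erase_subset _ _) hnu hcard
  have hsd : N \ N.erase k₀ = {k₀} := by
    ext v
    rw [mem_sdiff, mem_erase, mem_singleton]
    constructor
    · rintro ⟨hv, hv'⟩
      by_contra hne'
      exact hv' ⟨hne', hv⟩
    · rintro rfl
      exact ⟨hk₀, fun h' => h'.1 rfl⟩
  rw [hsd] at h7 h9 h10
  have hi₀k : i₀ ∈ σ k := by
    obtain ⟨j, hj, hj'⟩ := not_subset.mp h4
    by_cases e : j = i₀
    · exact e ▸ hj
    · exact absurd (hcA j e) hj'
  have hfull : car σ (insert k M) = univ := by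
    rw [eq_univ_iff_forall]
    intro j
    rw [car_insert, h6, mem_union]
    by_cases e : j = i
    · exact Or.inl (e ▸ h3)
    · by_cases e' : j = i₀
      · exact Or.inl (e' ▸ hi₀k)
      · exact Or.inr (mem_erase.mpr ⟨e, hcA j e'⟩)
  apply h.minimal _ h10 k₀ (mem_union_left _ (mem_singleton_self _))
  have hsub : insert k M ⊆ ({k₀} ∪ insert k M).erase k₀ := by
    intro w hw
    refine mem_erase.mpr ⟨?_, mem_union_right _ hw⟩
    rintro rfl
    rcases mem_insert.mp hw with e | e
    · exact h9 (by rw [e]; exact mem_singleton_self _)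
    · exact disjoint_left.mp h7 (mem_singleton_self _) e
  refine eq_univ_iff_forall.mpr fun j => car_mono hsub ?_
  rw [hfull]
  exact mem_univ j

/-- Hall's condition. PROOF. For a set `Y` of points let `A = {k ∈ N | σ k ∩ Y = ∅}`;
`Y ∩ car σ A = ∅`, so `#Y + #(car σ A) ≤ d`, and `#{k ∈ N | (σ k ∩ Y).Nonempty} = t - #A`; `Eta` says
`2 * #A - #(car σ A) ≤ 1`, so `#Y ≤ d + 1 - 2 * #A = 2 * (t - #A)`. -/
theorem matchable_of_eta (h : Clo σ t S) (hd : d + 1 = 2 * t) {N : Finset (Fin n)} (hN : S N)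
    (he : Eta σ N 1) : Matchable σ N := by
  classical
  intro Y
  have h1 := he (N.filter fun k => ¬ (σ k ∩ Y).Nonempty) (filter_subset _ _)
  have h2 := card_filter_add_card_filter_not (s := N) (fun k => (σ k ∩ Y).Nonempty)
  rw [h.card N hN] at h2
  have h3 : Disjoint Y (car σ (N.filter fun k => ¬ (σ k ∩ Y).Nonempty)) := by
    rw [disjoint_left]
    intro j hj hj'
    rw [car, mem_biUnion] at hj'
    obtain ⟨v, hv, hjv⟩ := hj'
    rw [mem_filter] at hv
    exact hv.2 ⟨j, mem_inter.mpr ⟨hjv, hj⟩⟩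
  have h4 : #(Y ∪ car σ (N.filter fun k => ¬ (σ k ∩ Y).Nonempty)) ≤ d := by
    refine (card_le_univ _).trans ?_
    simp
  rw [card_union_of_disjoint h3] at h4
  unfold dl at h1
  omega

end Pool.Agent.Lib.MP_fd6ff4_co.Six
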