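import Mathlib
import Pool.Agent.Lib.MP_fd6ff4_co.Six.CloA

/-!
# The closure property: exchanging the largest critical set

A subset `X` of `D` is critical if its excess `dl σ X` is `2`.
-/

set_option autoImplicit false

open Finset

namespace Pool.Agent.Lib.MP_fd6ff4_co.Six

open Two

variable {d n : ℕ} {σ : Fin n → Finset (Fin d)} {t : ℕ} {S : Finset (Fin n) → Prop}

/-- If there is a critical subset of `D` then there is a largest one. PROOF. Take one with the
maximal number of elements, `X`. If `Y` is critical then `dl_union` and `Eta σ D 2` show that `X ∪ Y` is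
critical, so `#(X ∪ Y) ≤ #X` and `Y ⊆ X`. -/
theorem exists_largest {D Y₀ : Finset (Fin n)} (he : Eta σ D 2) (hY₀ : Y₀ ⊆ D)
    (h2 : dl σ Y₀ = 2) : ∃ X ⊆ D, dl σ X = 2 ∧ (∀ Y ⊆ D, dl σ Y = 2 → Y ⊆ X) := by
  obtain ⟨X, hXm, hmax⟩ := Finset.exists_max_image (D.powerset.filter fun A => dl σ A = 2)
    (fun A => #A) ⟨Y₀, Finset.mem_filter.mpr ⟨Finset.mem_powerset.mpr hY₀, h2⟩⟩
  rw [Finset.mem_filter, Finset.mem_powerset] at hXm
  refine ⟨X, hXm.1, hXm.2, fun Y hY hY2 => ?_⟩
  have h3 := dl_union (σ := σ) X Y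
  have h4 := he (X ∪ Y) (Finset.union_subset hXm.1 hY)
  have h5 := he (X ∩ Y) (Finset.inter_subset_left.trans hXm.1)
  have h6 : dl σ (X ∪ Y) = 2 := by
    rw [hXm.2, hY2] at h3
    linarith
  have h7 := hmax (X ∪ Y) (Finset.mem_filter.mpr
    ⟨Finset.mem_powerset.mpr (Finset.union_subset hXm.1 hY), h6⟩)
  have h8 : X = X ∪ Y := Finset.eq_of_subset_of_card_le Finset.subset_union_left h7
  rw [h8]
  exact Finset.subset_union_right

/-- The exchange. PROOF. The context of `X.erase c` is `C ∪ D \ (X.erase c)`, nonempty as it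
contains `c`; note `D \ X.erase c = insert c (D \ X)`. `RelS` (for `#X - 1`) gives `E`; `In.sub`,
`In.back`. For the last claim let `E ⊆ Y ⊆ insert c (D \ X) ∪ E` and `Q = Y \ E`, so
`Q ⊆ insert c (D \ X)`, `#Y = #Q + #E`. If `Q = ∅`: `dl σ E ≤ 0`. If `Q = {c}`: `dl_insert`. Otherwise
`R₁ = Q.erase c ≠ ∅` is contained in `D \ X`, and `Y` has the same number of elements as
`Z = R₁ ∪ X` (if `c ∈ Q`) or `Z = R₁ ∪ X.erase c` (if `c ∉ Q`), and `car σ Z ⊆ car σ Y` as
`car σ (X.erase c) ⊆ car σ E`. So `dl σ Y ≤ dl σ Z`, and `dl σ Z ≤ 1` as `Z ⊆ D` is not contained in `X`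
(`Eta σ D 2` and `hX`). -/
theorem swap (h : Clo σ t S) {C D X : Finset (Fin n)} (hD : In S C D)
    (he : Eta σ D 2) (hXD : X ⊆ D) (hX : ∀ Y ⊆ D, dl σ Y = 2 → Y ⊆ X)
    {c : Fin n} (hc : c ∈ X) {m : ℕ} (hm : m + 1 = #X) (hrel : RelS σ S m) :
    ∃ E : Finset (Fin n), In S C (insert c (D \ X) ∪ E) ∧ Disjoint (insert c (D \ X)) E ∧
      #E + 1 = #X ∧ #(insert c (D \ X) ∪ E) = #D ∧ car σ D ⊆ car σ (insert c (D \ X) ∪ E) ∧
      Eta σ E 1 ∧ NoSing σ E ∧
      ∀ Y ⊆ insert c (D \ X) ∪ E, E ⊆ Y → dl σ Y ≤ 1 := by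
  have hBX : X.erase c ⊆ X := Finset.erase_subset _ _
  have hBD : X.erase c ⊆ D := hBX.trans hXD
  have hcB : #(X.erase c) + 1 = #X := Finset.card_erase_add_one hc
  have hDB : D \ X.erase c = insert c (D \ X) := by
    ext v
    rw [Finset.mem_sdiff, Finset.mem_erase, Finset.mem_insert, Finset.mem_sdiff]
    constructor
    · rintro ⟨h1, h2⟩
      by_cases hv : v = c
      · exact Or.inl hv
      · exact Or.inr ⟨h1, fun h3 => h2 ⟨hv, h3⟩⟩
    · rintro (rfl | ⟨h1, h2⟩)
      · exact ⟨hXD hc, fun h3 => h3.1 rfl⟩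
      · exact ⟨h1, fun h3 => h2 h3.2⟩
  obtain ⟨E, hE, hEm, hcar, hdl, hEta, hNS⟩ := hrel (C ∪ D \ X.erase c) (X.erase c)
    ⟨c, Finset.mem_union_right _ (by rw [hDB]; exact Finset.mem_insert_self _ _)⟩
    (In.sub hD hBD) (by omega)
  obtain ⟨hback, hbc⟩ := In.back hD hBD hE
  rw [hDB] at hback hbc hE
  have hdis : Disjoint (insert c (D \ X)) E :=
    Finset.disjoint_of_subset_left Finset.subset_union_right hE.1
  have hcE : c ∉ E := fun h1 =>
    (Finset.disjoint_left.mp hdis (Finset.mem_insert_self _ _)) h1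
  refine ⟨E, hback, hdis, by omega, by omega, ?_, hEta, hNS, ?_⟩
  · have h1 : D = insert c (D \ X) ∪ X.erase c := by
      rw [← hDB, Finset.sdiff_union_of_subset hBD]
    have h2 : car σ D = car σ (insert c (D \ X)) ∪ car σ (X.erase c) := by
      rw [← car_union, ← h1]
    rw [h2, car_union]
    exact Finset.union_subset_union_right hcar
  · intro Y hY hEY
    have hQ : Y \ E ⊆ insert c (D \ X) := by
      intro v hv
      rw [Finset.mem_sdiff] at hv
      exact (Finset.mem_union.mp (hY hv.1)).resolve_right hv.2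
    have hYc : #Y = #(Y \ E) + #E := by
      rw [Finset.card_sdiff_of_subset hEY]
      have := Finset.card_le_card hEY
      omega
    by_cases hR : ((Y \ E).erase c).Nonempty
    · -- the comparison with `Z`
      have hRD : (Y \ E).erase c ⊆ D \ X := by
        intro v hv
        rw [Finset.mem_erase] at hv
        exact (Finset.mem_insert.mp (hQ hv.2)).resolve_left hv.1
      have hZ : ∀ Z : Finset (Fin n), Z ⊆ D → (Y \ E).erase c ⊆ Z → #Z = #Y →
          car σ Z ⊆ car σ Y → dl σ Y ≤ 1 := by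
        intro Z hZD hRZ hZc hZcar
        have h1 : dl σ Z ≤ 1 := by
          have h4 := he Z hZD
          rcases lt_or_eq_of_le h4 with h5 | h5
          · linarith
          · exfalso
            have h6 := hX Z hZD h5
            obtain ⟨v, hv⟩ := hR
            exact (Finset.mem_sdiff.mp (hRD hv)).2 (h6 (hRZ hv))
        have h2 : (#(car σ Z) : ℤ) ≤ #(car σ Y) := by exact_mod_cast Finset.card_le_card hZcar
        have h3 : (#Z : ℤ) = #Y := by exact_mod_cast hZc
        rw [dl] at h1 ⊢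
        linarith
      have hcarR : car σ ((Y \ E).erase c) ⊆ car σ Y :=
        car_mono ((Finset.erase_subset _ _).trans Finset.sdiff_subset)
      have hcarB : car σ (X.erase c) ⊆ car σ Y := hcar.trans (car_mono hEY)
      by_cases hcQ : c ∈ Y \ E
      · have hdisZ : Disjoint ((Y \ E).erase c) X :=
          Finset.disjoint_of_subset_left hRD Finset.sdiff_disjoint
        refine hZ ((Y \ E).erase c ∪ X) (Finset.union_subset (hRD.trans Finset.sdiff_subset) hXD)
          Finset.subset_union_left ?_ ?_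
        · rw [Finset.card_union_of_disjoint hdisZ]
          have := Finset.card_erase_add_one hcQ
          omega
        · rw [car_union]
          refine Finset.union_subset hcarR ?_
          have h1 : car σ X = σ c ∪ car σ (X.erase c) := by
            rw [← car_insert, Finset.insert_erase hc]
          rw [h1]
          refine Finset.union_subset ?_ hcarB
          exact Finset.subset_biUnion_of_mem σ (Finset.mem_sdiff.mp hcQ).1
      · have hdisZ : Disjoint ((Y \ E).erase c) (X.erase c) :=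
          Finset.disjoint_of_subset_left hRD
            (Finset.disjoint_of_subset_right hBX Finset.sdiff_disjoint)
        refine hZ ((Y \ E).erase c ∪ X.erase c)
          (Finset.union_subset (hRD.trans Finset.sdiff_subset) hBD) Finset.subset_union_left ?_ ?_
        · rw [Finset.card_union_of_disjoint hdisZ, Finset.erase_eq_of_notMem hcQ]
          omega
        · rw [car_union]
          exact Finset.union_subset hcarR hcarB
    · rw [Finset.not_nonempty_iff_eq_empty, Finset.erase_eq_empty_iff] at hR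
      rcases hR with h0 | h0
      · have h1 : Y = E := Finset.Subset.antisymm (Finset.sdiff_eq_empty_iff_subset.mp h0) hEY
        rw [h1]
        linarith
      · have h1 : Y = insert c E := by
          rw [← Finset.sdiff_union_of_subset hEY, h0, Finset.singleton_union]
        rw [h1]
        have h2 : insert c E ⊆ C ∪ (insert c (D \ X) ∪ E) := by
          rw [← h1]
          exact hY.trans Finset.subset_union_right
        have h3 := dl_insert h hback h2 hcE
        linarith

/-- PROOF. `dl σ (Q ∪ X) ≤ 1` as `Q ∪ X ⊆ D` is not contained in `X`. With `dl σ X = 2` this says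
`2 * #Q + 1 ≤ #(car σ Q \ car σ X)`. -/
theorem rest_card {D X Q : Finset (Fin n)} (he : Eta σ D 2) (hXD : X ⊆ D) (h2 : dl σ X = 2)
    (hX : ∀ Y ⊆ D, dl σ Y = 2 → Y ⊆ X) (hQ : Q ⊆ D \ X) (hne : Q.Nonempty) :
    2 * #Q + 1 ≤ #(car σ Q \ car σ X) := by
  have hQD : Q ⊆ D := hQ.trans Finset.sdiff_subset
  have hdis : Disjoint Q X := Finset.disjoint_of_subset_left hQ Finset.sdiff_disjoint
  have h3 : dl σ (Q ∪ X) ≤ 1 := by
    have h4 := he (Q ∪ X) (Finset.union_subset hQD hXD)
    rcases lt_or_eq_of_le h4 with h5 | h5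
    · linarith
    · exfalso
      have h6 := hX (Q ∪ X) (Finset.union_subset hQD hXD) h5
      obtain ⟨v, hv⟩ := hne
      exact (Finset.mem_sdiff.mp (hQ hv)).2 (h6 (Finset.mem_union_left _ hv))
  have h4 : #(Q ∪ X) = #Q + #X := Finset.card_union_of_disjoint hdis
  have h5 : #(car σ Q ∪ car σ X) = #(car σ Q \ car σ X) + #(car σ X) := by
    rw [← Finset.sdiff_union_self_eq_union, Finset.card_union_of_disjoint Finset.sdiff_disjoint]
  rw [dl, car_union, h4, h5] at h3
  rw [dl] at h2
  push_cast at h3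
  have : (2 * (#Q : ℤ) + 1) ≤ (#(car σ Q \ car σ X) : ℤ) := by linarith
  exact_mod_cast this

/-- The sets `Q ⊆ insert c (D \ X)`. PROOF. `rest_card` for `Q.erase c`; if `c ∈ Q` then
`car σ Q ⊇ σ c ∪ (car σ (Q.erase c) \ car σ X)`, a disjoint union as `σ c ⊆ car σ X`. -/
theorem q_bound {D X Q : Finset (Fin n)} (he : Eta σ D 2) (hXD : X ⊆ D) (h2 : dl σ X = 2)
    (hX : ∀ Y ⊆ D, dl σ Y = 2 → Y ⊆ X) {c : Fin n} (hc : c ∈ X)
    (hQ : Q ⊆ insert c (D \ X)) (hne : Q.Nonempty) :
    (Q = {c} ∧ dl σ Q = 2 - #(σ c)) ∨ (c ∉ Q ∧ dl σ Q ≤ -1) ∨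
      (c ∈ Q ∧ Q ≠ {c} ∧ dl σ Q ≤ 1 - #(σ c)) := by
  by_cases hcQ : c ∈ Q
  · by_cases hQc : Q = {c}
    · refine Or.inl ⟨hQc, ?_⟩
      rw [hQc, dl, car, Finset.singleton_biUnion, Finset.card_singleton]
      norm_num
    · refine Or.inr (Or.inr ⟨hcQ, hQc, ?_⟩)
      have hR : Q.erase c ⊆ D \ X := by
        intro v hv
        rw [Finset.mem_erase] at hv
        exact (Finset.mem_insert.mp (hQ hv.2)).resolve_left hv.1
      have hRne : (Q.erase c).Nonempty := by
        rw [Finset.nonempty_iff_ne_empty]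
        intro h0
        rcases (Finset.erase_eq_empty_iff Q c).mp h0 with h1 | h1
        · exact hne.ne_empty h1
        · exact hQc h1
      have h3 := rest_card he hXD h2 hX hR hRne
      have h4 : #(Q.erase c) + 1 = #Q := Finset.card_erase_add_one hcQ
      have hsub : σ c ∪ (car σ (Q.erase c) \ car σ X) ⊆ car σ Q := by
        refine Finset.union_subset ?_ ?_
        · exact Finset.subset_biUnion_of_mem σ hcQ
        · exact Finset.sdiff_subset.trans (car_mono (Finset.erase_subset _ _))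
      have hdis : Disjoint (σ c) (car σ (Q.erase c) \ car σ X) := by
        refine Finset.disjoint_of_subset_left ?_ Finset.disjoint_sdiff
        exact Finset.subset_biUnion_of_mem σ hc
      have h5 := Finset.card_le_card hsub
      rw [Finset.card_union_of_disjoint hdis] at h5
      rw [dl]
      have h6 : ((#(σ c) : ℤ) + (2 * (#(Q.erase c) : ℤ) + 1)) ≤ (#(car σ Q) : ℤ) := by
        exact_mod_cast (by omega : #(σ c) + (2 * #(Q.erase c) + 1) ≤ #(car σ Q))
      have h7 : ((#(Q.erase c) : ℤ) + 1) = (#Q : ℤ) := by exact_mod_cast h4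
      linarith
  · refine Or.inr (Or.inl ⟨hcQ, ?_⟩)
    have hR : Q ⊆ D \ X := by
      intro v hv
      refine (Finset.mem_insert.mp (hQ hv)).resolve_left ?_
      rintro rfl
      exact hcQ hv
    have h3 := rest_card he hXD h2 hX hR hne
    have h4 : #(car σ Q \ car σ X) ≤ #(car σ Q) := Finset.card_le_card Finset.sdiff_subset
    have h5 : (2 * (#Q : ℤ) + 1) ≤ (#(car σ Q) : ℤ) := by exact_mod_cast h3.trans h4
    rw [dl]
    linarith

/-- The sets with excess at least 2 after the exchange. `Q = Y \ E`, `E₁ = Y ∩ E`. PROOF. If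
`E ⊆ Y` then `dl σ Y ≤ 1` by hypothesis, so `E₁` has at most `#E - 1` elements. If `Q` is empty then
`Y = E₁ ⊆ E` and `dl σ Y ≤ 1`. `dl_add` for `Q ∪ E₁ = Y = E₁ ∪ Q`, `Eta σ E 1`. -/
theorem crit_bound (h : Clo σ t S) {C D X E Y : Finset (Fin n)} {c : Fin n}
    (hIn : In S C (insert c (D \ X) ∪ E))
    (hdisj : Disjoint (insert c (D \ X)) E) (hE : #E + 1 = #X) (heE : Eta σ E 1)
    (hbig : ∀ Y ⊆ insert c (D \ X) ∪ E, E ⊆ Y → dl σ Y ≤ 1)
    (hY : Y ⊆ insert c (D \ X) ∪ E) (h2 : 2 ≤ dl σ Y) :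
    (Y \ E).Nonempty ∧ Y \ E ⊆ insert c (D \ X) ∧ #(Y ∩ E) + 2 ≤ #X ∧
      #Y = #(Y \ E) + #(Y ∩ E) ∧ dl σ Y ≤ 1 + #(Y \ E) ∧ dl σ Y ≤ dl σ (Y \ E) + #(Y ∩ E) := by
  have hsub : Y \ E ⊆ insert c (D \ X) := by
    intro v hv
    rw [Finset.mem_sdiff] at hv
    exact (Finset.mem_union.mp (hY hv.1)).resolve_right hv.2
  have hne : (Y \ E).Nonempty := by
    rw [Finset.nonempty_iff_ne_empty]
    intro h0
    have h3 := heE Y (Finset.sdiff_eq_empty_iff_subset.mp h0)
    linarith
  have hEY : ¬ E ⊆ Y := fun h3 => by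
    have h4 := hbig Y hY h3
    linarith
  have hlt : #(Y ∩ E) < #E := by
    refine Finset.card_lt_card (Finset.ssubset_iff_subset_ne.mpr ⟨Finset.inter_subset_right, ?_⟩)
    intro h3
    exact hEY (Finset.inter_eq_right.mp h3)
  have hcard : #Y = #(Y \ E) + #(Y ∩ E) := (Finset.card_sdiff_add_card_inter Y E).symm
  have hYC : Y ⊆ C ∪ (insert c (D \ X) ∪ E) := hY.trans Finset.subset_union_right
  have h3 := dl_add h hIn (Q := Y ∩ E) (B := Y \ E) (Finset.inter_subset_left.trans hYC)
    (Finset.sdiff_subset.trans hYC)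
  have h4 := dl_add h hIn (Q := Y \ E) (B := Y ∩ E) (Finset.sdiff_subset.trans hYC)
    (Finset.inter_subset_left.trans hYC)
  rw [Finset.union_comm, Finset.sdiff_union_inter] at h3
  rw [Finset.sdiff_union_inter] at h4
  have h5 := heE (Y ∩ E) Finset.inter_subset_right
  exact ⟨hne, hsub, by omega, hcard, by linarith, h4⟩

end Pool.Agent.Lib.MP_fd6ff4_co.Six
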