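import Mathlib
import Pool.Agent.Lib.MP_fd6ff4_co.Six.CloB

/-!
# The closure property: making the critical sets smaller
-/

set_option autoImplicit false

open Finset

namespace Pool.Agent.Lib.MP_fd6ff4_co.Six

open Two

variable {d n : ℕ} {σ : Fin n → Finset (Fin d)} {t : ℕ} {S : Finset (Fin n) → Prop}

/-- `D` (with `m` elements, excesses at most 2, no singletons, the excess of `D` at most 1, all the
critical subsets with at most `x` elements) can be replaced by a set with excesses at most 1. -/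
def LemX (σ : Fin n → Finset (Fin d)) (S : Finset (Fin n) → Prop) (m x : ℕ) : Prop :=
  ∀ C D : Finset (Fin n), In S C D → #D = m → NoSing σ D → Eta σ D 2 → dl σ D ≤ 1 →
    (∀ Y ⊆ D, dl σ Y = 2 → #Y ≤ x) →
    ∃ D', In S C D' ∧ #D' = m ∧ car σ D ⊆ car σ D' ∧ Eta σ D' 1 ∧ NoSing σ D'

/-- the exchange together with the bounds for the subsets with excess at least 2 -/
private theorem cloC_swap (h : Clo σ t S) {C D X : Finset (Fin n)} (hD : In S C D)
    (hns : NoSing σ D) (he : Eta σ D 2) (hXD : X ⊆ D) (h2 : dl σ X = 2)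
    (hX : ∀ Y ⊆ D, dl σ Y = 2 → Y ⊆ X) {c : Fin n} (hc : c ∈ X)
    (hrel : ∀ m', m' + 2 ≤ #X + 1 → RelS σ S m') :
    ∃ D' : Finset (Fin n), In S C D' ∧ #D' = #D ∧ car σ D ⊆ car σ D' ∧ NoSing σ D' ∧
      dl σ D' ≤ 1 ∧
      ∀ Y ⊆ D', 2 ≤ dl σ Y → ∃ Q ⊆ insert c (D \ X), ∃ k : ℕ, Q ⊆ Y ∧ Q.Nonempty ∧ k + 2 ≤ #X ∧
        #Y = #Q + k ∧ dl σ Y ≤ 1 + #Q ∧ dl σ Y ≤ dl σ Q + k ∧
        ((Q = {c} ∧ dl σ Q = 2 - #(σ c)) ∨ (c ∉ Q ∧ dl σ Q ≤ -1) ∨
          (c ∈ Q ∧ Q ≠ {c} ∧ dl σ Q ≤ 1 - #(σ c))) := by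
  have hX1 : 1 ≤ #X := card_pos.2 ⟨c, hc⟩
  have hm : (#X - 1) + 1 = #X := by omega
  obtain ⟨E, hIn, hdisj, hE, hcard, hcar, heE, hnsE, hbig⟩ :=
    swap h hD he hXD hX hc hm (hrel (#X - 1) (by omega))
  refine ⟨insert c (D \ X) ∪ E, hIn, hcard, hcar, ?_, hbig _ (Subset.refl _) subset_union_right, ?_⟩
  · intro v hv
    rw [mem_union, mem_insert, mem_sdiff] at hv
    rcases hv with (rfl | hv) | hv
    · exact hns _ (hXD hc)
    · exact hns _ hv.1
    · exact hnsE _ hv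
  · intro Y hY hY2
    obtain ⟨q1, q2, q3, q4, q5, q6⟩ := crit_bound h hIn hdisj hE heE hbig hY hY2
    exact ⟨Y \ E, q2, #(Y ∩ E), sdiff_subset, q1, q3, q4, q5, q6, q_bound he hXD h2 hX hc q2 q1⟩

/-- the largest critical subset -/
private theorem cloC_prop {D X : Finset (Fin n)} (hXD : X ⊆ D) (h2 : dl σ X = 2) (hdl : dl σ D ≤ 1) :
    X.Nonempty ∧ #X + 1 ≤ #D := by
  constructor
  · by_contra hne
    rw [not_nonempty_iff_eq_empty] at hne
    rw [hne, dl_empty] at h2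
    norm_num at h2
  · have hne : X ≠ D := by
      rintro rfl
      omega
    exact card_lt_card (Finset.ssubset_iff_subset_ne.2 ⟨hXD, hne⟩)

/-- PROOF. If there is no critical subset take `D' = D`. Otherwise let `X` be the largest one
(`exists_largest`), `#X ≤ 3`, `X ≠ D` as `dl σ D ≤ 1`, `X` nonempty; `#X - 1 ≤ m - 2`. Take any `c ∈ X` and
`swap`. Let `Y` have excess at least 2 (`crit_bound`): `#(Y ∩ E) ≤ 1`, and `dl σ (Y \ E) ≤ 0` by `q_bound`
(`#(σ c) ≥ 2`), so `dl σ Y ≤ 1`, a contradiction: `Eta 1`. `NoSing`: `c`, `D \ X` from `D`. -/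
theorem lemX_three (h : Clo σ t S) {m : ℕ} (hrel : ∀ m', m' + 2 ≤ m → RelS σ S m') :
    LemX σ S m 3 := by
  intro C D hD hDm hns he hdl hx
  by_cases hex : ∃ Y₀ ⊆ D, dl σ Y₀ = 2
  · obtain ⟨Y₀, hY₀, hY₀2⟩ := hex
    obtain ⟨X, hXD, h2, hX⟩ := exists_largest he hY₀ hY₀2
    obtain ⟨⟨c, hc⟩, hXm⟩ := cloC_prop hXD h2 hdl
    have hX3 := hx X hXD h2
    obtain ⟨D', a1, a2, a3, a4, _, a6⟩ := cloC_swap h hD hns he hXD h2 hX hc
      (fun m' hm' => hrel m' (by omega))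
    refine ⟨D', a1, by omega, a3, ?_, a4⟩
    intro Y hY
    by_contra hcon
    obtain ⟨Q, _, k, _, _, b2, _, _, b5, b6⟩ := a6 Y hY (by omega)
    have hc2 : 2 ≤ #(σ c) := hns c (hXD hc)
    rcases b6 with ⟨_, b⟩ | ⟨_, b⟩ | ⟨_, _, b⟩ <;> omega
  · refine ⟨D, hD, hDm, Subset.refl _, ?_, hns⟩
    intro A hA
    have h1 := he A hA
    have h2 : dl σ A ≠ 2 := fun h3 => hex ⟨A, hA, h3⟩
    omega

/-- PROOF. Let `X` be the largest critical subset. If `#X ≤ 3` use `lemX_three`. If `#X = 4` take any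
`c ∈ X` and `swap`: `D* = insert c (D \ X) ∪ E`. Let `Y` have excess at least 2 (`crit_bound`):
`#(Y ∩ E) ≤ 2`. If `Y \ E = {c}` then `dl σ Y ≤ 1 + 1 = 2` and `#Y ≤ 3`. Otherwise `dl σ (Y \ E) ≤ -1` by
`q_bound` and `dl σ Y ≤ 1`, a contradiction. So `Eta σ D* 2` and the critical subsets of `D*` have at most 3
elements; `dl σ D* ≤ 1` by the last claim of `swap`. `lemX_three` for `D*`. -/
theorem lemX_four (h : Clo σ t S) {m : ℕ} (hrel : ∀ m', m' + 2 ≤ m → RelS σ S m') :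
    LemX σ S m 4 := by
  intro C D hD hDm hns he hdl hx
  by_cases hex : ∃ Y₀ ⊆ D, dl σ Y₀ = 2
  · obtain ⟨Y₀, hY₀, hY₀2⟩ := hex
    obtain ⟨X, hXD, h2, hX⟩ := exists_largest he hY₀ hY₀2
    obtain ⟨⟨c, hc⟩, hXm⟩ := cloC_prop hXD h2 hdl
    have hX4 := hx X hXD h2
    by_cases hX3 : #X ≤ 3
    · exact lemX_three h hrel C D hD hDm hns he hdl
        (fun Y hY hY2 => le_trans (card_le_card (hX Y hY hY2)) hX3)
    · obtain ⟨D', a1, a2, a3, a4, a5, a6⟩ := cloC_swap h hD hns he hXD h2 hX hc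
        (fun m' hm' => hrel m' (by omega))
      have hc2 : 2 ≤ #(σ c) := hns c (hXD hc)
      have key : ∀ Y ⊆ D', 2 ≤ dl σ Y → dl σ Y ≤ 2 ∧ #Y ≤ 3 := by
        intro Y hY hY2
        obtain ⟨Q, _, k, _, _, b2, b3, b4, b5, b6⟩ := a6 Y hY hY2
        rcases b6 with ⟨b, b'⟩ | ⟨_, b⟩ | ⟨_, _, b⟩
        · have hQ1 : #Q = 1 := by rw [b, card_singleton]
          constructor <;> omega
        · exfalso
          omega
        · exfalso
          omega
      obtain ⟨D'', c1, c2, c3, c4, c5⟩ := lemX_three h hrel C D' a1 (by omega) a4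
        (fun Y hY => by
          by_contra hcon
          have := (key Y hY (by omega)).1
          omega) a5
        (fun Y hY hY2 => (key Y hY (by omega)).2)
      exact ⟨D'', c1, c2, Subset.trans a3 c3, c4, c5⟩
  · refine ⟨D, hD, hDm, Subset.refl _, ?_, hns⟩
    intro A hA
    have h1 := he A hA
    have h2 : dl σ A ≠ 2 := fun h3 => hex ⟨A, hA, h3⟩
    omega

/-- the sets `Q` contained in `{c, ρ}` -/
private theorem cloC_Q {D X Q : Finset (Fin n)} {c : Fin n} (hc : c ∈ X) (hXD : X ⊆ D)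
    (hD6 : #D = 6) (hX5 : #X = 5) (hQ : Q ⊆ insert c (D \ X)) (hne : Q.Nonempty) :
    #Q = 1 ∨ (#Q = 2 ∧ Q = insert c (D \ X) ∧ c ∈ Q ∧ Q ≠ {c}) := by
  have h1 : #(D \ X) = 1 := by
    rw [card_sdiff_of_subset hXD]
    omega
  have h2 : #(insert c (D \ X)) = 2 := by
    rw [card_insert_of_notMem (fun h => (mem_sdiff.1 h).2 hc), h1]
  have h3 : #Q ≤ 2 := h2 ▸ card_le_card hQ
  have h4 : 1 ≤ #Q := card_pos.2 hne
  by_cases h5 : #Q = 1
  · exact Or.inl h5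
  · right
    have h6 : #Q = 2 := by omega
    have h7 : Q = insert c (D \ X) := eq_of_subset_of_card_le hQ (by omega)
    refine ⟨h6, h7, h7 ▸ mem_insert_self _ _, ?_⟩
    intro h8
    rw [h8, card_singleton] at h6
    omega

/-- PROOF. `D \ X = {ρ}`. `swap` with `c`. Let `Y` have excess at least 2: `#(Y ∩ E) ≤ 3`;
`Y \ E ⊆ {c, ρ}`. If `Y \ E` has one element then `dl σ Y ≤ 2` and `#Y ≤ 4`. If `Y \ E = {c, ρ}` then
`dl σ (Y \ E) ≤ 1 - #(σ c) ≤ -2` by `q_bound` and `dl σ Y ≤ 1`, a contradiction. So `D*` has excesses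
at most 2 and its critical subsets have at most 4 elements: `lemX_four`. -/
theorem lemX_five_aux (h : Clo σ t S) (hrel : ∀ m', m' + 2 ≤ 6 → RelS σ S m')
    {C D X : Finset (Fin n)} (hD : In S C D) (hD6 : #D = 6) (hns : NoSing σ D) (he : Eta σ D 2)
    (hXD : X ⊆ D) (hX5 : #X = 5) (h2 : dl σ X = 2)
    (hX : ∀ Y ⊆ D, dl σ Y = 2 → Y ⊆ X) {c : Fin n} (hc : c ∈ X) (hc3 : 3 ≤ #(σ c)) :
    ∃ D', In S C D' ∧ #D' = 6 ∧ car σ D ⊆ car σ D' ∧ Eta σ D' 1 ∧ NoSing σ D' := by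
  obtain ⟨D', a1, a2, a3, a4, a5, a6⟩ := cloC_swap h hD hns he hXD h2 hX hc
    (fun m' hm' => hrel m' (by omega))
  have key : ∀ Y ⊆ D', 2 ≤ dl σ Y → dl σ Y ≤ 2 ∧ #Y ≤ 4 := by
    intro Y hY hY2
    obtain ⟨Q, b0, k, _, b1, b2, b3, b4, b5, b6⟩ := a6 Y hY hY2
    rcases cloC_Q hc hXD hD6 hX5 b0 b1 with hQ | ⟨hQ, _, hcQ, hQc⟩
    · constructor <;> omega
    · exfalso
      rcases b6 with ⟨b, _⟩ | ⟨b, _⟩ | ⟨_, _, b⟩
      · exact hQc b
      · exact b hcQ
      · omega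
  obtain ⟨D'', c1, c2, c3, c4, c5⟩ := lemX_four h hrel C D' a1 (by omega) a4
    (fun Y hY => by
      by_contra hcon
      have := (key Y hY (by omega)).1
      omega) a5
    (fun Y hY hY2 => (key Y hY (by omega)).2)
  exact ⟨D'', c1, c2, Subset.trans a3 c3, c4, c5⟩

/-- PROOF. Let `X` be the largest critical subset; if `#X ≤ 4` use `lemX_four`. So `#X = 5`,
`D \ X = {ρ}`, and `#(σ ρ) ≥ 3` (`rest_card` for `Q = {ρ}`). If some `c ∈ X` has `#(σ c) ≥ 3` use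
`lemX_five_aux`. Otherwise take any `c ∈ X` and `swap`: `D* = insert c (D \ X) ∪ E`. Let `Y` have excess at
least 2: `#(Y ∩ E) ≤ 3`. If `Y \ E` has one element then `dl σ Y ≤ 2` and `#Y ≤ 4`. If `Y \ E = {c, ρ}`
then `dl σ (Y \ E) ≤ 1 - #(σ c) = -1`, `dl σ Y ≤ 2` and `#Y ≤ 5`. So `Eta σ D* 2`. If all the critical subsets
of `D*` have at most 4 elements: `lemX_four` for `D*`. Otherwise the largest critical subset `X'`
of `D*` has 5 elements and contains `ρ`: `lemX_five_aux` for `D*`, `X'` and `c = ρ`. -/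
theorem lemX_five (h : Clo σ t S) (hrel : ∀ m', m' + 2 ≤ 6 → RelS σ S m') : LemX σ S 6 5 := by
  intro C D hD hDm hns he hdl hx
  by_cases hex : ∃ Y₀ ⊆ D, dl σ Y₀ = 2
  · obtain ⟨Y₀, hY₀, hY₀2⟩ := hex
    obtain ⟨X, hXD, h2, hX⟩ := exists_largest he hY₀ hY₀2
    obtain ⟨⟨c, hc⟩, hXm⟩ := cloC_prop hXD h2 hdl
    have hX5' := hx X hXD h2
    by_cases hX4 : #X ≤ 4
    · exact lemX_four h hrel C D hD hDm hns he hdl
        (fun Y hY hY2 => le_trans (card_le_card (hX Y hY hY2)) hX4)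
    · have hX5 : #X = 5 := by omega
      -- the remaining element
      have hDX : #(D \ X) = 1 := by
        rw [card_sdiff_of_subset hXD]
        omega
      obtain ⟨ρ, hρ⟩ := card_eq_one.1 hDX
      have hρ3 : 3 ≤ #(σ ρ) := by
        have h3 := rest_card he hXD h2 hX (Q := {ρ}) (by rw [hρ]) (singleton_nonempty ρ)
        rw [card_singleton] at h3
        have h4 : #(car σ {ρ} \ car σ X) ≤ #(σ ρ) := by
          refine card_le_card ?_
          have h5 : car σ {ρ} = σ ρ := by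
            rw [car, singleton_biUnion]
          rw [h5]
          exact sdiff_subset
        omega
      obtain ⟨D', a1, a2, a3, a4, a5, a6⟩ := cloC_swap h hD hns he hXD h2 hX hc
        (fun m' hm' => hrel m' (by omega))
      have hc2 : 2 ≤ #(σ c) := hns c (hXD hc)
      have key : ∀ Y ⊆ D', 2 ≤ dl σ Y → dl σ Y ≤ 2 ∧ #Y ≤ 5 ∧ (#Y ≤ 4 ∨ ρ ∈ Y) := by
        intro Y hY hY2
        obtain ⟨Q, b0, k, bY, b1, b2, b3, b4, b5, b6⟩ := a6 Y hY hY2
        rcases cloC_Q hc hXD hDm hX5 b0 b1 with hQ | ⟨hQ, hQe, hcQ, hQc⟩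
        · refine ⟨by omega, by omega, Or.inl (by omega)⟩
        · have hb : dl σ Q ≤ 1 - #(σ c) := by
            rcases b6 with ⟨b, _⟩ | ⟨b, _⟩ | ⟨_, _, b⟩
            · exact absurd b hQc
            · exact absurd hcQ b
            · exact b
          refine ⟨by omega, by omega, Or.inr (bY ?_)⟩
          rw [hQe, hρ]
          simp
      have heD' : Eta σ D' 2 := fun Y hY => by
        by_contra hcon
        have := (key Y hY (by omega)).1
        omega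
      by_cases hall : ∀ Y ⊆ D', dl σ Y = 2 → #Y ≤ 4
      · obtain ⟨D'', c1, c2, c3, c4, c5⟩ := lemX_four h hrel C D' a1 (by omega) a4 heD' a5 hall
        exact ⟨D'', c1, c2, Subset.trans a3 c3, c4, c5⟩
      · push Not at hall
        obtain ⟨Y₁, hY₁, hY₁2, hY₁4⟩ := hall
        obtain ⟨X', hX'D, h2', hX'⟩ := exists_largest heD' hY₁ hY₁2
        have hX'5 : 5 ≤ #X' := le_trans hY₁4 (card_le_card (hX' Y₁ hY₁ hY₁2))
        obtain ⟨_, e2, e3⟩ := key X' hX'D (by omega)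
        have hρX' : ρ ∈ X' := by
          rcases e3 with e3 | e3
          · omega
          · exact e3
        obtain ⟨D'', c1, c2, c3, c4, c5⟩ := lemX_five_aux h hrel a1 (by omega) a4 heD' hX'D
          (by omega) h2' hX' hρX' hρ3
        exact ⟨D'', c1, c2, Subset.trans a3 c3, c4, c5⟩
  · refine ⟨D, hD, hDm, Subset.refl _, ?_, hns⟩
    intro A hA
    have h1 := he A hA
    have h2 : dl σ A ≠ 2 := fun h3 => hex ⟨A, hA, h3⟩
    omega

/-- PROOF. A critical subset is not `D`, so it has at most `m - 1` elements: `lemX_four` for `m ≤ 5`,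
`lemX_five` for `m = 6`. -/
theorem lemS (h : Clo σ t S) {m : ℕ} (hm : m ≤ 6) (hrel : ∀ m', m' + 2 ≤ m → RelS σ S m')
    {C D : Finset (Fin n)} (hD : In S C D) (hDm : #D = m) (hns : NoSing σ D)
    (he : Eta σ D 2) (hdl : dl σ D ≤ 1) :
    ∃ D', In S C D' ∧ #D' = m ∧ car σ D ⊆ car σ D' ∧ Eta σ D' 1 ∧ NoSing σ D' := by
  by_cases hm5 : m ≤ 5
  · exact lemX_four h hrel C D hD hDm hns he hdl (fun Y hY hY2 => by
      have := (cloC_prop hY hY2 hdl).2
      omega)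
  · have hm6 : m = 6 := by omega
    subst hm6
    exact lemX_five h hrel C D hD hDm hns he hdl (fun Y hY hY2 => by
      have := (cloC_prop hY hY2 hdl).2
      omega)

end Pool.Agent.Lib.MP_fd6ff4_co.Six
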