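import Mathlib
import Pool.Agent.Lib.MP_fd6ff4_co.Six.CloC

/-!
# The closure property: a matchable member
-/

set_option autoImplicit false

open Finset

namespace Pool.Agent.Lib.MP_fd6ff4_co.Six

open Two

variable {d n : ℕ} {σ : Fin n → Finset (Fin d)} {t : ℕ} {S : Finset (Fin n) → Prop}

/-- PROOF. `D = ∅`, `dl_empty`. -/
theorem rel_zero : RelS σ S 0 := by
  intro C D _ hD hDm
  have hD0 : D = ∅ := Finset.card_eq_zero.1 hDm
  subst hD0
  refine ⟨∅, hD, Finset.card_empty, Finset.Subset.refl _, dl_empty.le, ?_, ?_⟩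
  · intro A hA
    rw [Finset.subset_empty.1 hA, dl_empty]
    norm_num
  · intro v hv
    simp at hv

private theorem dl_le_of_max (h : Clo σ t S) {C D D₁ E : Finset (Fin n)} (hC : C.Nonempty)
    (hmax : ∀ D'', In S C D'' → #D'' = #D → car σ D₁ ⊆ car σ D'' → car σ D'' = car σ D₁)
    (hE : In S C E) (hcard : #E = #D) (hsub : car σ D₁ ⊆ car σ E) : dl σ E ≤ 0 := by
  by_contra hc
  push Not at hc
  obtain ⟨D'', h1, h2, h3⟩ := grow h hC hE (by omega)
  have h4 := hmax D'' h1 (by rw [h2, hcard]) (hsub.trans h3.subset)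
  rw [h4] at h3
  exact h3.not_subset hsub

/-- PROOF. `max_foot` and `grow`: `dl σ D' ≤ 0` for the `D' = {v}` with the largest footprint, that is
`#(σ v) ≥ 2`. -/
theorem rel_one (h : Clo σ t S) : RelS σ S 1 := by
  intro C D hC hD hDm
  obtain ⟨D₁, h1, h2, h3, hmax⟩ := max_foot (σ := σ) hD
  have h4 := dl_le_of_max h hC hmax h1 h2 (Finset.Subset.refl _)
  have h5 : #D₁ = 1 := by rw [h2, hDm]
  obtain ⟨v, rfl⟩ := Finset.card_eq_one.1 h5
  have h6 : 2 ≤ #(σ v) := by
    have h7 : car σ {v} = σ v := by simp [car]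
    unfold dl at h4
    rw [h7, h5] at h4
    push_cast at h4
    omega
  refine ⟨{v}, h1, h5, h3, h4, ?_, ?_⟩
  · intro A hA
    rcases Finset.subset_singleton_iff.1 hA with rfl | rfl
    · rw [dl_empty]
      norm_num
    · omega
  · intro w hw
    rw [Finset.mem_singleton.1 hw]
    exact h6

/-- One more element. PROOF. Take `c ∈ D`. `rel_one` for `{c}` in the context `C ∪ D \ {c}` gives
`{c'}` with `#(σ c') ≥ 2`; then `RelS σ S m` for `D \ {c}` in the context `C ∪ {c'}` gives `E`. Let
`D' = {c'} ∪ E`; `car σ D ⊆ car σ D'`; the excess of a subset `A` of `D'` is at most `1` if `c' ∉ A` and at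
most `2` if `c' ∈ A` (`dl_insert` for `A.erase c'`). -/
theorem add_one (h : Clo σ t S) {m : ℕ} (hrel : RelS σ S m)
    {C D : Finset (Fin n)} (hD : In S C D) (hDm : #D = m + 1) (hne : C.Nonempty ∨ 1 ≤ m) :
    ∃ D', In S C D' ∧ #D' = m + 1 ∧ car σ D ⊆ car σ D' ∧ Eta σ D' 2 ∧ NoSing σ D' := by
  obtain ⟨c, hc⟩ : D.Nonempty := by
    rw [← Finset.card_pos]
    omega
  have hcD : ({c} : Finset (Fin n)) ⊆ D := Finset.singleton_subset_iff.2 hc
  have hcard : #(D \ {c}) = m := by
    rw [Finset.card_sdiff_of_subset hcD, Finset.card_singleton, hDm]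
    rfl
  have hctx : (C ∪ D \ {c}).Nonempty := by
    rcases hne with h1 | h1
    · exact h1.mono Finset.subset_union_left
    · have h2 : (D \ {c}).Nonempty := by
        rw [← Finset.card_pos]
        omega
      exact h2.mono Finset.subset_union_right
  obtain ⟨E1, a1, a2, a3, -, -, a6⟩ := rel_one h (C ∪ D \ {c}) {c} hctx (hD.sub hcD)
    (Finset.card_singleton c)
  obtain ⟨c', rfl⟩ := Finset.card_eq_one.1 a2
  have hc' : c' ∉ C ∪ D \ {c} := Finset.disjoint_singleton_right.1 a1.1
  have hc'C : c' ∉ C := fun h1 => hc' (Finset.mem_union_left _ h1)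
  have hc'D : c' ∉ D \ {c} := fun h1 => hc' (Finset.mem_union_right _ h1)
  have hin : In S (insert c' C) (D \ {c}) := by
    refine ⟨?_, ?_⟩
    · rw [Finset.disjoint_insert_left]
      exact ⟨hc'D, hD.1.mono_right Finset.sdiff_subset⟩
    · have h1 : insert c' C ∪ D \ {c} = C ∪ D \ {c} ∪ {c'} := by
        ext x
        simp only [Finset.mem_union, Finset.mem_insert, Finset.mem_singleton]
        tauto
      rw [h1]
      exact a1.2
  obtain ⟨E, b1, b2, b3, b4, b5, b6⟩ := hrel (insert c' C) (D \ {c})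
    (Finset.insert_nonempty _ _) hin hcard
  have hdis := b1.1
  rw [Finset.disjoint_insert_left] at hdis
  obtain ⟨hc'E, hCE⟩ := hdis
  have hD' : In S C (insert c' E) := by
    refine ⟨?_, ?_⟩
    · rw [Finset.disjoint_insert_right]
      exact ⟨hc'C, hCE⟩
    · have h1 : C ∪ insert c' E = insert c' C ∪ E := by
        ext x
        simp only [Finset.mem_union, Finset.mem_insert]
        tauto
      rw [h1]
      exact b1.2
  refine ⟨insert c' E, hD', ?_, ?_, ?_, ?_⟩
  · rw [Finset.card_insert_of_notMem hc'E, b2]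
  · have h1 : D = insert c (D \ {c}) := by
      rw [Finset.sdiff_singleton_eq_erase, Finset.insert_erase hc]
    have h2 : car σ D = σ c ∪ car σ (D \ {c}) := by
      conv_lhs => rw [h1]
      exact car_insert _ _
    rw [h2, car_insert]
    have h3 : ∀ v : Fin n, car σ {v} = σ v := fun v => by simp [car]
    rw [h3, h3] at a3
    exact Finset.union_subset_union a3 b3
  · intro A hA
    by_cases hcA : c' ∈ A
    · have h1 : A = insert c' (A.erase c') := (Finset.insert_erase hcA).symm
      have h2 : A.erase c' ⊆ E := by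
        intro x hx
        obtain ⟨h3, h4⟩ := Finset.mem_erase.1 hx
        exact (Finset.mem_insert.1 (hA h4)).resolve_left h3
      have h3 := b5 _ h2
      have h4 := dl_insert h hD' (A := A.erase c') (v := c')
        (by rw [← h1]; exact hA.trans Finset.subset_union_right) (Finset.notMem_erase _ _)
      rw [← h1] at h4
      omega
    · have h2 : A ⊆ E := by
        intro x hx
        rcases Finset.mem_insert.1 (hA hx) with h3 | h3
        · exact absurd (h3 ▸ hx) hcA
        · exact h3
      have h3 := b5 _ h2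
      omega
  · intro v hv
    rcases Finset.mem_insert.1 hv with rfl | h3
    · exact a6 _ (Finset.mem_singleton_self _)
    · exact b6 _ h3

/-- PROOF. Strong induction on `m`; `rel_zero`, `rel_one`. Let `m ≥ 2`. `max_foot` gives `D₁`. `add_one`
gives `D₂` with `car σ D₁ ⊆ car σ D₂`; `dl σ D₂ ≤ 0`, otherwise `grow` would contradict the maximality of
the footprint of `D₁`. `lemS` gives `D₃` with `Eta σ D₃ 1`; again `dl σ D₃ ≤ 0` by `grow` and the
maximality. -/
theorem rel_five (h : Clo σ t S) {m : ℕ} (hm : m ≤ 5) : RelS σ S m := by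
  induction m using Nat.strong_induction_on with
  | _ m ih =>
    rcases Nat.lt_or_ge m 2 with hm2 | hm2
    · interval_cases m
      · exact rel_zero
      · exact rel_one h
    · intro C D hC hD hDm
      obtain ⟨D₁, h1, h2, h3, hmax⟩ := max_foot (σ := σ) hD
      obtain ⟨m', rfl⟩ : ∃ m', m = m' + 1 := ⟨m - 1, by omega⟩
      obtain ⟨D₂, a1, a2, a3, a4, a5⟩ := add_one h (ih m' (by omega) (by omega)) h1
        (by rw [h2, hDm]) (Or.inl hC)
      have a6 := dl_le_of_max h hC hmax a1 (by rw [a2, hDm]) a3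
      obtain ⟨D₃, b1, b2, b3, b4, b5⟩ := lemS h (m := m' + 1) (by omega)
        (fun k hk => ih k (by omega) (by omega)) a1 a2 a5 a4 (by omega)
      have b6 := dl_le_of_max h hC hmax b1 (by rw [b2, hDm]) (a3.trans b3)
      exact ⟨D₃, b1, b2, (h3.trans a3).trans b3, b6, b4, b5⟩

/-- The case `2 * t - d = 1`, `t ≤ 6`. PROOF. If `t = 1` then `d = 1` and `Eta σ N 1` as
`dl σ N = 2 * 1 - 1`. If `t ≥ 2`: `add_one` for `C = ∅`, `D = N`, `m = t - 1` (`rel_five`), then `lemS` with
`m = t` (`dl σ D' = 2 * t - d = 1` by `cover`). `matchable_of_eta`. -/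
theorem clo_one (h : Clo σ t S) (hd : d + 1 = 2 * t) (ht : t ≤ 6) {N : Finset (Fin n)}
    (hN : S N) : ∃ N', S N' ∧ Matchable σ N' := by
  have hdl : ∀ D, S D → dl σ D = 1 := by
    intro D hD
    unfold dl
    rw [h.card D hD, h.cover D hD, Finset.card_univ, Fintype.card_fin]
    omega
  have ht0 : 1 ≤ t := by omega
  rcases Nat.lt_or_ge t 2 with ht2 | ht2
  · have ht1 : t = 1 := by omega
    refine ⟨N, hN, matchable_of_eta h hd hN ?_⟩
    intro A hA
    have h1 : #N = 1 := by rw [h.card N hN, ht1]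
    obtain ⟨v, hv⟩ := Finset.card_eq_one.1 h1
    rw [hv] at hA
    rcases Finset.subset_singleton_iff.1 hA with rfl | rfl
    · rw [dl_empty]
      norm_num
    · rw [← hv]
      exact (hdl N hN).le
  · obtain ⟨m, rfl⟩ : ∃ m, t = m + 1 := ⟨t - 1, by omega⟩
    have hIn : In S ∅ N := ⟨Finset.disjoint_empty_left _, by rwa [Finset.empty_union]⟩
    obtain ⟨D', a1, a2, a3, a4, a5⟩ := add_one h (rel_five h (m := m) (by omega)) hIn
      (h.card N hN) (Or.inr (by omega))
    have a6 : S D' := by
      have := a1.2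
      rwa [Finset.empty_union] at this
    obtain ⟨D'', b1, b2, b3, b4, b5⟩ := lemS h (m := m + 1) ht
      (fun k hk => rel_five h (by omega)) a1 a2 a5 a4 (hdl D' a6).le
    have b6 : S D'' := by
      have := b1.2
      rwa [Finset.empty_union] at this
    exact ⟨D'', b6, matchable_of_eta h hd b6 b4⟩

end Pool.Agent.Lib.MP_fd6ff4_co.Six
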