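import Mathlib
import Pool.Agent.Lib.MP_fd6ff4_co.Six.ChainInt
import Pool.Agent.Lib.MP_fd6ff4_co.Two.Exact

/-!
# The complex of the chain modules of the interior faces is exact below the top dimension

`bdy a (intr σ Γ) j : Ch a (intr σ Γ) (j + 1) → Ch a (intr σ Γ) j`. This is `Two/Exact` with
`intr σ Γ` in place of `Γ` (and `chain_int` in place of `chain_low`); copy and adapt that file.
-/

set_option autoImplicit false

open Finset

namespace Pool.Agent.Lib.MP_fd6ff4_co.Six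

open Two

universe u

variable {d n : ℕ} {K : Type u} [Field K] {a : Fin d → Fin n → K}
  {Γ : Finset (Finset (Fin n))} {σ : Fin n → Finset (Fin d)}

theorem mem_intr {F : Finset (Fin n)} : F ∈ intr σ Γ ↔ F ∈ Γ ∧ car σ F = univ := by
  rw [intr, mem_filter]

private theorem ei_up {F G : Finset (Fin n)} (hF : F ∈ intr σ Γ) (hFG : F ⊆ G) (hG : G ∈ Γ) :
    G ∈ intr σ Γ := by
  refine mem_intr.2 ⟨hG, Finset.eq_univ_iff_forall.2 fun i => ?_⟩
  have h1 : i ∈ car σ F := (mem_intr.1 hF).2 ▸ Finset.mem_univ i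
  rw [car, Finset.mem_biUnion] at h1 ⊢
  obtain ⟨v, hv, hi⟩ := h1
  exact ⟨v, hFG hv, hi⟩

private theorem ei_restrict (q : MvPolynomial (Fin n) K) (G : Finset (Fin n)) :
    ∃ q' : MvPolynomial (Fin n) K, ∀ M, MvPolynomial.coeff M q' =
      if M.support ⊆ G then MvPolynomial.coeff M q else 0 := by
  classical
  refine ⟨∑ M ∈ q.support.filter (fun M => M.support ⊆ G),
    MvPolynomial.monomial M (MvPolynomial.coeff M q), fun N => ?_⟩
  rw [MvPolynomial.coeff_sum]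
  simp only [MvPolynomial.coeff_monomial]
  rw [Finset.sum_ite_eq']
  by_cases hN : N.support ⊆ G
  · rw [if_pos hN]
    by_cases h0 : MvPolynomial.coeff N q = 0
    · rw [h0, ite_self]
    · rw [if_pos (Finset.mem_filter.2 ⟨MvPolynomial.mem_support_iff.2 h0, hN⟩)]
  · have h1 : N ∉ q.support.filter (fun M => M.support ⊆ G) := fun h =>
      hN (Finset.mem_filter.1 h).2
    rw [if_neg hN, if_neg h1]

private theorem ei_poly [CharP K 2] (hdet : ∀ F ∈ Γ, #F = d → pdet a F ≠ 0)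
    {Φ : Finset (Fin n) → Finset (Fin n)} (hΦ : ∀ G ∈ Γ, Φ G ∈ Γ ∧ #(Φ G) = d ∧ G ⊆ Φ G)
    {j : ℕ} (c : Ch a (intr σ Γ) j) : ∃ p : Fac (intr σ Γ) j → MvPolynomial (Fin n) K,
      (∀ G M, MvPolynomial.coeff M (p G) ≠ 0 → M.support ⊆ G.1) ∧
      c = fun G => Ideal.Quotient.mk _ (bet a (Φ G.1) (p G)) := by
  have key : ∀ G : Fac (intr σ Γ) j, ∃ q : MvPolynomial (Fin n) K,
      (∀ M, MvPolynomial.coeff M q ≠ 0 → M.support ⊆ G.1) ∧
        c G = Ideal.Quotient.mk _ (bet a (Φ G.1) q) := by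
    intro G
    obtain ⟨hF, hFd, hGF⟩ := hΦ G.1 (mem_intr.1 G.2.1).1
    obtain ⟨s, hs⟩ := Ideal.Quotient.mk_surjective (c G)
    obtain ⟨q, hq, -⟩ := exists_bet_eq hFd (hdet _ hF hFd) s
    obtain ⟨q', hq'⟩ := ei_restrict q G.1
    refine ⟨q', fun M hM => ?_, ?_⟩
    · by_contra hMG
      rw [hq', if_neg hMG] at hM
      exact hM rfl
    · rw [← hs, ← hq, Ideal.Quotient.eq, ← map_sub, bet_mem_Jd hFd (hdet _ hF hFd) hGF]
      intro M hM
      rw [MvPolynomial.coeff_sub, hq', if_pos hM, sub_self]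
  choose q hq hq' using key
  exact ⟨q, hq, funext hq'⟩

private theorem ei_iff [CharP K 2] (hdet : ∀ F ∈ Γ, #F = d → pdet a F ≠ 0)
    {Φ : Finset (Fin n) → Finset (Fin n)} (hΦ : ∀ G ∈ Γ, Φ G ∈ Γ ∧ #(Φ G) = d ∧ G ⊆ Φ G)
    {j : ℕ} (p : Fac (intr σ Γ) (j + 1) → MvPolynomial (Fin n) K)
    (q : Fac (intr σ Γ) j → MvPolynomial (Fin n) K) :
    (bdy a (intr σ Γ) j (fun G => Ideal.Quotient.mk _ (bet a (Φ G.1) (p G))) =
      fun R => Ideal.Quotient.mk _ (bet a (Φ R.1) (q R))) ↔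
    ∀ (R : Fac (intr σ Γ) j) (M : Fin n →₀ ℕ), M.support ⊆ R.1 →
      ∑ G ∈ univ.filter (fun G : Fac (intr σ Γ) (j + 1) => R.1 ⊆ G.1),
        MvPolynomial.coeff M (p G) = MvPolynomial.coeff M (q R) := by
  rw [funext_iff]
  refine forall_congr' fun R => ?_
  obtain ⟨hF, hFd, hRF⟩ := hΦ R.1 (mem_intr.1 R.2.1).1
  rw [bdy_mk]
  have h1 : Ideal.Quotient.mk (Jd a R.1)
      (∑ G ∈ univ.filter (fun G : Fac (intr σ Γ) (j + 1) => R.1 ⊆ G.1), bet a (Φ G.1) (p G)) =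
      Ideal.Quotient.mk (Jd a R.1) (bet a (Φ R.1)
        (∑ G ∈ univ.filter (fun G : Fac (intr σ Γ) (j + 1) => R.1 ⊆ G.1), p G)) := by
    rw [Ideal.Quotient.eq, map_sum, ← Finset.sum_sub_distrib]
    refine Ideal.sum_mem _ fun G hG => ?_
    obtain ⟨hG1, hG2, hG3⟩ := hΦ G.1 (mem_intr.1 G.2.1).1
    exact bet_sub_mem hG2 (hdet _ hG1 hG2) hFd (hdet _ hF hFd)
      ((Finset.mem_filter.1 hG).2.trans hG3) hRF (p G)
  rw [h1, Ideal.Quotient.eq, ← map_sub, bet_mem_Jd hFd (hdet _ hF hFd) hRF]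
  refine forall_congr' fun M => forall_congr' fun _ => ?_
  rw [MvPolynomial.coeff_sub, MvPolynomial.coeff_sum, sub_eq_zero]

private theorem ei_two (h : Ball Γ σ) {j : ℕ} (R : Fac (intr σ Γ) j) (H : Fac (intr σ Γ) (j + 2))
    (hRH : R.1 ⊆ H.1) :
    #(univ.filter (fun G : Fac (intr σ Γ) (j + 1) => R.1 ⊆ G.1 ∧ G.1 ⊆ H.1)) = 2 := by
  classical
  have h2 : #(H.1 \ R.1) = 2 := by
    rw [Finset.card_sdiff_of_subset hRH, H.2.2, R.2.2]
    omega
  refine Eq.trans (Eq.symm ?_) h2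
  refine Finset.card_bij (fun x hx => ⟨insert x R.1, ei_up R.2.1 (Finset.subset_insert x R.1)
      (h.down H.1 (mem_intr.1 H.2.1).1 _
        (Finset.insert_subset (Finset.mem_sdiff.1 hx).1 hRH)), by
        rw [Finset.card_insert_of_notMem (Finset.mem_sdiff.1 hx).2, R.2.2]⟩) ?_ ?_ ?_
  · intro x hx
    exact Finset.mem_filter.2 ⟨Finset.mem_univ _, Finset.subset_insert x R.1,
      Finset.insert_subset (Finset.mem_sdiff.1 hx).1 hRH⟩
  · intro x hx y hy hxy
    have h3 : insert x R.1 = insert y R.1 := congrArg Subtype.val hxy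
    have h4 : x ∈ insert y R.1 := h3 ▸ Finset.mem_insert_self x R.1
    rcases Finset.mem_insert.1 h4 with h5 | h5
    · exact h5
    · exact absurd h5 (Finset.mem_sdiff.1 hx).2
  · intro G hG
    obtain ⟨-, hRG, hGH⟩ := Finset.mem_filter.1 hG
    obtain ⟨x, hx, hxG⟩ := Finset.exists_eq_insert_iff.2 ⟨hRG, by rw [R.2.2, G.2.2]⟩
    refine ⟨x, Finset.mem_sdiff.2 ⟨hGH (hxG ▸ Finset.mem_insert_self x R.1), hx⟩, ?_⟩
    exact Subtype.ext hxG

private theorem ei_char [CharP K 2] (s : MvPolynomial (Fin d) K) : s + s = 0 := by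
  have h2 : (2 : K) = 0 := by exact_mod_cast CharP.cast_eq_zero K 2
  have h3 : (2 : MvPolynomial (Fin d) K) = 0 := by
    have : (2 : MvPolynomial (Fin d) K) = MvPolynomial.C (2 : K) := (map_ofNat _ 2).symm
    rw [this, h2, map_zero]
  rw [← two_mul, h3, zero_mul]

/-- PROOF. As `bdy_bdy`: the faces between two interior faces are interior faces. -/
theorem bdy_bdy_int [CharP K 2] (h : Ball Γ σ) {j : ℕ} (c : Ch a (intr σ Γ) (j + 2)) :
    bdy a (intr σ Γ) j (bdy a (intr σ Γ) (j + 1) c) = 0 := by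
  classical
  have hs : ∀ G : Fac (intr σ Γ) (j + 2), ∃ s, Ideal.Quotient.mk (Jd a G.1) s = c G := fun G =>
    Ideal.Quotient.mk_surjective (c G)
  choose s hs using hs
  have hc : c = fun G => Ideal.Quotient.mk _ (s G) := funext fun G => (hs G).symm
  rw [hc]
  have h1 : bdy a (intr σ Γ) (j + 1) (fun G => Ideal.Quotient.mk _ (s G)) = fun G =>
      Ideal.Quotient.mk _
        (∑ H ∈ univ.filter (fun H : Fac (intr σ Γ) (j + 2) => G.1 ⊆ H.1), s H) :=
    funext fun G => bdy_mk s G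
  rw [h1]
  funext R
  rw [bdy_mk]
  have h2 : ∑ G ∈ univ.filter (fun G : Fac (intr σ Γ) (j + 1) => R.1 ⊆ G.1),
      ∑ H ∈ univ.filter (fun H : Fac (intr σ Γ) (j + 2) => G.1 ⊆ H.1), s H = 0 := by
    simp only [Finset.sum_filter]
    have h3 : ∀ G : Fac (intr σ Γ) (j + 1), (if R.1 ⊆ G.1 then
        ∑ H : Fac (intr σ Γ) (j + 2), (if G.1 ⊆ H.1 then s H else 0) else 0) =
        ∑ H : Fac (intr σ Γ) (j + 2), (if R.1 ⊆ G.1 ∧ G.1 ⊆ H.1 then s H else 0) := by
      intro G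
      by_cases hG : R.1 ⊆ G.1
      · rw [if_pos hG]
        refine Finset.sum_congr rfl fun H _ => ?_
        by_cases hH : G.1 ⊆ H.1
        · rw [if_pos hH, if_pos ⟨hG, hH⟩]
        · rw [if_neg hH, if_neg fun h => hH h.2]
      · rw [if_neg hG]
        symm
        exact Finset.sum_eq_zero fun H _ => if_neg fun h => hG h.1
    rw [Finset.sum_congr rfl fun G _ => h3 G, Finset.sum_comm]
    refine Finset.sum_eq_zero fun H _ => ?_
    rw [← Finset.sum_filter, Finset.sum_const]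
    by_cases hRH : R.1 ⊆ H.1
    · rw [ei_two h R H hRH, two_smul, ei_char]
    · have : univ.filter (fun G : Fac (intr σ Γ) (j + 1) => R.1 ⊆ G.1 ∧ G.1 ⊆ H.1) = ∅ := by
        refine Finset.filter_eq_empty_iff.2 fun G _ hG => hRH (hG.1.trans hG.2)
      rw [this, Finset.card_empty, zero_smul]
  rw [h2, map_zero]
  rfl

private theorem ei_sum {Δ : Finset (Finset (Fin n))} {j : ℕ} (R : Finset (Fin n))
    (f : Finset (Fin n) → K) (hf : ∀ G, f G ≠ 0 → #G = j) :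
    ∑ G ∈ univ.filter (fun G : Fac Δ j => R ⊆ G.1), f G.1 =
      ∑ G ∈ Δ.filter (fun G => R ⊆ G), f G := by
  classical
  refine Eq.trans (Finset.sum_map (univ.filter (fun G : Fac Δ j => R ⊆ G.1))
    ⟨Subtype.val, Subtype.val_injective⟩ f).symm ?_
  refine Finset.sum_subset ?_ ?_
  · intro G hG
    obtain ⟨G', hG', rfl⟩ := Finset.mem_map.1 hG
    exact Finset.mem_filter.2 ⟨G'.2.1, (Finset.mem_filter.1 hG').2⟩
  · intro G hG hG'
    by_contra h0
    apply hG'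
    obtain ⟨h1, h2⟩ := Finset.mem_filter.1 hG
    exact Finset.mem_map.2 ⟨⟨G, h1, hf G h0⟩, Finset.mem_filter.2 ⟨Finset.mem_univ _, h2⟩, rfl⟩

/-- the combinatorial part of the exactness -/
private theorem ei_aux [CharP K 2] (h : Ball Γ σ) {j : ℕ} (hj : j < d)
    (p : Fac (intr σ Γ) j → MvPolynomial (Fin n) K)
    (hcyc : ∀ R ∈ intr σ Γ, #R + 1 = j → ∀ M : Fin n →₀ ℕ, M.support ⊆ R →
      ∑ G ∈ univ.filter (fun G : Fac (intr σ Γ) j => R ⊆ G.1), MvPolynomial.coeff M (p G) = 0) :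
    ∃ p' : Fac (intr σ Γ) (j + 1) → MvPolynomial (Fin n) K,
      ∀ (G : Fac (intr σ Γ) j) (M : Fin n →₀ ℕ), M.support ⊆ G.1 →
        ∑ G' ∈ univ.filter (fun G' : Fac (intr σ Γ) (j + 1) => G.1 ⊆ G'.1),
          MvPolynomial.coeff M (p' G') = MvPolynomial.coeff M (p G) := by
  classical
  have key : ∀ M : Fin n →₀ ℕ, M.support ∈ Γ → ∃ b : Finset (Fin n) → K,
      (∀ G, b G ≠ 0 → #G = j + 1) ∧
        ∀ G : Fac (intr σ Γ) j, M.support ⊆ G.1 →
          ∑ G' ∈ (intr σ Γ).filter (fun G' => G.1 ⊆ G'), b G' = MvPolynomial.coeff M (p G) := by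
    intro M hM
    set c : Finset (Fin n) → K := fun G => if hG : G ∈ intr σ Γ ∧ #G = j then
      (if M.support ⊆ G then MvPolynomial.coeff M (p ⟨G, hG⟩) else 0) else 0 with hcdef
    have hc1 : ∀ G, c G ≠ 0 → G ∈ intr σ Γ ∧ #G = j ∧ M.support ⊆ G := by
      intro G hG
      by_cases h1 : G ∈ intr σ Γ ∧ #G = j
      · by_cases h2 : M.support ⊆ G
        · exact ⟨h1.1, h1.2, h2⟩
        · exact absurd (by rw [hcdef]; simp only [dif_pos h1, if_neg h2]) hG
      · exact absurd (by rw [hcdef]; simp only [dif_neg h1]) hG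
    have hc2 : ∀ G : Fac (intr σ Γ) j, M.support ⊆ G.1 →
        c G.1 = MvPolynomial.coeff M (p G) := by
      intro G hG
      rw [hcdef]
      simp only [dif_pos G.2, if_pos hG]
    obtain ⟨b, hb1, hb2⟩ := chain_int h hM hj c hc1 (by
      intro R hR hMR hRj
      rw [← ei_sum (Δ := intr σ Γ) (j := j) R c fun G hG => (hc1 G hG).2.1]
      rw [← hcyc R hR hRj M hMR]
      refine Finset.sum_congr rfl fun G hG => ?_
      exact hc2 G (hMR.trans (Finset.mem_filter.1 hG).2))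
    refine ⟨b, fun G hG => (hb1 G hG).2.1, fun G hG => ?_⟩
    rw [hb2 G.1 G.2.1 G.2.2 hG, hc2 G hG]
  choose! b hb1 hb2 using key
  set T : Finset (Fin n →₀ ℕ) :=
    (univ.biUnion fun G : Fac (intr σ Γ) j => (p G).support).filter
      (fun M => M.support ∈ Γ) with hT
  refine ⟨fun G' => ∑ M ∈ T, MvPolynomial.monomial M (b M G'.1), fun G M hM => ?_⟩
  have hMΓ : M.support ∈ Γ := h.down G.1 (mem_intr.1 G.2.1).1 _ hM
  have hco : ∀ G' : Fac (intr σ Γ) (j + 1), MvPolynomial.coeff M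
      (∑ N ∈ T, MvPolynomial.monomial N (b N G'.1)) = if M ∈ T then b M G'.1 else 0 := by
    intro G'
    rw [MvPolynomial.coeff_sum]
    simp only [MvPolynomial.coeff_monomial]
    rw [Finset.sum_ite_eq']
  simp only [hco]
  by_cases hMT : M ∈ T
  · simp only [if_pos hMT]
    rw [ei_sum (Δ := intr σ Γ) (j := j + 1) G.1 (b M) (hb1 M hMΓ)]
    exact hb2 M hMΓ G hM
  · simp only [if_neg hMT, Finset.sum_const_zero]
    by_contra h0
    apply hMT
    rw [hT, Finset.mem_filter, Finset.mem_biUnion]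
    exact ⟨⟨G, Finset.mem_univ _, MvPolynomial.mem_support_iff.2 fun h1 => h0 h1.symm⟩, hMΓ⟩

private theorem ei_facets (h : Ball Γ σ) : ∃ Φ : Finset (Fin n) → Finset (Fin n),
    ∀ G ∈ Γ, Φ G ∈ Γ ∧ #(Φ G) = d ∧ G ⊆ Φ G := by
  have := fun G (hG : G ∈ Γ) => exists_facet h hG
  choose! Φ hΦ using this
  exact ⟨Φ, hΦ⟩

/-- PROOF. As `bdy_surjective` with `chain_int` for `j = 0`; or: for `0 < d` there is no interior face
with `0` vertices (`car σ ∅ = ∅ ≠ univ`), so the target is trivial. -/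
theorem bdy_int_surjective [CharP K 2] (h : Ball Γ σ)
    (hdet : ∀ F ∈ Γ, #F = d → pdet a F ≠ 0) (hd : 0 < d) :
    Function.Surjective (bdy a (intr σ Γ) 0) := by
  obtain ⟨Φ, hΦ⟩ := ei_facets h
  intro c
  obtain ⟨p, -, rfl⟩ := ei_poly hdet hΦ c
  obtain ⟨p', hp'⟩ := ei_aux h hd p (fun R _ hR => absurd hR (by omega))
  exact ⟨_, (ei_iff hdet hΦ p' p).2 hp'⟩

/-- PROOF. As `exact_succ` in `Two/Exact` with `chain_int`. The facet `Φ G ⊇ G` is interior
(`car_facet`). The monomials `M` which occur have `M.support ∈ Γ` (not necessarily interior), and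
`chain_int` is applied with `G₀ = M.support`. The lemmas `exists_poly` and `bdy_eq_iff` of
`Two/Exact` do not use that the family is closed under subsets; prove them again for
`intr σ Γ`. -/
theorem exact_int [CharP K 2] (h : Ball Γ σ) (hdet : ∀ F ∈ Γ, #F = d → pdet a F ≠ 0) {j : ℕ}
    (hj : j + 1 < d) (c : Ch a (intr σ Γ) (j + 1)) (hc : bdy a (intr σ Γ) j c = 0) :
    ∃ b : Ch a (intr σ Γ) (j + 2), bdy a (intr σ Γ) (j + 1) b = c := by
  obtain ⟨Φ, hΦ⟩ := ei_facets h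
  obtain ⟨p, -, rfl⟩ := ei_poly hdet hΦ c
  have h0 : (fun R : Fac (intr σ Γ) j => Ideal.Quotient.mk (Jd a R.1) (bet a (Φ R.1) 0)) = 0 := by
    funext R
    rw [map_zero, map_zero]
    rfl
  have h1 := (ei_iff hdet hΦ p (fun _ => 0)).1 (hc.trans h0.symm)
  obtain ⟨p', hp'⟩ := ei_aux h hj p (fun R hR hRj M hM => by
    have := h1 ⟨R, hR, by omega⟩ M hM
    rw [MvPolynomial.coeff_zero] at this
    exact this)
  exact ⟨_, (ei_iff hdet hΦ p' p).2 hp'⟩

end Pool.Agent.Lib.MP_fd6ff4_co.Six
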