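import Mathlib
import Pool.Agent.Lib.MP_fd6ff4_co.Six.Defs
import Pool.Agent.Lib.MP_fd6ff4_co.Two.Mono

/-!
# The monomial ideals `JJ` and `SRU`
-/

set_option autoImplicit false

open Finset

namespace Pool.Agent.Lib.MP_fd6ff4_co.Six

open Two

universe u

variable {d n : ℕ} {K : Type u} [Field K] {a : Fin d → Fin n → K}
  {Γ : Finset (Finset (Fin n))} {σ : Fin n → Finset (Fin d)}

private theorem car_mono {F G : Finset (Fin n)} (h : F ⊆ G) : car σ F ⊆ car σ G :=
  Finset.biUnion_subset_biUnion_of_subset_left _ h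

private theorem mon_eq (F : Finset (Fin n)) :
    mon K F = MvPolynomial.monomial (∑ v ∈ F, Finsupp.single v 1) (1 : K) := by
  rw [mon, MvPolynomial.monomial_sum_one]
  rfl

private theorem sum_single_le {F : Finset (Fin n)} {M : Fin n →₀ ℕ} :
    (∑ v ∈ F, Finsupp.single v 1) ≤ M ↔ F ⊆ M.support := by
  have h1 : ∀ v, (∑ w ∈ F, Finsupp.single w 1 : Fin n →₀ ℕ) v = if v ∈ F then 1 else 0 := by
    intro v
    rw [Finsupp.finsetSum_apply]
    simp [Finsupp.single_apply]
  constructor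
  · intro h v hv
    have h2 := h v
    rw [h1, if_pos hv] at h2
    rw [Finsupp.mem_support_iff]
    omega
  · intro h v
    rw [h1]
    split_ifs with hv
    · have h2 := Finsupp.mem_support_iff.1 (h hv)
      omega
    · exact Nat.zero_le _

private theorem mem_mon {P : Finset (Fin n) → Prop} (p : MvPolynomial (Fin n) K) :
    p ∈ Ideal.span {f | ∃ F : Finset (Fin n), P F ∧ f = mon K F} ↔
      ∀ M : Fin n →₀ ℕ, MvPolynomial.coeff M p ≠ 0 → ∃ F, P F ∧ F ⊆ M.support := by
  have h1 : {f | ∃ F : Finset (Fin n), P F ∧ f = mon K F} =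
      (fun s => MvPolynomial.monomial s (1 : K)) ''
        {s | ∃ F : Finset (Fin n), P F ∧ s = ∑ v ∈ F, Finsupp.single v 1} := by
    ext f
    constructor
    · rintro ⟨F, hF, rfl⟩
      exact ⟨_, ⟨F, hF, rfl⟩, (mon_eq F).symm⟩
    · rintro ⟨s, ⟨F, hF, rfl⟩, rfl⟩
      exact ⟨F, hF, (mon_eq F).symm⟩
  rw [h1, MvPolynomial.mem_ideal_span_monomial_image]
  constructor
  · intro h M hM
    obtain ⟨s, ⟨F, hF, rfl⟩, hs⟩ := h M (MvPolynomial.mem_support_iff.2 hM)
    exact ⟨F, hF, sum_single_le.1 hs⟩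
  · intro h M hM
    obtain ⟨F, hF, hs⟩ := h M (MvPolynomial.mem_support_iff.1 hM)
    exact ⟨_, ⟨F, hF, rfl⟩, sum_single_le.2 hs⟩

/-- PROOF. As `mem_srIdeal` in `Two/Mono` (`MvPolynomial.mem_ideal_span_monomial_image` with
`mon K F = monomial (∑ v ∈ F, single v 1) 1`): the set of the `F` is closed under supersets (`hdown`,
`car` is monotone), so the condition for `M` is that `F = M.support` is in it. -/
theorem mem_JJ (hdown : ∀ F ∈ Γ, ∀ G, G ⊆ F → G ∈ Γ) {W U : Finset (Fin d)}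
    (p : MvPolynomial (Fin n) K) :
    p ∈ JJ K σ Γ W U ↔ ∀ M : Fin n →₀ ℕ, M.support ∈ Γ → car σ M.support ⊆ U →
      ¬ W ⊆ car σ M.support → MvPolynomial.coeff M p = 0 := by
  rw [JJ, mem_mon]
  constructor
  · intro h M h1 h2 h3
    by_contra hc
    obtain ⟨F, hF, hs⟩ := h M hc
    rcases hF with hF | hF | hF
    · exact hF (hdown _ h1 F hs)
    · exact hF ((car_mono hs).trans h2)
    · exact h3 (hF.trans (car_mono hs))
  · intro h M hM
    refine ⟨M.support, ?_, subset_rfl⟩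
    by_contra hc
    push Not at hc
    exact hM (h M hc.1 hc.2.1 hc.2.2)

theorem mem_SRU (hdown : ∀ F ∈ Γ, ∀ G, G ⊆ F → G ∈ Γ) {U : Finset (Fin d)}
    (p : MvPolynomial (Fin n) K) :
    p ∈ SRU K σ Γ U ↔ ∀ M : Fin n →₀ ℕ, M.support ∈ Γ → car σ M.support ⊆ U →
      MvPolynomial.coeff M p = 0 := by
  rw [SRU, mem_mon]
  constructor
  · intro h M h1 h2
    by_contra hc
    obtain ⟨F, hF, hs⟩ := h M hc
    rcases hF with hF | hF
    · exact hF (hdown _ h1 F hs)
    · exact hF ((car_mono hs).trans h2)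
  · intro h M hM
    refine ⟨M.support, ?_, subset_rfl⟩
    by_contra hc
    push Not at hc
    exact hM (h M hc.1 hc.2)

theorem SRU_univ : SRU K σ Γ univ = srIdeal K Γ := by
  simp [SRU, srIdeal]

theorem SRU_le_JJ {W U : Finset (Fin d)} : SRU K σ Γ U ≤ JJ K σ Γ W U := by
  apply Ideal.span_mono
  rintro f ⟨F, hF, rfl⟩
  exact ⟨F, by tauto, rfl⟩

theorem JJ_empty {U : Finset (Fin d)} (p : MvPolynomial (Fin n) K) : p ∈ JJ K σ Γ ∅ U := by
  have h : (1 : MvPolynomial (Fin n) K) ∈ JJ K σ Γ ∅ U :=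
    Ideal.subset_span ⟨∅, Or.inr (Or.inr (Finset.empty_subset _)), by simp [mon]⟩
  rw [(Ideal.eq_top_iff_one _).2 h]
  exact Submodule.mem_top

theorem JJ_mono {W W' U : Finset (Fin d)} (h : W' ⊆ W) : JJ K σ Γ W U ≤ JJ K σ Γ W' U := by
  apply Ideal.span_mono
  rintro f ⟨F, hF, rfl⟩
  refine ⟨F, ?_, rfl⟩
  rcases hF with hF | hF | hF
  · exact Or.inl hF
  · exact Or.inr (Or.inl hF)
  · exact Or.inr (Or.inr (h.trans hF))

/-- PROOF. `mem_interiorIdeal` and `mem_JJ`: an `M` with a coefficient `≠ 0`, `M.support ∈ Γ`, contains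
an interior face. -/
theorem interior_le_JJ (hdown : ∀ F ∈ Γ, ∀ G, G ⊆ F → G ∈ Γ) :
    interiorIdeal K σ Γ ≤ JJ K σ Γ univ univ := by
  apply Ideal.span_mono
  rintro f ⟨F, _, hF, rfl⟩
  exact ⟨F, Or.inr (Or.inr hF.ge), rfl⟩

/-- The monomials of `θ_j` are in `SRU U` for `j ∉ U`. PROOF. `a j v * X v`: `σ v ⊄ U` if `j ∈ σ v`
(`mon K {v} = X v`), and `a j v = 0` otherwise. -/
theorem theta_mem_SRU (hzero : ∀ i j, i ∉ σ j → a i j = 0) {U : Finset (Fin d)} {j : Fin d}
    (hj : j ∉ U) : theta a j ∈ SRU K σ Γ U := by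
  rw [theta]
  refine Ideal.sum_mem _ fun v _ => ?_
  by_cases hv : j ∈ σ v
  · refine Ideal.mul_mem_left _ _ (Ideal.subset_span ⟨{v}, Or.inr ?_, by simp [mon]⟩)
    intro h
    exact hj (h (by simpa [car] using hv))
  · rw [hzero j v hv, MvPolynomial.C_0, zero_mul]
    exact Ideal.zero_mem _

/-- PROOF. The product of a monomial with carrier containing `W` and `X v` with `j ∈ σ v` has a
carrier containing `insert j W`. On the generators: `X v * mon K F` is a multiple of
`mon K (insert v F)`. -/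
theorem theta_mul_mem_JJ (hzero : ∀ i j, i ∉ σ j → a i j = 0) {W U : Finset (Fin d)} {j : Fin d}
    {p : MvPolynomial (Fin n) K} (hp : p ∈ JJ K σ Γ W U) :
    theta a j * p ∈ JJ K σ Γ (insert j W) U := by
  refine Submodule.span_induction (p := fun p _ => theta a j * p ∈ JJ K σ Γ (insert j W) U)
    ?_ ?_ ?_ ?_ hp
  · rintro f ⟨F, hF, rfl⟩
    have h1 : (F ∉ Γ ∨ ¬ car σ F ⊆ U ∨ insert j W ⊆ car σ F) →
        mon K F ∈ JJ K σ Γ (insert j W) U := fun h => Ideal.subset_span ⟨F, h, rfl⟩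
    rcases hF with hF | hF | hF
    · exact Ideal.mul_mem_left _ _ (h1 (Or.inl hF))
    · exact Ideal.mul_mem_left _ _ (h1 (Or.inr (Or.inl hF)))
    · rw [theta, Finset.sum_mul]
      refine Ideal.sum_mem _ fun v _ => ?_
      by_cases hv : j ∈ σ v
      · rw [mul_assoc]
        refine Ideal.mul_mem_left _ _ ?_
        by_cases hvF : v ∈ F
        · refine Ideal.mul_mem_left _ _ (h1 (Or.inr (Or.inr ?_)))
          refine Finset.insert_subset ?_ hF
          exact Finset.mem_biUnion.2 ⟨v, hvF, hv⟩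
        · refine Ideal.subset_span ⟨insert v F, Or.inr (Or.inr ?_), ?_⟩
          · refine Finset.insert_subset ?_ (hF.trans (car_mono (Finset.subset_insert v F)))
            exact Finset.mem_biUnion.2 ⟨v, Finset.mem_insert_self v F, hv⟩
          · rw [mon, mon, Finset.prod_insert hvF]
      · rw [hzero j v hv, MvPolynomial.C_0, zero_mul, zero_mul]
        exact Ideal.zero_mem _
  · rw [mul_zero]
    exact Ideal.zero_mem _
  · intro x y _ _ hx hy
    rw [mul_add]
    exact Ideal.add_mem _ hx hy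
  · intro c x _ hx
    rw [smul_eq_mul, mul_left_comm]
    exact Ideal.mul_mem_left _ _ hx

/-- Restriction to `Γ_(U - j)` (`j ∉ W`). PROOF. `mem_JJ`, `mem_SRU`: if `car σ M.support ⊆ U.erase j` then
it does not contain `insert j W`. Conversely if `M.support` is in `Γ_U` and its carrier does not
contain `insert j W` then it does not contain `W` or does not contain `j`. -/
theorem mem_JJ_insert (hdown : ∀ F ∈ Γ, ∀ G, G ⊆ F → G ∈ Γ) {W U : Finset (Fin d)} {j : Fin d}
    (p : MvPolynomial (Fin n) K) :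
    p ∈ JJ K σ Γ (insert j W) U ↔ p ∈ JJ K σ Γ W U ∧ p ∈ SRU K σ Γ (U.erase j) := by
  rw [mem_JJ hdown, mem_JJ hdown, mem_SRU hdown]
  constructor
  · intro h
    refine ⟨fun M h1 h2 h3 => h M h1 h2 fun h4 => h3 ((Finset.subset_insert j W).trans h4),
      fun M h1 h2 => h M h1 (h2.trans (Finset.erase_subset j U)) fun h4 => ?_⟩
    exact Finset.notMem_erase j U (h2 (h4 (Finset.mem_insert_self j W)))
  · rintro ⟨h, h'⟩ M h1 h2 h3
    by_cases hj : j ∈ car σ M.support
    · exact h M h1 h2 fun h4 => h3 (Finset.insert_subset hj h4)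
    · exact h' M h1 fun i hi => Finset.mem_erase.2 ⟨fun hij => hj (hij ▸ hi), h2 hi⟩

/-- Lifting: the part of `p` with the monomials `M` with `car σ M.support ⊆ U'` is in `JJ W U` if `p` is in
`JJ W U'`. PROOF. Drop the other monomials of `p`. -/
theorem exists_lift (hdown : ∀ F ∈ Γ, ∀ G, G ⊆ F → G ∈ Γ) {W U U' : Finset (Fin d)}
    {p : MvPolynomial (Fin n) K} (hp : p ∈ JJ K σ Γ W U') :
    ∃ q ∈ JJ K σ Γ W U, q - p ∈ SRU K σ Γ U' := by
  classical
  have hc : ∀ M : Fin n →₀ ℕ, MvPolynomial.coeff M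
      (∑ N ∈ p.support.filter (fun N => car σ N.support ⊆ U'),
        MvPolynomial.monomial N (MvPolynomial.coeff N p)) =
      if car σ M.support ⊆ U' then MvPolynomial.coeff M p else 0 := by
    intro M
    rw [MvPolynomial.coeff_sum]
    simp only [MvPolynomial.coeff_monomial]
    rw [Finset.sum_ite_eq' (p.support.filter (fun N => car σ N.support ⊆ U')) M
      (fun N => MvPolynomial.coeff N p)]
    simp only [Finset.mem_filter, MvPolynomial.mem_support_iff]
    by_cases h1 : car σ M.support ⊆ U'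
    · by_cases h2 : MvPolynomial.coeff M p = 0
      · simp [h1, h2]
      · simp [h1, h2]
    · simp [h1]
  rw [mem_JJ hdown] at hp
  refine ⟨∑ N ∈ p.support.filter (fun N => car σ N.support ⊆ U'),
    MvPolynomial.monomial N (MvPolynomial.coeff N p), (mem_JJ hdown _).2 fun M h1 h2 h3 => ?_,
    (mem_SRU hdown _).2 fun M h1 h2 => ?_⟩
  · rw [hc]
    split_ifs with h4
    · exact hp M h1 h4 h3
    · rfl
  · rw [MvPolynomial.coeff_sub, hc, if_pos h2, sub_self]

end Pool.Agent.Lib.MP_fd6ff4_co.Six
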