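import Mathlib

/-!
# The Koszul complex of a projective module over a polynomial ring in characteristic 2
-/

set_option autoImplicit false

open Finset

namespace Pool.Agent.Lib.MP_fd6ff4_co.Six

universe u

variable {K : Type u} [Field K] {d : ℕ}

/-- the part of `f` with monomials satisfying `Q` -/
private noncomputable def kos_filt (Q : (Fin d →₀ ℕ) → Prop) (f : MvPolynomial (Fin d) K) :
    MvPolynomial (Fin d) K := by
  classical
  exact ∑ a ∈ f.support.filter Q, MvPolynomial.monomial a (MvPolynomial.coeff a f)

open Classical in
private theorem kos_coeff_filt (Q : (Fin d →₀ ℕ) → Prop) (f : MvPolynomial (Fin d) K)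
    (b : Fin d →₀ ℕ) : MvPolynomial.coeff b (kos_filt Q f) =
      if Q b then MvPolynomial.coeff b f else 0 := by
  unfold kos_filt
  rw [MvPolynomial.coeff_sum]
  simp only [MvPolynomial.coeff_monomial]
  rw [Finset.sum_ite_eq' (f.support.filter Q) b (fun a => MvPolynomial.coeff a f)]
  by_cases h1 : Q b
  · by_cases h2 : MvPolynomial.coeff b f = 0
    · simp [h1, h2]
    · have : b ∈ f.support.filter Q := by
        rw [Finset.mem_filter, MvPolynomial.mem_support_iff]
        exact ⟨h2, h1⟩
      rw [if_pos this, if_pos h1]
  · have : b ∉ f.support.filter Q := by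
      rw [Finset.mem_filter]
      exact fun h => h1 h.2
    rw [if_neg this, if_neg h1]

/-- the homotopy -/
private noncomputable def kos_w (z : Finset (Fin d) → MvPolynomial (Fin d) K)
    (P' : Finset (Fin d)) : MvPolynomial (Fin d) K := by
  classical
  exact if h : P'.Nonempty then
    MvPolynomial.divMonomial (kos_filt (fun b => ∀ j < P'.min' h, b j = 0) (z (P'.erase (P'.min' h))))
      (Finsupp.single (P'.min' h) 1) else 0

open Classical in
private theorem kos_coeff_w (z : Finset (Fin d) → MvPolynomial (Fin d) K) {P' : Finset (Fin d)}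
    {m : Fin d} (hm : m ∈ P') (hmin : ∀ j ∈ P', m ≤ j) (a : Fin d →₀ ℕ) :
    MvPolynomial.coeff a (kos_w z P') =
      if ∀ j < m, a j = 0 then MvPolynomial.coeff (a + Finsupp.single m 1) (z (P'.erase m))
        else 0 := by
  have hne : P'.Nonempty := ⟨m, hm⟩
  have e : P'.min' hne = m := le_antisymm (Finset.min'_le _ _ hm) (hmin _ (Finset.min'_mem _ _))
  unfold kos_w
  rw [dif_pos hne, e, MvPolynomial.coeff_divMonomial, kos_coeff_filt, add_comm]
  have : (∀ j < m, (a + Finsupp.single m 1 : Fin d →₀ ℕ) j = 0) ↔ ∀ j < m, a j = 0 := by
    refine forall_congr' fun j => forall_congr' fun hj => ?_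
    rw [Finsupp.add_apply, Finsupp.single_apply, if_neg (ne_of_gt hj), add_zero]
  by_cases h : ∀ j < m, a j = 0
  · rw [if_pos h, if_pos (this.mpr h)]
  · rw [if_neg h, if_neg (fun h' => h (this.mp h'))]

/-- PROOF. Coefficients. For a monomial `N` and `P ⊆ Fin d` let `u_P` be the coefficient of `z P` at
`N - 1_P` if `P ⊆ N.support` and `0` otherwise (`1_P = ∑ i ∈ P, single i 1`). Comparing the coefficients
of the hypothesis for `Q` at `N - 1_Q` gives `∑ i ∉ Q, u_(Q + i) = 0` for `Q ⊆ N.support`. If
`N.support` is nonempty with the smallest element `m` let `w_P' = u_(P' - m)` if `m ∈ P'` and `0`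
otherwise (`#P' = p + 1`). Then `∑ i ∉ P, w_(P + i) = u_P`: if `m ∉ P` only `i = m` contributes; if
`m ∈ P` the sum is `∑ i ∉ P, u_(Q + i)` with `Q = P - m`, and the relation for `Q` says that this is
`- u_P = u_P`. If `N = 0` then `u_P = 0` as `P ≠ ∅`. The polynomial `w P'` has the coefficient `w_P'`
at `N - 1_P'` (for `P' ⊆ N.support`); only finitely many are nonzero. -/
theorem koszul_ring [CharP K 2] {p : ℕ} (hp : 1 ≤ p)
    (z : Finset (Fin d) → MvPolynomial (Fin d) K)
    (hz : ∀ Q : Finset (Fin d), #Q + 1 = p →
      ∑ i ∈ univ \ Q, MvPolynomial.X i * z (insert i Q) = 0) :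
    ∃ w : Finset (Fin d) → MvPolynomial (Fin d) K, ∀ P : Finset (Fin d), #P = p →
      z P = ∑ i ∈ univ \ P, MvPolynomial.X i * w (insert i P) := by
  classical
  refine ⟨kos_w z, fun P hP => ?_⟩
  have hPne : P.Nonempty := Finset.card_pos.mp (by omega)
  ext b
  rw [MvPolynomial.coeff_sum]
  -- the smallest element of the support
  have hSne : (b.support ∪ P).Nonempty := hPne.mono Finset.subset_union_right
  set m := (b.support ∪ P).min' hSne with hm
  have hmS : m ∈ b.support ∪ P := Finset.min'_mem _ _
  have hmin : ∀ j ∈ b.support ∪ P, m ≤ j := fun j hj => Finset.min'_le _ _ hj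
  have hb0 : ∀ j < m, b j = 0 := by
    intro j hj
    by_contra h
    have := hmin j (Finset.mem_union_left _ (Finsupp.mem_support_iff.mpr h))
    exact absurd hj (not_lt.mpr this)
  by_cases hmP : m ∈ P
  · -- the relation for `P - m`
    have hQ := hz (P.erase m) (by rw [Finset.card_erase_of_mem hmP]; omega)
    have hQ' := congrArg (MvPolynomial.coeff (b + Finsupp.single m 1)) hQ
    rw [MvPolynomial.coeff_sum, MvPolynomial.coeff_zero] at hQ'
    have hu : univ \ P.erase m = insert m (univ \ P) := by
      ext j
      simp only [Finset.mem_sdiff, Finset.mem_univ, true_and, Finset.mem_erase, Finset.mem_insert]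
      tauto
    have hmn : m ∉ univ \ P := by simp [hmP]
    rw [hu, Finset.sum_insert hmn, Finset.insert_erase hmP, MvPolynomial.coeff_X_mul',
      if_pos (by simp), add_tsub_cancel_right] at hQ'
    have e2 : MvPolynomial.coeff b (z P) = ∑ i ∈ univ \ P,
        MvPolynomial.coeff (b + Finsupp.single m 1)
          (MvPolynomial.X i * z (insert i (P.erase m))) :=
      CharTwo.add_eq_zero.mp hQ'
    rw [e2]
    refine Finset.sum_congr rfl fun i hi => ?_
    have hiP : i ∉ P := by simpa using hi
    have him : i ≠ m := fun h => hiP (h ▸ hmP)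
    rw [MvPolynomial.coeff_X_mul', MvPolynomial.coeff_X_mul']
    have hsup : i ∈ (b + Finsupp.single m 1).support ↔ i ∈ b.support := by
      rw [Finsupp.mem_support_iff, Finsupp.mem_support_iff, Finsupp.add_apply,
        Finsupp.single_apply, if_neg (Ne.symm him), add_zero]
    by_cases hib : i ∈ b.support
    · rw [if_pos hib, if_pos (hsup.mpr hib)]
      have hmi : m ≤ i := hmin i (Finset.mem_union_left _ hib)
      rw [kos_coeff_w z (m := m) (Finset.mem_insert_of_mem hmP) (by
        intro j hj
        rcases Finset.mem_insert.mp hj with rfl | hj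
        · exact hmi
        · exact hmin j (Finset.mem_union_right _ hj))]
      rw [if_pos]
      · congr 1
        · ext j
          simp only [Finsupp.tsub_apply, Finsupp.add_apply, Finsupp.single_apply]
          have : i = j → m ≠ j := fun h h' => him (h.trans h'.symm)
          have hbi : b i ≠ 0 := Finsupp.mem_support_iff.mp hib
          by_cases h1 : i = j
          · subst h1
            simp [Ne.symm him]
          · simp [h1]
        · congr 1
          rw [Finset.erase_insert_of_ne him]
      · intro j hj
        rw [Finsupp.tsub_apply, hb0 j hj, Nat.zero_sub]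
    · rw [if_neg hib, if_neg (fun h => hib (hsup.mp h))]
  · -- only `i = m` contributes
    have hmb : m ∈ b.support := by
      rcases Finset.mem_union.mp hmS with h | h
      · exact h
      · exact absurd h hmP
    rw [Finset.sum_eq_single m]
    · rw [MvPolynomial.coeff_X_mul', if_pos hmb,
        kos_coeff_w z (m := m) (Finset.mem_insert_self m P) (by
          intro j hj
          rcases Finset.mem_insert.mp hj with rfl | hj
          · exact le_rfl
          · exact hmin j (Finset.mem_union_right _ hj)), if_pos]
      · congr 1
        · ext j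
          have hbm : b m ≠ 0 := Finsupp.mem_support_iff.mp hmb
          simp only [Finsupp.tsub_apply, Finsupp.add_apply, Finsupp.single_apply]
          by_cases h1 : m = j
          · subst h1
            simp only [if_true]
            omega
          · simp [h1]
        · congr 1
          rw [Finset.erase_insert hmP]
      · intro j hj
        rw [Finsupp.tsub_apply, hb0 j hj, Nat.zero_sub]
    · intro i hi him
      rw [MvPolynomial.coeff_X_mul']
      by_cases hib : i ∈ b.support
      · rw [if_pos hib]
        have hne : (insert i P).Nonempty := Finset.insert_nonempty i P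
        have hmem := Finset.min'_mem (insert i P) hne
        set m' := (insert i P).min' hne with hm'
        have hmm' : m < m' := by
          have h1 : m ≤ m' := by
            rcases Finset.mem_insert.mp hmem with h | h
            · rw [h]; exact hmin i (Finset.mem_union_left _ hib)
            · exact hmin m' (Finset.mem_union_right _ h)
          refine lt_of_le_of_ne h1 fun h => ?_
          rw [← h] at hmem
          rcases Finset.mem_insert.mp hmem with h | h
          · exact him h.symm
          · exact hmP h
        rw [kos_coeff_w z hmem (fun j hj => Finset.min'_le _ _ hj), if_neg]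
        intro h
        have := h m hmm'
        rw [Finsupp.tsub_apply, Finsupp.single_apply, if_neg him, Nat.sub_zero] at this
        exact (Finsupp.mem_support_iff.mp hmb) this
      · rw [if_neg hib]
    · intro h
      exact absurd (by simp [hmP]) h

/-- PROOF. A projective module `M` is a direct summand of a free module `ι →₀ S`
(`Module.projective_def'`, or `Module.Projective.iff_split`): there are linear maps
`f : M → (M →₀ S)` and `g` back with `g (f x) = x`. Apply `koszul_ring` to every coordinate of
`f (z P)` (take `w = 0` at the coordinates outside the finitely many supports), and map back by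
`g`. -/
theorem koszul_exact [CharP K 2] {M : Type u} [AddCommGroup M]
    [Module (MvPolynomial (Fin d) K) M] [Module.Projective (MvPolynomial (Fin d) K) M] {p : ℕ}
    (hp : 1 ≤ p) (z : Finset (Fin d) → M)
    (hz : ∀ Q : Finset (Fin d), #Q + 1 = p →
      ∑ i ∈ univ \ Q, (MvPolynomial.X i : MvPolynomial (Fin d) K) • z (insert i Q) = 0) :
    ∃ w : Finset (Fin d) → M, ∀ P : Finset (Fin d), #P = p →
      z P = ∑ i ∈ univ \ P, (MvPolynomial.X i : MvPolynomial (Fin d) K) • w (insert i P) := by
  classical
  obtain ⟨f, hf⟩ := (Module.projective_def' (R := MvPolynomial (Fin d) K) (P := M)).mp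
    inferInstance
  have hfz : ∀ x : M, Finsupp.linearCombination (MvPolynomial (Fin d) K) (id : M → M) (f x) = x :=
    fun x => by
      have := congrArg (fun g : M →ₗ[MvPolynomial (Fin d) K] M => g x) hf
      simpa using this
  have hk : ∀ k : M, ∃ w : Finset (Fin d) → MvPolynomial (Fin d) K, ∀ P : Finset (Fin d),
      #P = p → f (z P) k = ∑ i ∈ univ \ P, MvPolynomial.X i * w (insert i P) := by
    intro k
    refine koszul_ring hp (fun P => f (z P) k) fun Q hQ => ?_
    have h1 := congrArg (fun x => f x k) (hz Q hQ)
    simp only [map_sum, map_smul, map_zero, Finsupp.coe_zero, Pi.zero_apply] at h1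
    rw [Finsupp.finset_sum_apply] at h1
    simpa using h1
  choose w hw using hk
  let K0 : Finset M := (univ : Finset (Finset (Fin d))).biUnion fun P => (f (z P)).support
  have hsub : ∀ P : Finset (Fin d), (f (z P)).support ⊆ K0 := fun P =>
    Finset.subset_biUnion_of_mem (fun P => (f (z P)).support) (Finset.mem_univ P)
  refine ⟨fun P' => ∑ k ∈ K0, w k P' • k, fun P hP => ?_⟩
  have e1 : z P = ∑ k ∈ K0, f (z P) k • k := by
    conv_lhs => rw [← hfz (z P)]
    rw [Finsupp.linearCombination_apply, Finsupp.sum]
    refine Finset.sum_subset (hsub P) fun k _ hk => ?_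
    rw [Finsupp.notMem_support_iff.mp hk, zero_smul]
  rw [e1]
  simp only [Finset.smul_sum]
  rw [Finset.sum_comm]
  refine Finset.sum_congr rfl fun k _ => ?_
  rw [hw k P hP, Finset.sum_smul]
  exact Finset.sum_congr rfl fun i _ => by rw [mul_smul]

end Pool.Agent.Lib.MP_fd6ff4_co.Six
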