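import Mathlib
import Pool.Agent.Lib.MP_fd6ff4_co.Six.ExactInt
import Pool.Agent.Lib.MP_fd6ff4_co.Two.PdQuot
import Pool.Agent.Lib.MP_fd6ff4_co.Two.Top

/-!
# The face ring is a projective module over the polynomial ring in the `θ_i`

`Z0 a (intr σ Γ)` is the module of the families of polynomials on the facets whose sum at every
interior ridge `R` is in `Jd a R`: the image of the face ring under `tau a (intr σ Γ)`.
-/

set_option autoImplicit false

open Finset

namespace Pool.Agent.Lib.MP_fd6ff4_co.Six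

open Two

universe u

variable {d n : ℕ} {K : Type u} [Field K] {a : Fin d → Fin n → K}
  {Γ : Finset (Finset (Fin n))} {σ : Fin n → Finset (Fin d)}

private theorem pj_card (h : Ball Γ σ) {R : Finset (Fin n)} (hR : R ∈ intr σ Γ) (hRd : #R + 1 = d) :
    #(univ.filter fun F : Fac (intr σ Γ) d => R ⊆ F.1) = 2 := by
  rw [← ridge_interior h (mem_intr.1 hR).1 hRd (mem_intr.1 hR).2]
  refine Finset.card_bij (fun F _ => F.1) ?_ ?_ ?_
  · intro F hF
    rw [mem_filter] at hF ⊢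
    exact ⟨(mem_intr.1 F.2.1).1, F.2.2, hF.2⟩
  · intro F _ F' _ hFF
    exact Subtype.ext hFF
  · intro G hG
    rw [mem_filter] at hG
    exact ⟨⟨G, mem_intr.2 ⟨hG.1, car_facet h hG.1 hG.2.1⟩, hG.2.1⟩,
      by rw [mem_filter]; exact ⟨mem_univ _, hG.2.2⟩, rfl⟩

private theorem pj_pair (h : Ball Γ σ) {R : Finset (Fin n)} (hR : R ∈ intr σ Γ)
    (hRd : #R + 1 = d) {F F' : Fac (intr σ Γ) d} (hF : R ⊆ F.1) (hF' : R ⊆ F'.1) (hne : F ≠ F') :
    (univ.filter fun F : Fac (intr σ Γ) d => R ⊆ F.1) = {F, F'} := by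
  classical
  symm
  refine Finset.eq_of_subset_of_card_le ?_ ?_
  · intro G hG
    rw [mem_insert, mem_singleton] at hG
    rw [mem_filter]
    rcases hG with rfl | rfl
    · exact ⟨mem_univ _, hF⟩
    · exact ⟨mem_univ _, hF'⟩
  · rw [pj_card h hR hRd, Finset.card_pair hne]

private theorem pj_chain [CharP K 2] (h : Ball Γ σ) (hdet : ∀ F ∈ Γ, #F = d → pdet a F ≠ 0)
    (j : ℕ) : PdLT (MvPolynomial (Fin d) K) (Ch a (intr σ Γ) j) (d - j + 1) := by
  refine PdLT.pi fun G => ?_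
  obtain ⟨F, hF, hFd, hGF⟩ := exists_facet h (mem_intr.1 G.2.1).1
  have h1 := pd_quot hFd (hdet F hF hFd) hGF
  rwa [G.2.2] at h1

private theorem pj_ker [CharP K 2] (h : Ball Γ σ) (hdet : ∀ F ∈ Γ, #F = d → pdet a F ≠ 0) (j : ℕ)
    (hj : j < d) :
    PdLT (MvPolynomial (Fin d) K) (LinearMap.ker (bdy a (intr σ Γ) j)) (d - j) := by
  induction j with
  | zero =>
    refine PdLT.left (f := (LinearMap.ker (bdy a (intr σ Γ) 0)).subtype)
      (g := bdy a (intr σ Γ) 0)
      (Submodule.injective_subtype _) (bdy_int_surjective h hdet hj)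
      (LinearMap.exact_subtype_ker_map _) ?_ ?_
    · exact (pj_chain h hdet (0 + 1)).mono (by omega)
    · exact (pj_chain h hdet 0).mono (by omega)
  | succ j ih =>
    have ih' := ih (by omega)
    have hmem : ∀ c : Ch a (intr σ Γ) (j + 2),
        bdy a (intr σ Γ) (j + 1) c ∈ LinearMap.ker (bdy a (intr σ Γ) j) := by
      intro c
      rw [LinearMap.mem_ker]
      exact bdy_bdy_int h c
    refine PdLT.left (C := LinearMap.ker (bdy a (intr σ Γ) j))
      (f := (LinearMap.ker (bdy a (intr σ Γ) (j + 1))).subtype)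
      (g := (bdy a (intr σ Γ) (j + 1)).codRestrict (LinearMap.ker (bdy a (intr σ Γ) j)) hmem)
      (Submodule.injective_subtype _) ?_ ?_ ?_ ?_
    · intro c
      obtain ⟨b, hb⟩ := exact_int h hdet hj c.1 (LinearMap.mem_ker.1 c.2)
      exact ⟨b, Subtype.ext hb⟩
    · intro c
      constructor
      · intro hc
        have hc' : bdy a (intr σ Γ) (j + 1) c = 0 := congrArg Subtype.val hc
        exact ⟨⟨c, LinearMap.mem_ker.2 hc'⟩, rfl⟩
      · rintro ⟨y, rfl⟩
        exact Subtype.ext (LinearMap.mem_ker.1 y.2)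
    · exact (pj_chain h hdet (j + 2)).mono (by omega)
    · exact ih'.mono (by omega)

private theorem pj_tau (y : MvPolynomial (Fin n) K) (F : Fac (intr σ Γ) d) :
    tau a (intr σ Γ) y F = bet a F.1 y := rfl

/-- PROOF. As `Z0_projective` (and `pd_ker`) in `Two/Proj` with `intr σ Γ` in place of `Γ`: `PdLT.pi` and
`pd_quot` for the chain modules, `bdy_int_surjective`, `exact_int`, `bdy_bdy_int`. -/
theorem int_projective [CharP K 2] (h : Ball Γ σ) (hdet : ∀ F ∈ Γ, #F = d → pdet a F ≠ 0)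
    (hd : 0 < d) : Module.Projective (MvPolynomial (Fin d) K) (Z0 a (intr σ Γ)) := by
  obtain ⟨j, rfl⟩ : ∃ j, d = j + 1 := ⟨d - 1, by omega⟩
  have hbot : ∀ F : Fac (intr σ Γ) (j + 1), Jd a F.1 = ⊥ := fun F =>
    Jd_facet F.2.2 (hdet F.1 (mem_intr.1 F.2.1).1 F.2.2)
  have key : ∀ z : Fac (intr σ Γ) (j + 1) → MvPolynomial (Fin (j + 1)) K,
      z ∈ Z0 a (intr σ Γ) ↔ bdy a (intr σ Γ) j (fun G => Ideal.Quotient.mk _ (z G)) = 0 := by
    intro z
    constructor
    · intro hz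
      funext R
      rw [bdy_mk]
      exact Ideal.Quotient.eq_zero_iff_mem.2 (hz R.1 R.2.1 (by rw [R.2.2]))
    · intro hz R hR hRd
      have h1 := congrFun hz ⟨R, hR, by omega⟩
      rw [bdy_mk] at h1
      exact Ideal.Quotient.eq_zero_iff_mem.1 h1
  let f : Z0 a (intr σ Γ) →ₗ[MvPolynomial (Fin (j + 1)) K]
      LinearMap.ker (bdy a (intr σ Γ) j) :=
    { toFun := fun z => ⟨fun G => Ideal.Quotient.mk _ (z.1 G),
        LinearMap.mem_ker.2 ((key z.1).1 z.2)⟩
      map_add' := fun z w => Subtype.ext (funext fun G => rfl)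
      map_smul' := fun c z => Subtype.ext (funext fun G => rfl) }
  have hf : Function.Bijective f := by
    constructor
    · intro z w hzw
      apply Subtype.ext
      funext G
      have h1 : (Ideal.Quotient.mk (Jd a G.1) (z.1 G)) = Ideal.Quotient.mk (Jd a G.1) (w.1 G) :=
        congrFun (congrArg Subtype.val hzw) G
      rw [Ideal.Quotient.eq, hbot G, Ideal.mem_bot, sub_eq_zero] at h1
      exact h1
    · intro c
      have h1 : ∀ G : Fac (intr σ Γ) (j + 1), ∃ s, Ideal.Quotient.mk (Jd a G.1) s = c.1 G :=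
        fun G => Ideal.Quotient.mk_surjective (c.1 G)
      choose s hs using h1
      have h2 : (fun G => Ideal.Quotient.mk (Jd a G.1) (s G)) = c.1 := funext hs
      refine ⟨⟨s, (key s).2 ?_⟩, Subtype.ext h2⟩
      rw [h2]
      exact LinearMap.mem_ker.1 c.2
  have h3 := (pj_ker h hdet j (Nat.lt_succ_self j)).congr (LinearEquiv.ofBijective f hf).symm
  exact pdLT_one.1 (h3.mono (by omega))

/-- PROOF. An interior ridge is in exactly two facets `F`, `F'` (`ridge_interior`; facets are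
interior, `car_facet`), and `bet a F y + bet a F' y ∈ Jd a R` by `bet_sub_mem` (characteristic 2). -/
theorem tau_int_mem [CharP K 2] (h : Ball Γ σ) (hdet : ∀ F ∈ Γ, #F = d → pdet a F ≠ 0)
    (y : MvPolynomial (Fin n) K) : tau a (intr σ Γ) y ∈ Z0 a (intr σ Γ) := by
  classical
  intro R hR hRd
  obtain ⟨F, F', hFF, hset⟩ := Finset.card_eq_two.1 (pj_card h hR hRd)
  have hF : R ⊆ F.1 := by
    have : F ∈ univ.filter fun F : Fac (intr σ Γ) d => R ⊆ F.1 := by
      rw [hset]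
      exact mem_insert_self _ _
    exact (mem_filter.1 this).2
  have hF' : R ⊆ F'.1 := by
    have : F' ∈ univ.filter fun F : Fac (intr σ Γ) d => R ⊆ F.1 := by
      rw [hset]
      exact mem_insert_of_mem (mem_singleton_self _)
    exact (mem_filter.1 this).2
  rw [hset, Finset.sum_pair hFF, pj_tau, pj_tau, ← CharTwo.sub_eq_add]
  exact bet_sub_mem F.2.2 (hdet _ (mem_intr.1 F.2.1).1 F.2.2) F'.2.2
    (hdet _ (mem_intr.1 F'.2.1).1 F'.2.2) hF hF' y

/-- PROOF. `glue` for `g F = z F` (a facet of `Γ` is a facet of `intr σ Γ`, `car_facet`): for two facets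
`F`, `F'` containing the interior ridge `R`, `F ≠ F'`, these are all (`ridge_interior`), and
`z F + z F' ∈ Jd a R`. -/
theorem exists_tau_int [CharP K 2] (h : Ball Γ σ) (hdet : ∀ F ∈ Γ, #F = d → pdet a F ≠ 0)
    {z : Fac (intr σ Γ) d → MvPolynomial (Fin d) K} (hz : z ∈ Z0 a (intr σ Γ)) :
    ∃ y : MvPolynomial (Fin n) K, tau a (intr σ Γ) y = z := by
  classical
  have hfac : ∀ F : Fac Γ d, F.1 ∈ intr σ Γ ∧ #F.1 = d := fun F =>
    ⟨mem_intr.2 ⟨F.2.1, car_facet h F.2.1 F.2.2⟩, F.2.2⟩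
  obtain ⟨y, hy⟩ := glue h hdet (fun F => z ⟨F.1, hfac F⟩) (by
    intro R hR hRd hc F F' hF hF'
    by_cases hne : F = F'
    · rw [hne, sub_self]
      exact zero_mem _
    · have hne' : (⟨F.1, hfac F⟩ : Fac (intr σ Γ) d) ≠ ⟨F'.1, hfac F'⟩ := by
        intro he
        exact hne (Subtype.ext (congrArg (fun G : Fac (intr σ Γ) d => G.1) he))
      have h1 := hz R (mem_intr.2 ⟨hR, hc⟩) hRd
      rw [pj_pair h (mem_intr.2 ⟨hR, hc⟩) hRd (F := ⟨F.1, hfac F⟩) (F' := ⟨F'.1, hfac F'⟩)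
        hF hF' hne', Finset.sum_pair hne'] at h1
      rw [CharTwo.sub_eq_add]
      exact h1)
  refine ⟨y, ?_⟩
  funext F
  have h1 : tau a Γ y ⟨F.1, (mem_intr.1 F.2.1).1, F.2.2⟩ = z F := by
    rw [hy]
  exact h1

/-- PROOF. `tau_eq_zero` and `car_facet`. -/
theorem tau_int_eq_zero [CharP K 2] (h : Ball Γ σ) (hdet : ∀ F ∈ Γ, #F = d → pdet a F ≠ 0)
    (y : MvPolynomial (Fin n) K) : tau a (intr σ Γ) y = 0 ↔ y ∈ srIdeal K Γ := by
  rw [← tau_eq_zero h hdet]
  constructor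
  · intro h0
    funext F
    exact congrFun h0
      (⟨F.1, mem_intr.2 ⟨F.2.1, car_facet h F.2.1 F.2.2⟩, F.2.2⟩ : Fac (intr σ Γ) d)
  · intro h0
    funext F
    exact congrFun h0 (⟨F.1, (mem_intr.1 F.2.1).1, F.2.2⟩ : Fac Γ d)

/-- PROOF. `bet_theta`. -/
theorem tau_int_theta [CharP K 2] (hdet : ∀ F ∈ Γ, #F = d → pdet a F ≠ 0) (i : Fin d)
    (y : MvPolynomial (Fin n) K) : tau a (intr σ Γ) (theta a i * y) =
      (MvPolynomial.X i : MvPolynomial (Fin d) K) • tau a (intr σ Γ) y := by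
  funext F
  rw [Pi.smul_apply, pj_tau, pj_tau, map_mul,
    bet_theta F.2.2 (hdet _ (mem_intr.1 F.2.1).1 F.2.2), smul_eq_mul]

end Pool.Agent.Lib.MP_fd6ff4_co.Six
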