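import Mathlib
import Pool.Agent.Lib.MP_fd6ff4_co.Six.Defs

/-!
# Renumbering the vertices of `Γ_U`: existence and combinatorics
-/

set_option autoImplicit false

open Finset

namespace Pool.Agent.Lib.MP_fd6ff4_co.Six

open Two

variable {d n d' n' : ℕ} {σ : Fin n → Finset (Fin d)} {Γ : Finset (Finset (Fin n))}
  {U : Finset (Fin d)} {σ' : Fin n' → Finset (Fin d')} {Γ' : Finset (Finset (Fin n'))}
  {e : Fin d' ↪ Fin d} {g : Fin n' ↪ Fin n}

/-- PROOF. `e = (U.orderEmbOfFin rfl).toEmbedding`, `g` in the same way for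
`univ.filter fun v => σ v ⊆ U`; `σ' v' = univ.filter fun i' => e i' ∈ σ (g v')`,
`Γ' = univ.filter fun F' => F'.map g ∈ Γ`. -/
theorem exists_sub (σ : Fin n → Finset (Fin d)) (Γ : Finset (Finset (Fin n)))
    (U : Finset (Fin d)) : ∃ (n' : ℕ) (σ' : Fin n' → Finset (Fin #U))
    (Γ' : Finset (Finset (Fin n'))) (e : Fin #U ↪ Fin d) (g : Fin n' ↪ Fin n),
    Sub σ Γ U σ' Γ' e g := by
  refine ⟨#(univ.filter fun v => σ v ⊆ U),
    fun v' => univ.filter fun i' => (U.orderEmbOfFin rfl).toEmbedding i' ∈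
      σ (((univ.filter fun v => σ v ⊆ U).orderEmbOfFin rfl).toEmbedding v'),
    univ.filter fun F' =>
      F'.map ((univ.filter fun v => σ v ⊆ U).orderEmbOfFin rfl).toEmbedding ∈ Γ,
    (U.orderEmbOfFin rfl).toEmbedding,
    ((univ.filter fun v => σ v ⊆ U).orderEmbOfFin rfl).toEmbedding, ?_, ?_, ?_, ?_⟩
  · exact Finset.map_orderEmbOfFin_univ U rfl
  · intro v
    have h : Set.range ((univ.filter fun v => σ v ⊆ U).orderEmbOfFin rfl) =
        ((univ.filter fun v => σ v ⊆ U : Finset (Fin n)) : Set (Fin n)) :=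
      Finset.range_orderEmbOfFin _ rfl
    have h1 : v ∈ Set.range ((univ.filter fun v => σ v ⊆ U).orderEmbOfFin rfl) ↔ σ v ⊆ U := by
      rw [h]
      simp
    exact h1
  · intro v'
    have hv : σ (((univ.filter fun v => σ v ⊆ U).orderEmbOfFin rfl) v') ⊆ U :=
      (mem_filter.1 (Finset.orderEmbOfFin_mem (univ.filter fun v => σ v ⊆ U) rfl v')).2
    ext i
    simp only [mem_map, mem_filter, mem_univ, true_and]
    constructor
    · rintro ⟨i', h1, rfl⟩
      exact h1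
    · intro hi
      have hi' : i ∈ Set.range (U.orderEmbOfFin rfl) := by
        rw [Finset.range_orderEmbOfFin]
        exact hv hi
      obtain ⟨i', rfl⟩ := hi'
      exact ⟨i', hi, rfl⟩
  · intro F'
    simp

theorem Sub.card (s : Sub σ Γ U σ' Γ' e g) : d' = #U := by
  rw [← s.he, card_map, card_univ, Fintype.card_fin]

theorem Sub.car_map (s : Sub σ Γ U σ' Γ' e g) (F' : Finset (Fin n')) :
    (car σ' F').map e = car σ (F'.map g) := by
  ext i
  simp only [car, mem_map, mem_biUnion]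
  constructor
  · rintro ⟨i', ⟨v', hv', hi'⟩, rfl⟩
    refine ⟨g v', ⟨v', hv', rfl⟩, ?_⟩
    rw [← s.hσ]
    exact mem_map_of_mem e hi'
  · rintro ⟨v, ⟨v', hv', rfl⟩, hi⟩
    rw [← s.hσ, mem_map] at hi
    obtain ⟨i', hi', rfl⟩ := hi
    exact ⟨i', ⟨v', hv', hi'⟩, rfl⟩

theorem Sub.mem_σ (s : Sub σ Γ U σ' Γ' e g) (v' : Fin n') (i' : Fin d') :
    e i' ∈ σ (g v') ↔ i' ∈ σ' v' := by
  rw [← s.hσ, mem_map' e]

/-- PROOF. All the vertices of `F` are in the range of `g`. -/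
theorem Sub.exists_map (s : Sub σ Γ U σ' Γ' e g) {F : Finset (Fin n)} (hU : car σ F ⊆ U) :
    ∃ F' : Finset (Fin n'), F'.map g = F := by
  refine ⟨univ.filter fun v' => g v' ∈ F, ?_⟩
  ext v
  simp only [mem_map, mem_filter, mem_univ, true_and]
  constructor
  · rintro ⟨v', h, rfl⟩
    exact h
  · intro hv
    have h1 : σ v ⊆ U := (Finset.subset_biUnion_of_mem σ hv).trans hU
    obtain ⟨v', rfl⟩ := (s.hg v).2 h1
    exact ⟨v', hv, rfl⟩

theorem Sub.car_subset (s : Sub σ Γ U σ' Γ' e g) (F' : Finset (Fin n')) :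
    car σ (F'.map g) ⊆ U := by
  rw [← s.car_map, ← s.he]
  exact map_subset_map.2 (subset_univ _)

/-- PROOF. `car_map`, `he`, injectivity of `Finset.map e`. -/
theorem Sub.car_eq_univ (s : Sub σ Γ U σ' Γ' e g) (F' : Finset (Fin n')) :
    car σ' F' = univ ↔ car σ (F'.map g) = U := by
  rw [← s.car_map, ← s.he, map_inj]

/-- The links correspond. -/
theorem Sub.link_map (s : Sub σ Γ U σ' Γ' e g) (V' : Finset (Fin d')) (F' : Finset (Fin n')) :
    link Γ σ (V'.map e) (F'.map g) = (link Γ' σ' V' F').map (mapEmbedding g).toEmbedding := by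
  have key : ∀ G' : Finset (Fin n'), (G'.map g ∈ Γ ∧ Disjoint (G'.map g) (F'.map g) ∧
      G'.map g ∪ F'.map g ∈ Γ ∧ car σ (G'.map g ∪ F'.map g) ⊆ V'.map e) ↔
      (G' ∈ Γ' ∧ Disjoint G' F' ∧ G' ∪ F' ∈ Γ' ∧ car σ' (G' ∪ F') ⊆ V') := by
    intro G'
    rw [disjoint_map, ← map_union, ← s.car_map, map_subset_map, ← s.hΓ, ← s.hΓ]
  ext G
  rw [link, mem_filter, mem_map]
  constructor
  · intro h
    have h1 : car σ G ⊆ U := by
      refine (biUnion_subset_biUnion_of_subset_left σ subset_union_left).trans (h.2.2.2.trans ?_)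
      rw [← s.he]
      exact map_subset_map.2 (subset_univ _)
    obtain ⟨G', rfl⟩ := s.exists_map h1
    exact ⟨G', by rw [link, mem_filter]; exact (key G').1 h, rfl⟩
  · rintro ⟨G', h, rfl⟩
    rw [link, mem_filter] at h
    exact (key G').2 h

end Pool.Agent.Lib.MP_fd6ff4_co.Six
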