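import Mathlib
import Pool.Agent.Lib.MP_fd6ff4_co.Six.SubA

/-!
# Renumbering the vertices of `Γ_U`: `Γ'` is a triangulation again
-/

set_option autoImplicit false

open Finset

namespace Pool.Agent.Lib.MP_fd6ff4_co.Six

open Two

variable {d n d' n' : ℕ} {σ : Fin n → Finset (Fin d)} {Γ : Finset (Finset (Fin n))}
  {U : Finset (Fin d)} {σ' : Fin n' → Finset (Fin d')} {Γ' : Finset (Finset (Fin n'))}
  {e : Fin d' ↪ Fin d} {g : Fin n' ↪ Fin n}

theorem card_filter_map (g : Fin n' ↪ Fin n) (C' : Finset (Finset (Fin n')))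
    (E' : Finset (Fin n')) :
    #{G ∈ C'.map (mapEmbedding g).toEmbedding | E'.map g ⊆ G} = #{G ∈ C' | E' ⊆ G} := by
  rw [Finset.filter_map, card_map]
  congr 1
  apply Finset.filter_congr
  intro G _
  simp [Function.comp, mapEmbedding_apply, map_subset_map]

theorem mem_map_iff (g : Fin n' ↪ Fin n) (C' : Finset (Finset (Fin n')))
    (E' : Finset (Fin n')) :
    E'.map g ∈ C'.map (mapEmbedding g).toEmbedding ↔ E' ∈ C' := by
  constructor
  · intro h
    obtain ⟨E, h1, h2⟩ := mem_map.1 h
    have h3 : E.map g = E'.map g := h2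
    rw [map_inj] at h3
    rwa [← h3]
  · intro h
    exact mem_map.2 ⟨E', h, rfl⟩

/-- Cycles correspond. PROOF. `E' ⊆ G'` iff `E'.map g ⊆ G'.map g`; if `E` is not the image of an `E'`
then no `G'.map g` contains it. -/
theorem isCycle_map (g : Fin n' ↪ Fin n) {X' : Finset (Finset (Fin n'))} {s : ℕ}
    {C' : Finset (Finset (Fin n'))} :
    IsCycle (X'.map (mapEmbedding g).toEmbedding) s (C'.map (mapEmbedding g).toEmbedding) ↔
      IsCycle X' s C' := by
  constructor
  · rintro ⟨h1, h2, h3⟩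
    refine ⟨map_subset_map.1 h1, ?_, ?_⟩
    · intro G hG
      have := h2 (G.map g) ((mem_map_iff g C' G).2 hG)
      rwa [card_map] at this
    · intro E hE
      have := h3 (E.map g) (by rw [card_map]; exact hE)
      rwa [card_filter_map] at this
  · rintro ⟨h1, h2, h3⟩
    refine ⟨map_subset_map.2 h1, ?_, ?_⟩
    · intro G hG
      obtain ⟨G', hG', rfl⟩ := mem_map.1 hG
      have h4 : #(G'.map g) = s := by
        rw [card_map]
        exact h2 G' hG'
      exact h4
    · intro E hE
      by_cases hex : ∃ E' : Finset (Fin n'), E'.map g = E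
      · obtain ⟨E', rfl⟩ := hex
        rw [card_filter_map]
        rw [card_map] at hE
        exact h3 E' hE
      · have : {G ∈ C'.map (mapEmbedding g).toEmbedding | E ⊆ G} = ∅ := by
          apply filter_eq_empty_iff.2
          intro G hG hEG
          obtain ⟨G', hG', rfl⟩ := mem_map.1 hG
          have h4 : E ⊆ G'.map g := hEG
          obtain ⟨E', _, h5⟩ := subset_map_iff.1 h4
          exact hex ⟨E', h5.symm⟩
        rw [this]
        simp

theorem isBd_map (g : Fin n' ↪ Fin n) {X' : Finset (Finset (Fin n'))} {s : ℕ}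
    {C' : Finset (Finset (Fin n'))} (h : IsBd (X'.map (mapEmbedding g).toEmbedding) s
      (C'.map (mapEmbedding g).toEmbedding)) : IsBd X' s C' := by
  obtain ⟨D, h1, h2, h3⟩ := h
  obtain ⟨D', h4, rfl⟩ := subset_map_iff.1 h1
  refine ⟨D', h4, ?_, ?_⟩
  · intro G hG
    have := h2 (G.map g) ((mem_map_iff g D' G).2 hG)
    rwa [card_map] at this
  · intro E hE
    have := h3 (E.map g) (by rw [card_map]; exact hE)
    rwa [mem_map_iff, card_filter_map] at this

/-- PROOF. `link_map`, `isCycle_map`, `isBd_map`; every set of faces of the link of `F'.map g` is a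
`C'.map _`; the numbers of elements of `V'.map e`, `F'.map g`, `G'.map g` do not change. -/
theorem Sub.ballAt (s : Sub σ Γ U σ' Γ' e g) {V' : Finset (Fin d')} {F' : Finset (Fin n')}
    (h : BallAt Γ σ (V'.map e) (F'.map g)) : BallAt Γ' σ' V' F' := by
  obtain ⟨h1, h2, h3, h4⟩ := h
  rw [s.link_map] at h1 h2 h3 h4
  rw [card_map, card_map] at h1 h2 h3 h4
  rw [← s.car_map, map_inj] at h3
  have h4' : car σ' F' ≠ V' → ∀ C : Finset (Finset (Fin n)), IsCycle
      ((link Γ' σ' V' F').map (mapEmbedding g).toEmbedding) (#V' - #F') C → C = ∅ := by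
    intro hc
    apply h4
    rw [← s.car_map, Ne, map_inj]
    exact hc
  refine ⟨?_, ?_, ?_, ?_⟩
  · intro G hG
    have := h1 (G.map g) ((mem_map_iff g _ G).2 hG)
    rwa [card_map] at this
  · intro r hr C hC
    exact isBd_map g (h2 r hr _ ((isCycle_map g).2 hC))
  · intro hc
    obtain ⟨C, ⟨h5, h6⟩, h7⟩ := h3 hc
    obtain ⟨C', h8, rfl⟩ := subset_map_iff.1 h6.1
    refine ⟨C', ⟨?_, (isCycle_map g).1 h6⟩, ?_⟩
    · exact map_nonempty.1 h5
    · rintro C1 ⟨h9, h10⟩
      have := h7 (C1.map (mapEmbedding g).toEmbedding) ⟨map_nonempty.2 h9, (isCycle_map g).2 h10⟩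
      rwa [map_inj] at this
  · intro hc C hC
    have := h4' hc _ ((isCycle_map g).2 hC)
    rwa [map_eq_empty] at this

theorem Sub.ball (s : Sub σ Γ U σ' Γ' e g) (h : Ball Γ σ) : Ball Γ' σ' := by
  refine ⟨?_, ?_, ?_, ?_, ?_⟩
  · rw [s.hΓ, map_empty]
    exact h.empty_mem
  · intro F hF G hG
    rw [s.hΓ] at hF ⊢
    exact h.down _ hF _ (map_subset_map.2 hG)
  · intro j
    rw [s.hΓ, map_singleton]
    exact h.vertex _
  · intro j
    have h1 : ((σ' j).map e).Nonempty := by
      rw [s.hσ]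
      exact h.nonempty _
    exact map_nonempty.1 h1
  · intro V' F' hF hc
    apply s.ballAt
    apply h.ball
    · exact (s.hΓ F').1 hF
    · rw [← s.car_map]
      exact map_subset_map.2 hc

end Pool.Agent.Lib.MP_fd6ff4_co.Six
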