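import Mathlib
import Pool.Agent.Lib.MP_fd6ff4_co.Six.SubA
import Pool.Agent.Lib.MP_fd6ff4_co.Six.Ideals

/-!
# Renumbering the vertices of `Γ_U`: the statements `Sp`, `Good` and `KE`
-/

set_option autoImplicit false

open Finset

namespace Pool.Agent.Lib.MP_fd6ff4_co.Six

open Two

universe u

variable {d n d' n' : ℕ} {K : Type u} [Field K] {a : Fin d → Fin n → K}
  {σ : Fin n → Finset (Fin d)} {Γ : Finset (Finset (Fin n))}
  {U : Finset (Fin d)} {σ' : Fin n' → Finset (Fin d')} {Γ' : Finset (Finset (Fin n'))}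
  {e : Fin d' ↪ Fin d} {g : Fin n' ↪ Fin n}

/-- PROOF. Let `f` satisfy `Rels a σ Γ U t` and `f' F' = f (F'.map g)`. It satisfies the relations for
`Γ'` and `univ`: in `r2` the `k` with `i ∈ σ k ⊆ U` are the `g k'` (`hg`, `mem_σ`). A face `N` with
`car σ N = U` is `N'.map g` (`exists_map`). -/
theorem Sub.sp (s : Sub σ Γ U σ' Γ' e g) {t : ℕ}
    (h : Sp (fun i' v' => a (e i') (g v')) σ' Γ' univ t) : Sp a σ Γ U t := by
  intro f hf N hN hNt hcar
  obtain ⟨N', rfl⟩ := s.exists_map (F := N) hcar.le
  have key : Rels (fun i' v' => a (e i') (g v')) σ' Γ' univ t (fun F' => f (F'.map g)) := by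
    constructor
    · intro M' hM' hMt hMc k' hk' hk2
      refine hf.r1 (M'.map g) ((s.hΓ M').mp hM') (by rw [card_map]; exact hMt)
        ((s.car_eq_univ M').mp hMc) (g k') (mem_map_of_mem g hk') ?_
      rw [← Finset.map_erase]
      exact (s.car_eq_univ _).mp hk2
    · intro M' hM' hMt i' _ hMc
      have hiU : e i' ∈ U := by
        rw [← s.he]
        exact mem_map_of_mem e (mem_univ i')
      have hcarM : car σ (M'.map g) = U.erase (e i') := by
        rw [← s.car_map, hMc, Finset.map_erase, s.he]
      have h2 := hf.r2 (M'.map g) ((s.hΓ M').mp hM') (by rw [card_map]; exact hMt) (e i') hiU hcarM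
      have hset : univ.filter (fun k => e i' ∈ σ k ∧ σ k ⊆ U ∧ insert k (M'.map g) ∈ Γ) =
          (univ.filter (fun k' => i' ∈ σ' k' ∧ σ' k' ⊆ univ ∧ insert k' M' ∈ Γ')).map g := by
        ext k
        simp only [mem_filter, mem_univ, true_and, mem_map, subset_univ]
        constructor
        · rintro ⟨h3, h4, h5⟩
          obtain ⟨k', rfl⟩ := (s.hg k).mpr h4
          refine ⟨k', ⟨(s.mem_σ k' i').mp h3, ?_⟩, rfl⟩
          rw [s.hΓ, Finset.map_insert]
          exact h5
        · rintro ⟨k', ⟨h3, h4⟩, rfl⟩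
          refine ⟨(s.mem_σ k' i').mpr h3, (s.hg (g k')).mp ⟨k', rfl⟩, ?_⟩
          rw [s.hΓ, Finset.map_insert] at h4
          exact h4
      rw [hset, sum_map] at h2
      simpa only [Finset.map_insert] using h2
  exact h _ key N' ((s.hΓ N').mpr hN) (by rw [card_map] at hNt; exact hNt)
    ((s.car_eq_univ N').mpr hcar)

/-- PROOF. The map of pairs `Idx σ' → Idx σ` given by `e` and `g` is injective; for `P'` take
`P = rename _ P'` (`MvPolynomial.aeval_rename`, `MvPolynomial.map_rename`,
`MvPolynomial.rename_injective`). -/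
theorem Sub.good (s : Sub σ Γ U σ' Γ' e g) (h : Good a σ) :
    Good (fun i' v' => a (e i') (g v')) σ' := by
  refine ⟨fun i' j' hij => h.1 _ _ (fun hc => hij ((s.mem_σ j' i').mp hc)), ?_⟩
  intro P hP
  let φ : Idx σ' → Idx σ := fun p => ⟨(e p.1.1, g p.1.2), (s.mem_σ p.1.2 p.1.1).mpr p.2⟩
  have hφ : Function.Injective φ := by
    rintro ⟨⟨i, j⟩, hp⟩ ⟨⟨i', j'⟩, hp'⟩ hpp
    have h1 : (e i, g j) = (e i', g j') := congrArg Subtype.val hpp
    rw [Prod.mk.injEq] at h1
    have h2 := e.injective h1.1
    have h3 := g.injective h1.2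
    subst h2
    subst h3
    rfl
  have h1 := h.2 (MvPolynomial.rename φ P) (by
    rw [MvPolynomial.map_rename]
    intro h0
    apply hP
    apply MvPolynomial.rename_injective φ hφ
    rw [h0, map_zero])
  rw [MvPolynomial.aeval_rename] at h1
  exact h1

open Classical in
/-- the restriction of the polynomial ring -/
private noncomputable def rho (K : Type u) [Field K] (g : Fin n' ↪ Fin n) :
    MvPolynomial (Fin n) K →ₐ[K] MvPolynomial (Fin n') K :=
  MvPolynomial.aeval fun v => if h : ∃ v', g v' = v then MvPolynomial.X h.choose else 0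

private theorem rho_X (v' : Fin n') : rho K g (MvPolynomial.X (g v')) = MvPolynomial.X v' := by
  unfold rho
  rw [MvPolynomial.aeval_X]
  have h : ∃ w', g w' = g v' := ⟨v', rfl⟩
  rw [dif_pos h]
  congr 1
  exact g.injective h.choose_spec

private theorem rho_X_not {v : Fin n} (hv : v ∉ Set.range g) : rho K g (MvPolynomial.X v) = 0 := by
  unfold rho
  rw [MvPolynomial.aeval_X, dif_neg]
  rintro ⟨v', hv'⟩
  exact hv ⟨v', hv'⟩

private theorem rho_C (r : K) : rho K g (MvPolynomial.C r) = MvPolynomial.C r := by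
  unfold rho
  rw [MvPolynomial.aeval_C]
  rfl

private theorem rho_mon (F' : Finset (Fin n')) : rho K g (mon K (F'.map g)) = mon K F' := by
  unfold mon
  rw [map_prod, prod_map]
  exact prod_congr rfl fun v _ => rho_X v

private theorem rho_mon_zero {F : Finset (Fin n)} {v : Fin n} (hv : v ∈ F) (hv' : v ∉ Set.range g) :
    rho K g (mon K F) = 0 := by
  unfold mon
  rw [map_prod]
  exact prod_eq_zero hv (rho_X_not hv')

private theorem rename_mon (F' : Finset (Fin n')) :
    MvPolynomial.rename g (mon K F') = mon K (F'.map g) := by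
  unfold mon
  rw [map_prod, prod_map]
  exact prod_congr rfl fun v _ => MvPolynomial.rename_X _ _

private theorem rho_theta (i' : Fin d') :
    rho K g (theta a (e i')) = theta (fun i' v' => a (e i') (g v')) i' := by
  unfold theta
  rw [map_sum]
  have h1 : ∀ v, rho K g (MvPolynomial.C (a (e i') v) * MvPolynomial.X v) =
      MvPolynomial.C (a (e i') v) * rho K g (MvPolynomial.X v) := by
    intro v
    rw [map_mul, rho_C]
  rw [sum_congr rfl fun v _ => h1 v]
  have h2 : ∑ v : Fin n, MvPolynomial.C (a (e i') v) * rho K g (MvPolynomial.X v) =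
      ∑ v ∈ univ.map g, MvPolynomial.C (a (e i') v) * rho K g (MvPolynomial.X v) := by
    symm
    apply sum_subset (subset_univ _)
    intro v _ hv
    rw [rho_X_not, mul_zero]
    rintro ⟨v', hv'⟩
    exact hv (mem_map.mpr ⟨v', mem_univ _, hv'⟩)
  rw [h2, sum_map]
  exact sum_congr rfl fun v' _ => by rw [rho_X]

private theorem rho_mem (s : Sub σ Γ U σ' Γ' e g) {p : MvPolynomial (Fin n) K}
    (hp : p ∈ SRU K σ Γ U) : rho K g p ∈ SRU K σ' Γ' univ := by
  have hle : SRU K σ Γ U ≤ Ideal.comap (rho K g).toRingHom (SRU K σ' Γ' univ) := by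
    unfold SRU
    rw [Ideal.span_le]
    rintro f ⟨F, hF, rfl⟩
    change rho K g (mon K F) ∈ Ideal.span _
    by_cases hr : ∀ v ∈ F, v ∈ Set.range g
    · have hcar : car σ F ⊆ U := by
        unfold car
        rw [biUnion_subset]
        exact fun v hv => (s.hg v).mp (hr v hv)
      obtain ⟨F', rfl⟩ := s.exists_map hcar
      rw [rho_mon]
      apply Ideal.subset_span
      refine ⟨F', Or.inl ?_, rfl⟩
      rcases hF with hF | hF
      · exact fun hc => hF ((s.hΓ F').mp hc)
      · exact absurd hcar hF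
    · push Not at hr
      obtain ⟨v, hv, hv'⟩ := hr
      rw [rho_mon_zero hv hv']
      exact Ideal.zero_mem _
  exact hle hp

private theorem rename_mem (s : Sub σ Γ U σ' Γ' e g) {p : MvPolynomial (Fin n') K}
    (hp : p ∈ SRU K σ' Γ' univ) : MvPolynomial.rename g p ∈ SRU K σ Γ U := by
  have hle : SRU K σ' Γ' univ ≤
      Ideal.comap (MvPolynomial.rename g : _ →ₐ[K] _).toRingHom (SRU K σ Γ U) := by
    unfold SRU
    rw [Ideal.span_le]
    rintro f ⟨F', hF, rfl⟩
    change MvPolynomial.rename g (mon K F') ∈ Ideal.span _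
    rw [rename_mon]
    apply Ideal.subset_span
    refine ⟨F'.map g, Or.inl ?_, rfl⟩
    rcases hF with hF | hF
    · exact fun hc => hF ((s.hΓ F').mpr hc)
    · exact absurd (subset_univ _) hF
  exact hle hp

private theorem rename_rho (s : Sub σ Γ U σ' Γ' e g) (p : MvPolynomial (Fin n) K) :
    MvPolynomial.rename g (rho K g p) - p ∈ SRU K σ Γ U := by
  rw [← Ideal.Quotient.eq]
  have h : ((Ideal.Quotient.mkₐ K (SRU K σ Γ U)).comp
      ((MvPolynomial.rename g).comp (rho K g))) = Ideal.Quotient.mkₐ K (SRU K σ Γ U) := by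
    apply MvPolynomial.algHom_ext
    intro v
    simp only [AlgHom.comp_apply]
    by_cases hv : v ∈ Set.range g
    · obtain ⟨v', rfl⟩ := hv
      rw [rho_X, MvPolynomial.rename_X]
    · rw [rho_X_not hv, map_zero, map_zero]
      symm
      rw [Ideal.Quotient.mkₐ_eq_mk, Ideal.Quotient.eq_zero_iff_mem]
      apply Ideal.subset_span
      refine ⟨{v}, Or.inr ?_, ?_⟩
      · intro hc
        apply hv
        rw [s.hg]
        refine subset_trans ?_ hc
        unfold car
        rw [singleton_biUnion]
      · unfold mon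
        rw [prod_singleton]
  exact congrArg (fun ψ : MvPolynomial (Fin n) K →ₐ[K] _ => ψ p) h

/-- PROOF. Let `ρ : MvPolynomial (Fin n) K → MvPolynomial (Fin n') K` map `X (g v')` to `X v'` and
`X v` to `0` for `v ∉ range g`, and `ι = rename g`. Then `ρ` maps `SRU K σ Γ U` into
`srIdeal K Γ' = SRU K σ' Γ' univ` and `theta a (e i')` to `theta a' i'` (`a' i' v' = a (e i') (g v')`), `ι` maps
`srIdeal K Γ'` into `SRU K σ Γ U`, `ι (theta a' i') - theta a (e i') ∈ SRU K σ Γ U` (the difference is the
sum of the `a (e i') v X v` with `σ v ⊄ U`), and `ι (ρ p) - p ∈ SRU K σ Γ U` (check on monomials; `SRU`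
is an ideal and `ι ∘ ρ` a ring homomorphism: on the variables). Given `y` put
`y' P' = ρ (y (P'.map e))`, apply `h`, and `w P = ι (w' P')` for `P = P'.map e` (for `P ⊆ U`,
`P' = univ.filter fun i' => e i' ∈ P`). The conditions in `JJ _ (∅ \ P) _` are empty (`JJ_empty`). -/
theorem Sub.ke (s : Sub σ Γ U σ' Γ' e g) (hdown : ∀ F ∈ Γ, ∀ G, G ⊆ F → G ∈ Γ)
    (hdown' : ∀ F ∈ Γ', ∀ G, G ⊆ F → G ∈ Γ') {p : ℕ}
    (h : KE (fun i' v' => a (e i') (g v')) σ' Γ' ∅ univ p) : KE a σ Γ ∅ U p := by
  have _ := hdown
  have _ := hdown'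
  intro y _ hy
  have hsd : ∀ P' : Finset (Fin d'), U \ P'.map e = (univ \ P').map e := by
    intro P'
    rw [Finset.map_sdiff, s.he]
  obtain ⟨w', hw1, hw2⟩ := h (fun P' => rho K g (y (P'.map e)))
    (fun P' _ _ => by rw [Finset.empty_sdiff]; exact JJ_empty _)
    (by
      intro Q' _ hQ
      have h1 := hy (Q'.map e) (by rw [← s.he]; exact map_subset_map.mpr (subset_univ _))
        (by rw [card_map]; exact hQ)
      rw [hsd, sum_map] at h1
      have h2 := rho_mem s h1
      rw [map_sum] at h2
      have h3 : ∀ i' ∈ univ \ Q', rho K g (theta a (e i') * y (insert (e i') (Q'.map e))) =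
          theta (fun i' v' => a (e i') (g v')) i' * rho K g (y ((insert i' Q').map e)) := by
        intro i' _
        rw [map_mul, rho_theta, Finset.map_insert]
      rw [sum_congr rfl h3] at h2
      exact h2)
  refine ⟨fun P => MvPolynomial.rename g (w' (univ.filter fun i' => e i' ∈ P)), ?_, ?_⟩
  · intro P _ _
    rw [Finset.empty_sdiff]
    exact JJ_empty _
  · intro P hP hPp
    have hfil : ∀ P' : Finset (Fin d'), (univ.filter fun i' => e i' ∈ P'.map e) = P' := by
      intro P'
      ext i'
      simp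
    obtain ⟨P', rfl⟩ : ∃ P' : Finset (Fin d'), P'.map e = P := by
      refine ⟨univ.filter fun i' => e i' ∈ P, ?_⟩
      ext i
      simp only [mem_map, mem_filter, mem_univ, true_and]
      constructor
      · rintro ⟨i', h1, rfl⟩
        exact h1
      · intro hi
        have h1 := hP hi
        rw [← s.he, mem_map] at h1
        obtain ⟨i', _, rfl⟩ := h1
        exact ⟨i', hi, rfl⟩
    rw [card_map] at hPp
    have h1 := rename_mem s (hw2 P' (subset_univ _) hPp)
    rw [hsd, sum_map]
    simp only [← Finset.map_insert, hfil]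
    rw [map_add, map_sum] at h1
    have h2 := rename_rho s (y (P'.map e))
    have h3 : ∑ i' ∈ univ \ P', (theta a (e i') -
        MvPolynomial.rename g (theta (fun i' v' => a (e i') (g v')) i')) *
          MvPolynomial.rename g (w' (insert i' P')) ∈ SRU K σ Γ U := by
      apply Ideal.sum_mem
      intro i' _
      apply Ideal.mul_mem_right
      have h4 := rename_rho s (theta a (e i'))
      rw [rho_theta] at h4
      rw [← neg_sub]
      exact neg_mem h4
    have h5 : y (P'.map e) + ∑ i' ∈ univ \ P', theta a (e i') *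
          MvPolynomial.rename g (w' (insert i' P')) =
        (MvPolynomial.rename g (rho K g (y (P'.map e))) + ∑ i' ∈ univ \ P',
          MvPolynomial.rename g (theta (fun i' v' => a (e i') (g v')) i' * w' (insert i' P'))) -
        (MvPolynomial.rename g (rho K g (y (P'.map e))) - y (P'.map e)) +
        ∑ i' ∈ univ \ P', (theta a (e i') -
          MvPolynomial.rename g (theta (fun i' v' => a (e i') (g v')) i')) *
          MvPolynomial.rename g (w' (insert i' P')) := by
      have h6 : ∑ i' ∈ univ \ P', theta a (e i') * MvPolynomial.rename g (w' (insert i' P')) =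
          ∑ i' ∈ univ \ P',
            MvPolynomial.rename g (theta (fun i' v' => a (e i') (g v')) i' * w' (insert i' P')) +
          ∑ i' ∈ univ \ P', (theta a (e i') -
            MvPolynomial.rename g (theta (fun i' v' => a (e i') (g v')) i')) *
            MvPolynomial.rename g (w' (insert i' P')) := by
        rw [← sum_add_distrib]
        apply sum_congr rfl
        intro i' _
        rw [map_mul]
        ring
      rw [h6]
      ring
    rw [h5]
    exact add_mem (sub_mem h1 h2) h3

end Pool.Agent.Lib.MP_fd6ff4_co.Six
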