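import Mathlib
import Pool.Agent.Lib.MP_fd6ff4_co.Six.Defs
import Pool.Agent.Lib.MP_fd6ff4_co.Two.Indep

/-!
# Transfer from the generic coefficients over the field with two elements

`Sp` says that a matrix with entries in `Z[a_ij]` has the kernel zero. If this is so over the field
of rational functions over the field with two elements, there is a left inverse up to a factor which
is not zero modulo 2; this gives it for every `Good` family.
-/

set_option autoImplicit false

open Finset

namespace Pool.Agent.Lib.MP_fd6ff4_co.Six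

open Two

universe u

variable {d n : ℕ} {K : Type u} [Field K] {a : Fin d → Fin n → K}
  {Γ : Finset (Finset (Fin n))} {σ : Fin n → Finset (Fin d)}

theorem charP_K2 (σ : Fin n → Finset (Fin d)) : CharP (K2 σ) 2 :=
  charP_of_injective_algebraMap (IsFractionRing.injective (MvPolynomial (Idx σ) (ZMod 2)) (K2 σ)) 2

/-- the generic coefficients over the integers -/
noncomputable def zgen (σ : Fin n → Finset (Fin d)) (i : Fin d) (j : Fin n) :
    MvPolynomial (Idx σ) ℤ :=
  if h : i ∈ σ j then MvPolynomial.X ⟨(i, j), h⟩ else 0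

/-- the columns: the faces with `t` vertices and carrier `univ` -/
abbrev Col (σ : Fin n → Finset (Fin d)) (Γ : Finset (Finset (Fin n))) (t : ℕ) : Type :=
  {N : Finset (Fin n) // N ∈ Γ ∧ #N = t ∧ car σ N = univ}

open Classical in
/-- the matrix of the relations: the row `(N, none)` is the relation `r1` for `N`, the row
`(G, some i)` is the relation `r2` for `G` and `i` -/
noncomputable def zmat (σ : Fin n → Finset (Fin d)) (Γ : Finset (Finset (Fin n))) (t : ℕ) :
    Matrix (Finset (Fin n) × Option (Fin d)) (Col σ Γ t) (MvPolynomial (Idx σ) ℤ) :=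
  fun r N => match r.2 with
    | none => if r.1 = N.1 ∧ ∃ k ∈ N.1, car σ (N.1.erase k) = univ then 1 else 0
    | some i => if r.1 ∈ Γ ∧ #r.1 + 1 = t ∧ car σ r.1 = univ.erase i then
        ∑ k ∈ univ.filter (fun k => i ∈ σ k ∧ insert k r.1 ∈ Γ ∧ insert k r.1 = N.1), zgen σ i k
        else 0

private theorem zmat_none (φ : MvPolynomial (Idx σ) ℤ →+* K) (t : ℕ) (f : Finset (Fin n) → K)
    (G : Finset (Fin n)) :
    ((zmat σ Γ t).map φ).mulVec (fun N => f N.1) (G, none) = 0 ↔
      (G ∈ Γ → #G = t → car σ G = univ → ∀ k ∈ G, car σ (G.erase k) = univ → f G = 0) := by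
  classical
  have h0 : ((zmat σ Γ t).map φ).mulVec (fun N => f N.1) (G, none) =
      ∑ N : Col σ Γ t, (if G = N.1 ∧ ∃ k ∈ N.1, car σ (N.1.erase k) = univ then f N.1 else 0) := by
    rw [Matrix.mulVec, dotProduct]
    refine Finset.sum_congr rfl fun N _ => ?_
    simp only [Matrix.map_apply, zmat]
    split_ifs <;> simp
  rw [h0]
  constructor
  · intro h hG ht hc k hk hck
    rw [Finset.sum_eq_single (⟨G, hG, ht, hc⟩ : Col σ Γ t), if_pos ⟨rfl, k, hk, hck⟩] at h
    · exact h
    · intro N _ hN
      refine if_neg fun h1 => hN ?_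
      exact Subtype.ext h1.1.symm
    · intro h1
      exact absurd (Finset.mem_univ _) h1
  · intro h
    refine Finset.sum_eq_zero fun N _ => ?_
    by_cases h1 : G = N.1 ∧ ∃ k ∈ N.1, car σ (N.1.erase k) = univ
    · obtain ⟨h2, k, hk, hck⟩ := h1
      rw [if_pos ⟨h2, k, hk, hck⟩, ← h2]
      rw [← h2] at hk hck
      exact h (h2 ▸ N.2.1) (h2 ▸ N.2.2.1) (h2 ▸ N.2.2.2) k hk hck
    · rw [if_neg h1]

private theorem zmat_some (φ : MvPolynomial (Idx σ) ℤ →+* K) (hφ : ∀ i j, φ (zgen σ i j) = a i j)
    (t : ℕ) (f : Finset (Fin n) → K) (G : Finset (Fin n)) (i : Fin d) :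
    ((zmat σ Γ t).map φ).mulVec (fun N => f N.1) (G, some i) = 0 ↔
      (G ∈ Γ → #G + 1 = t → car σ G = univ.erase i →
        ∑ k ∈ univ.filter (fun k => i ∈ σ k ∧ σ k ⊆ univ ∧ insert k G ∈ Γ),
          a i k * f (insert k G) = 0) := by
  classical
  by_cases hc : G ∈ Γ ∧ #G + 1 = t ∧ car σ G = univ.erase i
  · have h0 : ((zmat σ Γ t).map φ).mulVec (fun N => f N.1) (G, some i) =
        ∑ k ∈ univ.filter (fun k => i ∈ σ k ∧ σ k ⊆ univ ∧ insert k G ∈ Γ),
          a i k * f (insert k G) := by
      rw [Matrix.mulVec, dotProduct]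
      have h1 : ∀ N : Col σ Γ t, ((zmat σ Γ t).map φ) (G, some i) N * f N.1 =
          ∑ k ∈ univ.filter (fun k => i ∈ σ k ∧ σ k ⊆ univ ∧ insert k G ∈ Γ),
            if insert k G = N.1 then a i k * f (insert k G) else 0 := by
        intro N
        simp only [Matrix.map_apply, zmat]
        rw [if_pos hc, map_sum, Finset.sum_mul, ← Finset.sum_filter, Finset.filter_filter]
        refine Finset.sum_congr ?_ ?_
        · ext k
          simp only [Finset.mem_filter, Finset.mem_univ, true_and, Finset.subset_univ]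
          tauto
        · intro k hk
          rw [Finset.mem_filter] at hk
          rw [hφ, hk.2.2]
      rw [Finset.sum_congr rfl fun N _ => h1 N, Finset.sum_comm]
      refine Finset.sum_congr rfl fun k hk => ?_
      rw [Finset.mem_filter] at hk
      obtain ⟨-, hik, -, hkG⟩ := hk
      have hnk : k ∉ G := by
        intro hkG'
        have : i ∈ car σ G := by
          rw [car, Finset.mem_biUnion]
          exact ⟨k, hkG', hik⟩
        rw [hc.2.2] at this
        exact Finset.notMem_erase i univ this
      have hcol : insert k G ∈ Γ ∧ #(insert k G) = t ∧ car σ (insert k G) = univ := by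
        refine ⟨hkG, ?_, ?_⟩
        · rw [Finset.card_insert_of_notMem hnk, hc.2.1]
        · rw [Finset.eq_univ_iff_forall]
          intro j
          rw [car, Finset.biUnion_insert, Finset.mem_union]
          by_cases hj : j = i
          · left
            rw [hj]
            exact hik
          · right
            change j ∈ car σ G
            rw [hc.2.2]
            exact Finset.mem_erase.2 ⟨hj, Finset.mem_univ j⟩
      rw [Finset.sum_eq_single (⟨insert k G, hcol⟩ : Col σ Γ t), if_pos rfl]
      · intro N _ hN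
        exact if_neg fun h2 => hN (Subtype.ext h2.symm)
      · intro h2
        exact absurd (Finset.mem_univ _) h2
    rw [h0]
    constructor
    · intro h _ _ _
      exact h
    · intro h
      exact h hc.1 hc.2.1 hc.2.2
  · constructor
    · intro _ h1 h2 h3
      exact absurd ⟨h1, h2, h3⟩ hc
    · intro _
      rw [Matrix.mulVec, dotProduct]
      refine Finset.sum_eq_zero fun N _ => ?_
      simp only [Matrix.map_apply, zmat]
      rw [if_neg hc, map_zero, zero_mul]

private theorem rels_iff (φ : MvPolynomial (Idx σ) ℤ →+* K) (hφ : ∀ i j, φ (zgen σ i j) = a i j)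
    (t : ℕ) (f : Finset (Fin n) → K) :
    Rels a σ Γ univ t f ↔ ((zmat σ Γ t).map φ).mulVec (fun N => f N.1) = 0 := by
  constructor
  · intro h
    ext ⟨G, o⟩
    cases o with
    | none =>
      rw [Pi.zero_apply, zmat_none]
      intro hG ht hc k hk hck
      exact h.r1 G hG ht hc k hk hck
    | some i =>
      rw [Pi.zero_apply, zmat_some φ hφ]
      intro hG ht hc
      exact h.r2 G hG ht i (Finset.mem_univ i) hc
  · intro h
    refine ⟨fun N hN ht hc k hk hck => ?_, fun N hN ht i _ hc => ?_⟩
    · exact (zmat_none φ t f N).1 (congrFun h (N, none)) hN ht hc k hk hck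
    · exact (zmat_some φ hφ t f N i).1 (congrFun h (N, some i)) hN ht hc

/-- PROOF. If `f` satisfies the relations then its restriction to the columns is in the kernel, and
conversely (extend by `0`; for `G` as in the row `(G, some i)` and `i ∈ σ k`, `insert k G ∈ Γ` the face
`insert k G` is a column: `k ∉ G`, `car σ (insert k G) = univ`). -/
theorem sp_iff (φ : MvPolynomial (Idx σ) ℤ →+* K) (hφ : ∀ i j, φ (zgen σ i j) = a i j) (t : ℕ) :
    Sp a σ Γ univ t ↔
      ∀ x : Col σ Γ t → K, ((zmat σ Γ t).map φ).mulVec x = 0 → x = 0 := by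
  classical
  constructor
  · intro h x hx
    set f : Finset (Fin n) → K := fun N =>
      if hN : N ∈ Γ ∧ #N = t ∧ car σ N = univ then x ⟨N, hN⟩ else 0 with hf
    have hfx : (fun N : Col σ Γ t => f N.1) = x := by
      funext N
      rw [hf]
      exact dif_pos N.2
    have hr : Rels a σ Γ univ t f := by
      rw [rels_iff φ hφ, hfx]
      exact hx
    funext N
    rw [← hfx, Pi.zero_apply]
    exact h f hr N.1 N.2.1 N.2.2.1 N.2.2.2
  · intro h f hf N hN ht hc
    have h1 := h (fun N => f N.1) ((rels_iff φ hφ t f).1 hf)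
    exact congrFun h1 ⟨N, hN, ht, hc⟩

/-- Linear algebra. PROOF. The linear map `x ↦ M₂ x` over the fraction field (`M₂` the image of `M`) is
injective, so it has a left inverse (`LinearMap.exists_leftInverse_of_injective` or a matrix
version), a matrix `B₀` with `B₀ * M₂ = 1`. With a common denominator `b ≠ 0` of the entries
(`IsLocalization.exist_integer_multiples_of_finset`, or `exist_integer_multiples`) we get `B₁` over
`MvPolynomial ι (ZMod 2)` with `B₁ * (M mod 2) = b • 1`; lift `B₁` to `B` over the integers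
(`MvPolynomial.map_surjective`). The determinant of `B * M` is modulo 2 equal to `b ^ #columns`. -/
theorem exists_left {ι R C : Type} [Fintype R] [Fintype C] [DecidableEq C] [DecidableEq R]
    (M : Matrix R C (MvPolynomial ι ℤ))
    (h : ∀ x : C → FractionRing (MvPolynomial ι (ZMod 2)),
      (M.map ((algebraMap (MvPolynomial ι (ZMod 2)) (FractionRing (MvPolynomial ι (ZMod 2)))).comp
        (MvPolynomial.map (Int.castRingHom (ZMod 2))))).mulVec x = 0 → x = 0) :
    ∃ B : Matrix C R (MvPolynomial ι ℤ),
      MvPolynomial.map (Int.castRingHom (ZMod 2)) (B * M).det ≠ 0 := by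
  set A := MvPolynomial ι (ZMod 2) with hA
  set π : MvPolynomial ι ℤ →+* A := MvPolynomial.map (Int.castRingHom (ZMod 2)) with hπ
  set M₂ : Matrix R C (FractionRing A) := M.map ((algebraMap A (FractionRing A)).comp π) with hM₂
  obtain ⟨g, hg⟩ := LinearMap.exists_leftInverse_of_injective (Matrix.toLin' M₂)
    (LinearMap.ker_eq_bot'.2 fun x hx => h x (by rw [← Matrix.toLin'_apply]; exact hx))
  have hB₀ : LinearMap.toMatrix' g * M₂ = 1 := by
    have h1 := congrArg LinearMap.toMatrix' hg
    rw [LinearMap.toMatrix'_comp, LinearMap.toMatrix'_toLin', LinearMap.toMatrix'_id] at h1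
    exact h1
  obtain ⟨b, hb⟩ := IsLocalization.exist_integer_multiples_of_finite (nonZeroDivisors A)
    (fun p : C × R => LinearMap.toMatrix' g p.1 p.2)
  choose B₁ hB₁ using hb
  have hsurj : Function.Surjective π :=
    MvPolynomial.map_surjective _ (ZMod.intCast_surjective (n := 2))
  choose B hB using fun p : C × R => hsurj (B₁ p)
  set Bm : Matrix C R (MvPolynomial ι ℤ) := Matrix.of fun i j => B (i, j) with hBm
  refine ⟨Bm, ?_⟩
  have hmap : Bm.map π * M.map π = (b : A) • (1 : Matrix C C A) := by
    have hinj : Function.Injective (algebraMap A (FractionRing A)) :=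
      IsFractionRing.injective A (FractionRing A)
    refine Matrix.ext fun i j => hinj ?_
    have h2 := congrFun (congrFun hB₀ i) j
    rw [Matrix.mul_apply] at h2
    rw [Matrix.mul_apply, map_sum, Matrix.smul_apply, smul_eq_mul, map_mul]
    have h3 : ∀ x, algebraMap A (FractionRing A) (Bm.map π i x * (M.map π) x j) =
        algebraMap A (FractionRing A) b * (LinearMap.toMatrix' g i x * M₂ x j) := by
      intro x
      rw [map_mul, Matrix.map_apply, Matrix.map_apply, hBm, Matrix.of_apply, hB, hB₁,
        ← mul_assoc, Algebra.smul_def]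
      rfl
    rw [Finset.sum_congr rfl fun x _ => h3 x, ← Finset.mul_sum, h2]
    congr 1
    by_cases hij : i = j
    · rw [hij, Matrix.one_apply_eq, Matrix.one_apply_eq, map_one]
    · rw [Matrix.one_apply_ne hij, Matrix.one_apply_ne hij, map_zero]
  have hdet : π (Bm * M).det = (b : A) ^ Fintype.card C := by
    rw [RingHom.map_det, RingHom.mapMatrix_apply, Matrix.map_mul, hmap, Matrix.det_smul,
      Matrix.det_one, mul_one]
  rw [hdet]
  exact pow_ne_zero _ (nonZeroDivisors.ne_zero b.2)

private theorem aeval_eq (φ : MvPolynomial (Idx σ) ℤ →+* K) (b : Idx σ → K)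
    (h : ∀ p, φ (MvPolynomial.X p) = b p) (P : MvPolynomial (Idx σ) ℤ) :
    MvPolynomial.aeval b P = φ P := by
  have h1 : ((MvPolynomial.aeval b : MvPolynomial (Idx σ) ℤ →ₐ[ℤ] K) :
      MvPolynomial (Idx σ) ℤ →+* K) = φ :=
    MvPolynomial.ringHom_ext' (RingHom.ext_int _ _) fun p =>
      (MvPolynomial.aeval_X _ _).trans (h p).symm
  exact RingHom.congr_fun h1 P

/-- PROOF. `sp_iff` for both fields, `exists_left`: `(B * M).det` does not vanish at `a` by `Good`, so
`x = 0` follows from `(B * M)(a) x = 0` (`Matrix.eq_zero_of_mulVec_eq_zero`, `RingHom.map_det`). -/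
theorem sp_transfer {t : ℕ} (h : Sp (gen σ) σ Γ univ t) (ha : Good a σ) : Sp a σ Γ univ t := by
  classical
  have h1 := (sp_iff ((algebraMap (MvPolynomial (Idx σ) (ZMod 2)) (K2 σ)).comp
    (MvPolynomial.map (Int.castRingHom (ZMod 2)))) (a := gen σ) (fun i j => by
      by_cases hij : i ∈ σ j
      · rw [zgen, gen, dif_pos hij, dif_pos hij, RingHom.comp_apply, MvPolynomial.map_X]
      · rw [zgen, gen, dif_neg hij, dif_neg hij, map_zero]) t).1 h
  obtain ⟨B, hB⟩ := exists_left (zmat σ Γ t) h1
  set φ : MvPolynomial (Idx σ) ℤ →+* K :=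
    (MvPolynomial.aeval (fun p : Idx σ => a p.1.1 p.1.2) :
      MvPolynomial (Idx σ) ℤ →ₐ[ℤ] K).toRingHom with hφ
  refine (sp_iff φ (fun i j => ?_) t).2 fun x hx => ?_
  · by_cases hij : i ∈ σ j
    · rw [zgen, dif_pos hij]
      exact MvPolynomial.aeval_X _ _
    · rw [zgen, dif_neg hij, map_zero, ha.1 i j hij]
  · have h2 : φ (B * zmat σ Γ t).det ≠ 0 := ha.2 _ hB
    rw [RingHom.map_det, RingHom.mapMatrix_apply, Matrix.map_mul] at h2
    refine Matrix.eq_zero_of_mulVec_eq_zero h2 ?_
    rw [← Matrix.mulVec_mulVec, hx, Matrix.mulVec_zero]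

/-- PROOF. `aeval P` at the generic coefficients is the image of `P` modulo 2 (`MvPolynomial.aeval`
is determined by the variables), `algebraMap` is injective. -/
theorem good_gen : Good (gen σ) σ := by
  refine ⟨fun i j hij => dif_neg hij, fun P hP h0 => hP ?_⟩
  have h2 := aeval_eq ((algebraMap (MvPolynomial (Idx σ) (ZMod 2)) (K2 σ)).comp
    (MvPolynomial.map (Int.castRingHom (ZMod 2)))) (fun p : Idx σ => gen σ p.1.1 p.1.2)
    (fun p => by
      rw [RingHom.comp_apply, MvPolynomial.map_X]
      rw [gen, dif_pos p.2]) P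
  rw [RingHom.comp_apply] at h2
  refine IsFractionRing.injective (MvPolynomial (Idx σ) (ZMod 2)) (K2 σ) ?_
  rw [map_zero, ← h2]
  exact h0

/-- PROOF. The image of `P` in `MvPolynomial (Idx σ) k` is not zero: for `CharP k 2` it is the image of
`P` modulo 2 under the injective map `ZMod 2 → k`; for `CharZero k` the map `ℤ → k` is injective and
`P ≠ 0`. Its value at the `a i j` is the value of `P`. -/
theorem good_of {k : Type*} [Field k] [Algebra k K] (hk : CharP k 2 ∨ CharZero k)
    (hind : AlgebraicIndependent k fun p : Idx σ => a p.1.1 p.1.2)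
    (hzero : ∀ i j, i ∉ σ j → a i j = 0) : Good a σ := by
  refine ⟨hzero, fun P hP h0 => ?_⟩
  have hPk : MvPolynomial.map (Int.castRingHom k) P ≠ 0 := by
    rcases hk with hk | hk
    · have h1 : Int.castRingHom k =
          (ZMod.castHom (dvd_refl 2) k).comp (Int.castRingHom (ZMod 2)) := RingHom.ext_int _ _
      rw [h1, ← MvPolynomial.map_map]
      intro h2
      refine hP (MvPolynomial.map_injective _ (RingHom.injective (ZMod.castHom (dvd_refl 2) k)) ?_)
      rw [h2, map_zero]
    · intro h2
      have h3 : P = 0 := by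
        refine MvPolynomial.map_injective (Int.castRingHom k) Int.cast_injective ?_
        rw [h2, map_zero]
      rw [h3, map_zero] at hP
      exact hP rfl
  have h2 := aeval_eq (((MvPolynomial.aeval (fun p : Idx σ => a p.1.1 p.1.2) :
      MvPolynomial (Idx σ) k →ₐ[k] K) : MvPolynomial (Idx σ) k →+* K).comp
        (MvPolynomial.map (Int.castRingHom k))) (fun p : Idx σ => a p.1.1 p.1.2)
    (fun p => by
      rw [RingHom.comp_apply, MvPolynomial.map_X]
      exact MvPolynomial.aeval_X _ _) P
  refine hPk (hind ?_)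
  rw [map_zero]
  exact h2.symm.trans h0

/-- PROOF. A polynomial `Q ≠ 0` over `ZMod 2` is the image of some `P` over `ℤ`, and the value of `Q` is
the value of `P`. -/
theorem Good.indep [CharP K 2] [Algebra (ZMod 2) K] (h : Good a σ) :
    AlgebraicIndependent (ZMod 2) fun p : Idx σ => a p.1.1 p.1.2 := by
  rw [algebraicIndependent_iff]
  intro Q hQ
  obtain ⟨P, rfl⟩ := MvPolynomial.map_surjective (Int.castRingHom (ZMod 2))
    (ZMod.intCast_surjective (n := 2)) Q
  by_contra hP
  refine h.2 P hP ?_
  have h2 := aeval_eq (((MvPolynomial.aeval (fun p : Idx σ => a p.1.1 p.1.2) :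
      MvPolynomial (Idx σ) (ZMod 2) →ₐ[ZMod 2] K) : MvPolynomial (Idx σ) (ZMod 2) →+* K).comp
        (MvPolynomial.map (Int.castRingHom (ZMod 2)))) (fun p : Idx σ => a p.1.1 p.1.2)
    (fun p => by
      rw [RingHom.comp_apply, MvPolynomial.map_X]
      exact MvPolynomial.aeval_X _ _) P
  exact h2.trans hQ

/-- PROOF. `pdet_ne_zero` with `k = ZMod 2`, `Good.indep` (`ZMod.algebra K 2`). -/
theorem Good.pdet [CharP K 2] (h : Good a σ) (hB : Ball Γ σ) :
    ∀ F ∈ Γ, #F = d → pdet a F ≠ 0 := by
  let _ : Algebra (ZMod 2) K := ZMod.algebra K 2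
  intro F hF hFd
  exact pdet_ne_zero (k := ZMod 2) h.indep h.1 hB hF hFd

/-- PROOF. `indep_squares` for `k = ZMod 2`: the generic coefficients are algebraically independent
(`good_gen`, `Good.indep`) and generate the field of rational functions (`IntermediateField.adjoin`
contains the images of all the polynomials and their quotients, `IsFractionRing.div_surjective`). -/
theorem gen_squares (c : (Fin d → Fin n) → K2 σ)
    (hc : ∑ I : Fin d → Fin n, (∏ i, gen σ i (I i)) * c I ^ 2 = 0) (I : Fin d → Fin n)
    (hI : ∀ i, i ∈ σ (I i)) : c I = 0 := by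
  have := charP_K2 σ
  refine indep_squares (k := ZMod 2) good_gen.indep ?_ good_gen.1 c hc I hI
  have hp : ∀ p : MvPolynomial (Idx σ) (ZMod 2),
      algebraMap (MvPolynomial (Idx σ) (ZMod 2)) (K2 σ) p ∈
        IntermediateField.adjoin (ZMod 2) (Set.range fun p : Idx σ => gen σ p.1.1 p.1.2) := by
    intro p
    induction p using MvPolynomial.induction_on with
    | C r =>
      have h1 : algebraMap (MvPolynomial (Idx σ) (ZMod 2)) (K2 σ) (MvPolynomial.C r) =
          algebraMap (ZMod 2) (K2 σ) r := by
        rw [IsScalarTower.algebraMap_apply (ZMod 2) (MvPolynomial (Idx σ) (ZMod 2)) (K2 σ)]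
        rfl
      rw [h1]
      exact IntermediateField.algebraMap_mem _ r
    | add p q hp hq =>
      rw [map_add]
      exact add_mem hp hq
    | mul_X p x hp =>
      rw [map_mul]
      refine mul_mem hp (IntermediateField.subset_adjoin _ _ ⟨x, ?_⟩)
      change gen σ x.1.1 x.1.2 = _
      rw [gen, dif_pos x.2]
  rw [eq_top_iff]
  intro x _
  obtain ⟨p, q, -, rfl⟩ := IsFractionRing.div_surjective (A := MvPolynomial (Idx σ) (ZMod 2)) x
  exact div_mem (hp p) (hp q)

end Pool.Agent.Lib.MP_fd6ff4_co.Six
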