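import Mathlib
import Pool.Agent.Lib.MP_fd6ff4_co.Six.ProjInt
import Pool.Agent.Lib.MP_fd6ff4_co.Six.Koszul
import Pool.Agent.Lib.MP_fd6ff4_co.Six.Ideals
import Pool.Agent.Lib.MP_fd6ff4_co.Six.SubB
import Pool.Agent.Lib.MP_fd6ff4_co.Six.SubC
import Pool.Agent.Lib.MP_fd6ff4_co.Six.Transfer

/-!
# The Koszul complex of the face ring of `Γ_U` is exact
-/

set_option autoImplicit false

open Finset

namespace Pool.Agent.Lib.MP_fd6ff4_co.Six

open Two

universe u

variable {d n : ℕ} {K : Type u} [Field K] {a : Fin d → Fin n → K}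
  {Γ : Finset (Finset (Fin n))} {σ : Fin n → Finset (Fin d)}

/-- PROOF. If `d = 0` there is no `P` with `#P = p`. Otherwise apply `koszul_exact` to the module
`Z0 a (intr σ Γ)` and `z P = tau a (intr σ Γ) (y P)` (`tau_int_mem`; the hypothesis by
`tau_int_theta`, `tau_int_eq_zero` and `SRU_univ`), lift the result with `exists_tau_int`;
characteristic 2. The conditions `JJ` are empty (`JJ_empty`). -/
theorem ke_base [CharP K 2] (h : Ball Γ σ) (hdet : ∀ F ∈ Γ, #F = d → pdet a F ≠ 0) {p : ℕ}
    (hp : 1 ≤ p) : KE a σ Γ ∅ univ p := by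
  classical
  intro y _ hy
  have h2 : ∀ x : MvPolynomial (Fin n) K, x + x = 0 := by
    intro x
    have h3 : (2 : MvPolynomial (Fin n) K) = 0 := by
      have h4 : (2 : K) = 0 := by exact_mod_cast CharP.cast_eq_zero K 2
      have h5 : (2 : MvPolynomial (Fin n) K) = MvPolynomial.C (2 : K) := (map_ofNat _ 2).symm
      rw [h5, h4, map_zero]
    rw [← two_mul, h3, zero_mul]
  rcases Nat.eq_zero_or_pos d with hd | hd
  · subst hd
    refine ⟨fun _ => 0, fun P _ _ => zero_mem _, fun P _ hP => ?_⟩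
    have h3 : P = ∅ := by
      ext i
      exact i.elim0
    rw [h3, card_empty] at hP
    omega
  · have : Module.Projective (MvPolynomial (Fin d) K) (Z0 a (intr σ Γ)) :=
      int_projective h hdet hd
    let z : Finset (Fin d) → Z0 a (intr σ Γ) := fun P =>
      ⟨tau a (intr σ Γ) (y P), tau_int_mem h hdet (y P)⟩
    obtain ⟨w, hw⟩ := koszul_exact (M := Z0 a (intr σ Γ)) hp z (by
      intro Q hQ
      apply Subtype.ext
      have h3 := hy Q (subset_univ _) hQ
      rw [SRU_univ, ← tau_int_eq_zero h hdet, map_sum] at h3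
      rw [Submodule.coe_sum]
      refine Eq.trans (Finset.sum_congr rfl fun i _ => ?_) h3
      rw [tau_int_theta hdet]
      exact Submodule.coe_smul _ _)
    choose x hx using fun P : Finset (Fin d) => exists_tau_int h hdet (w P).2
    refine ⟨x, fun P _ _ => ?_, fun P _ hP => ?_⟩
    · rw [empty_sdiff]
      exact JJ_empty _
    · rw [SRU_univ, ← tau_int_eq_zero h hdet, map_add, map_sum]
      have h3 := congrArg Subtype.val (hw P hP)
      rw [Submodule.coe_sum] at h3
      have h4 : ∑ i ∈ univ \ P, tau a (intr σ Γ) (theta a i * x (insert i P)) =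
          tau a (intr σ Γ) (y P) := by
        refine Eq.trans (Finset.sum_congr rfl fun i _ => ?_) h3.symm
        rw [tau_int_theta hdet, hx]
        rfl
      rw [h4, ← map_add, h2, map_zero]

/-- PROOF. `exists_sub`, `Sub.ball`, `Sub.good`, `Good.pdet`, `ke_base` for `Γ'`, `Sub.ke`. -/
theorem ke_sub [CharP K 2] (h : Ball Γ σ) (ha : Good a σ) (U : Finset (Fin d)) {p : ℕ}
    (hp : 1 ≤ p) : KE a σ Γ ∅ U p := by
  obtain ⟨n', σ', Γ', e, g, s⟩ := exists_sub σ Γ U
  exact s.ke h.down (s.ball h).down (ke_base (s.ball h) ((s.good ha).pdet (s.ball h)) hp)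

end Pool.Agent.Lib.MP_fd6ff4_co.Six
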