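import Mathlib
import Pool.Agent.Lib.MP_fd6ff4_co.Six.Ideals

/-!
# The twisted Koszul complexes: induction on `W`
-/

set_option autoImplicit false

open Finset

namespace Pool.Agent.Lib.MP_fd6ff4_co.Six

open Two

universe u

variable {d n : ℕ} {K : Type u} [Field K] {a : Fin d → Fin n → K}
  {Γ : Finset (Finset (Fin n))} {σ : Fin n → Finset (Fin d)}

/-- In characteristic 2 the sum over the ordered pairs of a symmetric function with zero diagonal
vanishes: here the sum over `i ≠ l` outside `P` of `θ_i θ_l v(P + i + l)`. PROOF.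
`Finset.sum_involution` on the pairs `(i, l)` (or `Finset.sum_comm` with `i < l`), `insert_comm`, and
`x + x = 0` (`CharTwo.add_self_eq_zero`; `MvPolynomial (Fin n) K` has characteristic 2). -/
theorem sum_sum_eq_zero [CharP K 2] (T P : Finset (Fin d))
    (v : Finset (Fin d) → MvPolynomial (Fin n) K) :
    ∑ i ∈ T \ P, theta a i * ∑ l ∈ T \ insert i P, theta a l * v (insert l (insert i P)) = 0 := by
  simp_rw [Finset.mul_sum]
  rw [Finset.sum_sigma']
  refine Finset.sum_involution (fun x _ => ⟨x.2, x.1⟩) ?_ ?_ ?_ ?_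
  · rintro ⟨i, l⟩ _
    simp only
    rw [insert_comm i l P, mul_left_comm (theta a l)]
    exact CharTwo.add_self_eq_zero _
  · rintro ⟨i, l⟩ h _ h2
    simp only [mem_sigma, mem_sdiff, mem_insert, not_or] at h
    simp only [Sigma.mk.injEq, heq_eq_eq] at h2
    exact h.2.2.1 h2.1
  · rintro ⟨i, l⟩ h
    simp only [mem_sigma, mem_sdiff, mem_insert, not_or] at h ⊢
    exact ⟨⟨h.2.1, h.2.2.2⟩, h.1.1, fun h3 => h.2.2.1 h3.symm, h.1.2⟩
  · rintro ⟨i, l⟩ _
    rfl

private theorem SRU_anti (hdown : ∀ F ∈ Γ, ∀ G, G ⊆ F → G ∈ Γ) {U U' : Finset (Fin d)}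
    (h : U' ⊆ U) : SRU K σ Γ U ≤ SRU K σ Γ U' := by
  intro p hp
  rw [mem_SRU hdown] at hp ⊢
  exact fun M h1 h2 => hp M h1 (h2.trans h)

private theorem JJ_anti (hdown : ∀ F ∈ Γ, ∀ G, G ⊆ F → G ∈ Γ) {W U U' : Finset (Fin d)}
    (h : U' ⊆ U) : JJ K σ Γ W U ≤ JJ K σ Γ W U' := by
  intro p hp
  rw [mem_JJ hdown] at hp ⊢
  exact fun M h1 h2 h3 => hp M h1 (h2.trans h) h3

private theorem sum_sdiff {U Q : Finset (Fin d)} {j : Fin d} (hjU : j ∈ U) (hjQ : j ∉ Q)
    (f : Fin d → MvPolynomial (Fin n) K) :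
    ∑ i ∈ U \ Q, f i = f j + ∑ i ∈ U.erase j \ Q, f i := by
  have h : U \ Q = insert j (U.erase j \ Q) := by
    ext i
    simp only [mem_sdiff, mem_insert, mem_erase]
    by_cases hij : i = j
    · subst hij
      simp [hjU, hjQ]
    · simp [hij]
  rw [h, sum_insert (by simp)]

/-- The common part of `ke_step` and `kl_aux`. -/
private theorem lift_step [CharP K 2] (hdown : ∀ F ∈ Γ, ∀ G, G ⊆ F → G ∈ Γ)
    (hzero : ∀ i j, i ∉ σ j → a i j = 0) {W U : Finset (Fin d)} {j : Fin d}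
    (hjU : j ∈ U) {p : ℕ}
    (ke2 : KE a σ Γ W (U.erase j) (p + 1)) (w : Finset (Fin d) → MvPolynomial (Fin n) K)
    (hw : ∀ P ⊆ U, #P = p + 1 → w P ∈ JJ K σ Γ (W \ P) U)
    (hcyc : ∀ Q ⊆ U.erase j, #Q = p →
      ∑ i ∈ U.erase j \ Q, theta a i * w (insert i Q) ∈ SRU K σ Γ (U.erase j)) :
    ∃ w' : Finset (Fin d) → MvPolynomial (Fin n) K,
      (∀ P ⊆ U, #P = p + 1 → w' P ∈ JJ K σ Γ (insert j W \ P) U) ∧
      ∀ P : Finset (Fin d), ∑ i ∈ U \ P, theta a i * w' (insert i P) =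
        ∑ i ∈ U \ P, theta a i * w (insert i P) := by
  obtain ⟨v0, hv0, hwv0⟩ := ke2 w
    (fun P hP hc => JJ_anti hdown (erase_subset j U) (hw P (hP.trans (erase_subset j U)) hc))
    (fun Q hQ hc => hcyc Q hQ (by omega))
  have hlift : ∀ P : Finset (Fin d), ∃ q : MvPolynomial (Fin n) K,
      (P ⊆ U.erase j → #P = p + 2 →
        q ∈ JJ K σ Γ (W \ P) U ∧ q - v0 P ∈ SRU K σ Γ (U.erase j)) ∧ (j ∈ P → q = 0) := by
    intro P
    by_cases h : P ⊆ U.erase j ∧ #P = p + 2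
    · obtain ⟨q, hq1, hq2⟩ := exists_lift (U := U) hdown (hv0 P h.1 h.2)
      exact ⟨q, fun _ _ => ⟨hq1, hq2⟩, fun hj => absurd (h.1 hj) (notMem_erase j U)⟩
    · exact ⟨0, fun h1 h2 => absurd ⟨h1, h2⟩ h, fun _ => rfl⟩
  choose v hv1 hv2 using hlift
  refine ⟨fun P => w P + ∑ i ∈ U \ P, theta a i * v (insert i P), fun P hP hc => ?_,
    fun P => ?_⟩
  · by_cases hj : j ∈ P
    · have h1 : ∑ i ∈ U \ P, theta a i * v (insert i P) = 0 := by
        refine sum_eq_zero fun i _ => ?_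
        rw [hv2 _ (mem_insert_of_mem hj), mul_zero]
      simp only [h1, add_zero]
      rw [insert_sdiff_of_mem _ hj]
      exact hw P hP hc
    · have hPe : P ⊆ U.erase j := fun i hi => mem_erase.2 ⟨fun h => hj (h ▸ hi), hP hi⟩
      rw [insert_sdiff_of_notMem _ hj, mem_JJ_insert hdown]
      beta_reduce
      have hins : ∀ i ∈ U.erase j \ P, insert i P ⊆ U.erase j ∧ #(insert i P) = p + 2 := by
        intro i hi
        rw [mem_sdiff] at hi
        refine ⟨insert_subset hi.1 hPe, ?_⟩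
        rw [card_insert_of_notMem hi.2]
        omega
      have hsum : ∑ i ∈ U \ P, theta a i * v (insert i P) =
          ∑ i ∈ U.erase j \ P, theta a i * v (insert i P) := by
        rw [sum_sdiff hjU hj, hv2 _ (mem_insert_self j P), mul_zero, zero_add]
      constructor
      · refine Ideal.add_mem _ (hw P hP hc) ?_
        rw [hsum]
        refine Ideal.sum_mem _ fun i hi => ?_
        have h1 := (hv1 _ (hins i hi).1 (hins i hi).2).1
        refine JJ_mono ?_ (theta_mul_mem_JJ hzero (j := i) h1)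
        intro x hx
        rw [mem_sdiff] at hx
        rw [mem_insert, mem_sdiff, mem_insert]
        by_cases hxi : x = i
        · exact Or.inl hxi
        · exact Or.inr ⟨hx.1, not_or.2 ⟨hxi, hx.2⟩⟩
      · rw [hsum]
        have h1 := hwv0 P hPe hc
        have h2 : w P + ∑ i ∈ U.erase j \ P, theta a i * v (insert i P) =
            (w P + ∑ i ∈ U.erase j \ P, theta a i * v0 (insert i P)) +
            ∑ i ∈ U.erase j \ P, theta a i * (v (insert i P) - v0 (insert i P)) := by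
          rw [add_assoc, ← sum_add_distrib]
          congr 1
          refine sum_congr rfl fun i _ => ?_
          ring
        rw [h2]
        refine Ideal.add_mem _ h1 (Ideal.sum_mem _ fun i hi => Ideal.mul_mem_left _ _ ?_)
        exact (hv1 _ (hins i hi).1 (hins i hi).2).2
  · have h0 := sum_sum_eq_zero (a := a) U P v
    simp only [mul_add, sum_add_distrib]
    rw [h0, add_zero]

/-- The step of the induction. PROOF. Let `y` be a cycle for `insert j W`; by `JJ_mono` it is one for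
`W` (`W \ P ⊆ insert j W \ P`), so `ke1` gives `w` with `w P' ∈ JJ (W \ P') U` for `#P' = p + 1` and
`y P + ∑ θ_i w(P + i) ∈ SRU U`. For `P ⊆ U.erase j`, `#P = p`, `y P ∈ SRU (U.erase j)` by `mem_JJ_insert`
(`insert j W \ P = insert j (W \ P)`) and `θ_j ∈ SRU (U.erase j)` by `theta_mem_SRU`, so
`∑ i ∈ (U.erase j) \ P, θ_i w(P + i) ∈ SRU (U.erase j)` (`SRU U ≤ SRU (U.erase j)` by `mem_SRU`). So `w` is a
cycle for `KE W (U.erase j) (p + 1)` (`JJ (W \ P') U ≤ JJ (W \ P') (U.erase j)` by `mem_JJ`), and `ke2`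
gives `v` with `v P'' ∈ JJ (W \ P'') (U.erase j)` for `P'' ⊆ U.erase j`, `#P'' = p + 2`, and
`w P' + ∑ i ∈ (U.erase j) \ P', θ_i v(P' + i) ∈ SRU (U.erase j)`. By `exists_lift` replace `v P''` by elements of
`JJ (W \ P'') U` (the last relation stays true), and put `v P'' = 0` if `j ∈ P''`. Let
`w' P' = w P' + ∑ i ∈ U \ P', θ_i v(P' + i)`. If `j ∈ P'` then `w' P' = w P' ∈ JJ (W \ P') U` and
`insert j W \ P' = W \ P'`. If `j ∉ P'` then `w' P' ∈ SRU (U.erase j)` (the term `i = j` is zero) and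
`w' P' ∈ JJ (W \ P') U`, as `theta_mul_mem_JJ` with `insert i (W \ (P' + i)) ⊇ W \ P'` and `JJ_mono`; so
`w' P' ∈ JJ (insert j W \ P') U` by `mem_JJ_insert`. Finally `∑ θ_i w'(P + i) = ∑ θ_i w(P + i)` by
`sum_sum_eq_zero` (`T = U`). -/
theorem ke_step [CharP K 2] (hdown : ∀ F ∈ Γ, ∀ G, G ⊆ F → G ∈ Γ)
    (hzero : ∀ i j, i ∉ σ j → a i j = 0) {W U : Finset (Fin d)} {j : Fin d}
    (hjU : j ∈ U) (hjW : j ∉ W) {p : ℕ} (ke1 : KE a σ Γ W U p)
    (ke2 : KE a σ Γ W (U.erase j) (p + 1)) : KE a σ Γ (insert j W) U p := by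
  intro y hy hcyc
  obtain ⟨w, hw, hyw⟩ := ke1 y (fun P hP hc =>
    JJ_mono (sdiff_subset_sdiff (subset_insert j W) le_rfl) (hy P hP hc)) hcyc
  obtain ⟨w', hw', hsum⟩ := lift_step hdown hzero hjU ke2 w hw (fun Q hQ hc => by
    have hQU : Q ⊆ U := hQ.trans (erase_subset j U)
    have hjQ : j ∉ Q := fun h => notMem_erase j U (hQ h)
    have h1 := SRU_anti hdown (erase_subset j U) (hyw Q hQU hc)
    have h2 : y Q ∈ SRU K σ Γ (U.erase j) := by
      have h3 := hy Q hQU hc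
      rw [insert_sdiff_of_notMem _ hjQ, mem_JJ_insert hdown] at h3
      exact h3.2
    have h3 : theta a j * w (insert j Q) ∈ SRU K σ Γ (U.erase j) :=
      Ideal.mul_mem_right _ _ (theta_mem_SRU hzero (notMem_erase j U))
    rw [sum_sdiff hjU hjQ] at h1
    have h4 := Ideal.sub_mem _ (Ideal.sub_mem _ h1 h2) h3
    have h5 : y Q + (theta a j * w (insert j Q) +
        ∑ i ∈ U.erase j \ Q, theta a i * w (insert i Q)) - y Q - theta a j * w (insert j Q) =
        ∑ i ∈ U.erase j \ Q, theta a i * w (insert i Q) := by ring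
    rwa [h5] at h4)
  refine ⟨w', hw', fun P hP hc => ?_⟩
  rw [hsum]
  exact hyw P hP hc

/-- PROOF. Induction on `W` with `ke_step`, for all `U ⊇ W` and all `p ≥ 1` (`W ⊆ U.erase j`). -/
theorem ke_all [CharP K 2] (hdown : ∀ F ∈ Γ, ∀ G, G ⊆ F → G ∈ Γ)
    (hzero : ∀ i j, i ∉ σ j → a i j = 0)
    (hke : ∀ (U : Finset (Fin d)) (p : ℕ), 1 ≤ p → KE a σ Γ ∅ U p) (W : Finset (Fin d)) :
    ∀ U : Finset (Fin d), W ⊆ U → ∀ p, 1 ≤ p → KE a σ Γ W U p := by
  induction W using Finset.induction_on with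
  | empty => exact fun U _ p hp => hke U p hp
  | insert j W hj ih =>
    intro U hU p hp
    have hjU : j ∈ U := hU (mem_insert_self j W)
    have hWU : W ⊆ U := (subset_insert j W).trans hU
    exact ke_step hdown hzero hjU hj (ih U hWU p hp)
      (ih (U.erase j) (subset_erase.2 ⟨hWU, hj⟩) (p + 1) (by omega))

/-- The place `p = 0`. PROOF. Induction on `W`; `W = ∅` is trivial (`JJ_empty`). Step from `W` to
`insert j W`, `j ∉ W`: `z ∈ JJ (insert j W) U ≤ JJ W U`, so there are `y i ∈ JJ (W \ {i}) U` with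
`z + ∑ i ∈ U, θ_i y_i ∈ SRU U`. As `z ∈ SRU (U.erase j)` and `θ_j ∈ SRU (U.erase j)` the sum
`∑ i ∈ U.erase j, θ_i y_i` is in `SRU (U.erase j)`: `y' {i} = y i` is a cycle for
`KE W (U.erase j) 1` (`ke_all`; the sets with one element are the `{i}`, `Q = ∅`). So there is `v` with
`v P'' ∈ JJ (W \ P'') (U.erase j)` for `#P'' = 2`, `P'' ⊆ U.erase j`, and
`y i + ∑ l ∈ (U.erase j) \ {i}, θ_l v {l, i} ∈ SRU (U.erase j)`. Lift (`exists_lift`) and put `v P'' = 0` if
`j ∈ P''` as in `ke_step`. Let `y' i = y i + ∑ l ∈ U \ {i}, θ_l v {l, i}`. It is in `JJ (insert j W \ {i}) U`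
(for `i ≠ j` by `mem_JJ_insert`, for `i = j` it is `y j ∈ JJ (W \ {j}) U = JJ (insert j W \ {j}) U`), and
`∑ θ_i y'_i = ∑ θ_i y_i` by `sum_sum_eq_zero` with `P = ∅`. -/
theorem kl_aux [CharP K 2] (hdown : ∀ F ∈ Γ, ∀ G, G ⊆ F → G ∈ Γ)
    (hzero : ∀ i j, i ∉ σ j → a i j = 0)
    (hke : ∀ (U : Finset (Fin d)) (p : ℕ), 1 ≤ p → KE a σ Γ ∅ U p) (W : Finset (Fin d)) :
    ∀ U : Finset (Fin d), W ⊆ U → ∀ z ∈ JJ K σ Γ W U, ∀ y : Fin d → MvPolynomial (Fin n) K,
      z + ∑ i ∈ U, theta a i * y i ∈ SRU K σ Γ U →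
      ∃ y' : Fin d → MvPolynomial (Fin n) K, (∀ i ∈ U, y' i ∈ JJ K σ Γ (W.erase i) U) ∧
        z + ∑ i ∈ U, theta a i * y' i ∈ SRU K σ Γ U := by
  induction W using Finset.induction_on with
  | empty =>
    intro U _ z _ y hy
    exact ⟨y, fun i _ => by rw [erase_empty]; exact JJ_empty _, hy⟩
  | insert j W hj ih =>
    intro U hU z hz y0 hy0
    have hjU : j ∈ U := hU (mem_insert_self j W)
    have hWU : W ⊆ U := (subset_insert j W).trans hU
    obtain ⟨y, hy, hzy⟩ := ih U hWU z (JJ_mono (subset_insert j W) hz) y0 hy0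
    obtain ⟨w', hw', hsum⟩ := lift_step hdown hzero hjU
      (ke_all hdown hzero hke W (U.erase j) (subset_erase.2 ⟨hWU, hj⟩) (0 + 1) le_rfl)
      (fun P => ∑ i ∈ P, y i) (fun P hP hc => by
        obtain ⟨i, rfl⟩ := card_eq_one.1 hc
        simp only [sum_singleton]
        rw [sdiff_singleton_eq_erase]
        exact hy i (hP (mem_singleton_self i)))
      (fun Q hQ hc => by
        rw [card_eq_zero] at hc
        subst hc
        have h1 := SRU_anti hdown (erase_subset j U) hzy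
        have h2 : z ∈ SRU K σ Γ (U.erase j) := ((mem_JJ_insert hdown z).1 hz).2
        have h3 : theta a j * y j ∈ SRU K σ Γ (U.erase j) :=
          Ideal.mul_mem_right _ _ (theta_mem_SRU hzero (notMem_erase j U))
        rw [← add_sum_erase U _ hjU] at h1
        have h4 := Ideal.sub_mem _ (Ideal.sub_mem _ h1 h2) h3
        have h5 : z + (theta a j * y j + ∑ i ∈ U.erase j, theta a i * y i) - z -
            theta a j * y j = ∑ i ∈ U.erase j, theta a i * y i := by ring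
        rw [h5] at h4
        simpa using h4)
    refine ⟨fun i => w' {i}, fun i hi => ?_, ?_⟩
    · have h1 := hw' {i} (singleton_subset_iff.2 hi) (card_singleton i)
      rwa [sdiff_singleton_eq_erase] at h1
    · have h1 := hsum ∅
      simp only [sdiff_empty, insert_empty_eq, sum_singleton] at h1
      rw [h1]
      exact hzy

/-- PROOF. `kl_aux` for `W = U = univ`: `relIdeal` is `srIdeal` plus the ideal spanned by the `θ_i`
(`Submodule.mem_sup`, `Ideal.mem_span_range_iff_exists_fun`), `SRU_univ`, characteristic 2. -/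
theorem kl [CharP K 2] (hdown : ∀ F ∈ Γ, ∀ G, G ⊆ F → G ∈ Γ)
    (hzero : ∀ i j, i ∉ σ j → a i j = 0)
    (hke : ∀ (U : Finset (Fin d)) (p : ℕ), 1 ≤ p → KE a σ Γ ∅ U p)
    {z : MvPolynomial (Fin n) K} (hz : z ∈ JJ K σ Γ univ univ) (hrel : z ∈ relIdeal a Γ) :
    ∃ y : Fin d → MvPolynomial (Fin n) K, (∀ i, y i ∈ JJ K σ Γ (univ.erase i) univ) ∧
      z + ∑ i, theta a i * y i ∈ srIdeal K Γ := by
  rw [relIdeal] at hrel
  obtain ⟨s, hs, t, ht, hst⟩ := Submodule.mem_sup.1 hrel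
  obtain ⟨c, hc⟩ := Ideal.mem_span_range_iff_exists_fun.1 ht
  have h1 : z + ∑ i, theta a i * c i ∈ SRU K σ Γ univ := by
    have h2 : ∑ i, theta a i * c i = t := by
      rw [← hc]
      exact sum_congr rfl fun i _ => mul_comm _ _
    rw [h2, ← hst, add_assoc, CharTwo.add_self_eq_zero, add_zero, SRU_univ]
    exact hs
  obtain ⟨y, hy, hzy⟩ := kl_aux hdown hzero hke univ univ subset_rfl z hz c h1
  rw [SRU_univ] at hzy
  exact ⟨y, fun i => hy i (mem_univ i), hzy⟩

end Pool.Agent.Lib.MP_fd6ff4_co.Six
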