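import Mathlib
import Pool.Agent.Lib.MP_fd6ff4_co.Six.KoszulStep
import Pool.Agent.Lib.MP_fd6ff4_co.Two.Match
import Pool.Agent.Lib.MP_fd6ff4_co.Two.CombTwo

/-!
# A solution of the relations vanishes on the matchable faces
-/

set_option autoImplicit false

open Finset

namespace Pool.Agent.Lib.MP_fd6ff4_co.Six

open Two

universe u

variable {d n : ℕ} {K : Type u} [Field K] {a : Fin d → Fin n → K}
  {Γ : Finset (Finset (Fin n))} {σ : Fin n → Finset (Fin d)}

open Classical in
/-- the functional defined by `f`: its value at a monomial `M` is `f M.support` if `M` is square-free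
and `M.support` is an interior face with `t` vertices, and `0` otherwise -/
noncomputable def phi (K : Type u) [Field K] (σ : Fin n → Finset (Fin d))
    (Γ : Finset (Finset (Fin n))) (t : ℕ) (f : Finset (Fin n) → K) :
    MvPolynomial (Fin n) K →ₗ[K] K :=
  (MvPolynomial.basisMonomials (Fin n) K).constr K fun M =>
    if M = (∑ v ∈ M.support, Finsupp.single v 1) ∧ M.support ∈ Γ ∧ #M.support = t ∧
      car σ M.support = univ then f M.support else 0

open Classical in
/-- the value of `phi` at a monomial -/
private noncomputable def vnVal (σ : Fin n → Finset (Fin d)) (Γ : Finset (Finset (Fin n))) (t : ℕ)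
    (f : Finset (Fin n) → K) (M : Fin n →₀ ℕ) : K :=
  if M = (∑ v ∈ M.support, Finsupp.single v 1) ∧ M.support ∈ Γ ∧ #M.support = t ∧
    car σ M.support = univ then f M.support else 0

private theorem vn_pos {t : ℕ} {f : Finset (Fin n) → K} {M : Fin n →₀ ℕ}
    (h : M = (∑ v ∈ M.support, Finsupp.single v 1) ∧ M.support ∈ Γ ∧ #M.support = t ∧
      car σ M.support = univ) : vnVal σ Γ t f M = f M.support := by
  classical
  unfold vnVal
  exact if_pos h

private theorem vn_zero {t : ℕ} {f : Finset (Fin n) → K} {M : Fin n →₀ ℕ}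
    (h : M = (∑ v ∈ M.support, Finsupp.single v 1) → M.support ∈ Γ → #M.support = t →
      car σ M.support = univ → f M.support = 0) : vnVal σ Γ t f M = 0 := by
  classical
  unfold vnVal
  split_ifs with h1
  · exact h h1.1 h1.2.1 h1.2.2.1 h1.2.2.2
  · rfl

private theorem vn_monomial {t : ℕ} {f : Finset (Fin n) → K} (M : Fin n →₀ ℕ) (c : K) :
    phi K σ Γ t f (MvPolynomial.monomial M c) = c * vnVal σ Γ t f M := by
  classical
  have h1 : MvPolynomial.monomial M c = c • (MvPolynomial.basisMonomials (Fin n) K) M := by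
    rw [MvPolynomial.coe_basisMonomials, MvPolynomial.smul_monomial, smul_eq_mul, mul_one]
  rw [h1, map_smul, phi, Module.Basis.constr_basis, smul_eq_mul]
  rfl

private theorem vn_chi_apply (N : Finset (Fin n)) (v : Fin n) :
    (∑ w ∈ N, Finsupp.single w 1 : Fin n →₀ ℕ) v = if v ∈ N then 1 else 0 := by
  classical
  rw [Finsupp.finsetSum_apply]
  simp [Finsupp.single_apply]

private theorem vn_chi_support (N : Finset (Fin n)) :
    (∑ w ∈ N, Finsupp.single w 1 : Fin n →₀ ℕ).support = N := by
  classical
  ext v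
  rw [Finsupp.mem_support_iff, vn_chi_apply]
  by_cases hv : v ∈ N <;> simp [hv]

private theorem vn_mon_eq (N : Finset (Fin n)) :
    mon K N = MvPolynomial.monomial (∑ v ∈ N, Finsupp.single v 1) (1 : K) := by
  rw [mon, MvPolynomial.monomial_sum_one]
  rfl

/-- A square-free monomial which is a multiple of `X k`. -/
private theorem vn_insert {k : Fin n} {M : Fin n →₀ ℕ}
    (h : Finsupp.single k 1 + M =
      (∑ v ∈ (Finsupp.single k 1 + M).support, Finsupp.single v 1 : Fin n →₀ ℕ)) :
    k ∉ M.support ∧ (Finsupp.single k 1 + M).support = insert k M.support ∧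
      M = ∑ v ∈ M.support, Finsupp.single v 1 := by
  classical
  have h1 : ∀ v, (Finsupp.single k 1 + M : Fin n →₀ ℕ) v ≤ 1 := by
    intro v
    rw [h, vn_chi_apply]
    split_ifs <;> simp
  have hk : M k = 0 := by
    have := h1 k
    rw [Finsupp.add_apply, Finsupp.single_eq_same] at this
    omega
  have hk' : k ∉ M.support := by
    rw [Finsupp.mem_support_iff, not_not]
    exact hk
  refine ⟨hk', ?_, ?_⟩
  · ext v
    rw [Finsupp.mem_support_iff, Finsupp.add_apply, mem_insert, Finsupp.mem_support_iff,
      Finsupp.single_apply]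
    by_cases hv : k = v
    · subst hv
      simp
    · rw [if_neg hv, zero_add]
      constructor
      · intro h2
        exact Or.inr h2
      · rintro (h2 | h2)
        · exact absurd h2.symm hv
        · exact h2
  · ext v
    rw [vn_chi_apply]
    have h2 := h1 v
    rw [Finsupp.add_apply] at h2
    split_ifs with h3
    · rw [Finsupp.mem_support_iff] at h3
      omega
    · rw [Finsupp.mem_support_iff, not_not] at h3
      exact h3

private theorem vn_car_mono {F G : Finset (Fin n)} (hFG : F ⊆ G) (hF : car σ F = univ) :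
    car σ G = univ := by
  rw [← univ_subset_iff, ← hF]
  exact biUnion_subset_biUnion_of_subset_left _ hFG

/-- The multiples of the interior monomials have the value zero. -/
private theorem vn_int {t : ℕ} {f : Finset (Fin n) → K} (hf : Rels a σ Γ univ t f) (k : Fin n)
    {M : Fin n →₀ ℕ} (hM : car σ M.support = univ) :
    vnVal σ Γ t f (Finsupp.single k 1 + M) = 0 := by
  classical
  apply vn_zero
  intro h1 h2 h3 h4
  obtain ⟨hk, hs, -⟩ := vn_insert h1
  refine hf.r1 _ h2 h3 h4 k ?_ ?_
  · rw [hs]
    exact mem_insert_self _ _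
  · rw [hs, erase_insert hk]
    exact hM

private theorem vn_sum {t : ℕ} {f : Finset (Fin n) → K} (q p : MvPolynomial (Fin n) K)
    (h : ∀ M, MvPolynomial.coeff M p ≠ 0 →
      phi K σ Γ t f (q * MvPolynomial.monomial M (1 : K)) = 0) :
    phi K σ Γ t f (q * p) = 0 := by
  classical
  have h1 : q * p = ∑ M ∈ p.support,
      MvPolynomial.coeff M p • (q * MvPolynomial.monomial M (1 : K)) := by
    conv_lhs => rw [p.as_sum, mul_sum]
    refine sum_congr rfl fun M _ => ?_
    rw [← mul_smul_comm, MvPolynomial.smul_monomial, smul_eq_mul, mul_one]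
  rw [h1, map_sum]
  refine sum_eq_zero fun M hM => ?_
  rw [map_smul, h M (MvPolynomial.mem_support_iff.1 hM), smul_zero]

/-- PROOF. `mon K N = monomial (∑ v ∈ N, single v 1) 1`, the support is `N`. -/
theorem phi_mon {t : ℕ} {f : Finset (Fin n) → K} {N : Finset (Fin n)} (hN : N ∈ Γ)
    (hc : car σ N = univ) (hNt : #N = t) : phi K σ Γ t f (mon K N) = f N := by
  classical
  rw [vn_mon_eq, vn_monomial, one_mul, vn_pos]
  · rw [vn_chi_support]
  · rw [vn_chi_support]
    exact ⟨rfl, hN, hNt, hc⟩

/-- PROOF. `mem_srIdeal`: `p` is the sum of its monomials `M`, and `M.support ∉ Γ`. -/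
theorem phi_sr (h : Ball Γ σ) {t : ℕ} {f : Finset (Fin n) → K} {p : MvPolynomial (Fin n) K}
    (hp : p ∈ srIdeal K Γ) : phi K σ Γ t f p = 0 := by
  classical
  rw [mem_srIdeal h.down] at hp
  have h1 := vn_sum (σ := σ) (Γ := Γ) (t := t) (f := f) 1 p (by
    intro M hM
    rw [one_mul, vn_monomial, one_mul]
    apply vn_zero
    intro _ h2 _ _
    exact absurd (hp M h2) hM)
  rwa [one_mul] at h1

/-- PROOF. `p` is the sum of its monomials `M`, by `mem_interiorIdeal` `M.support` contains an interior
face, so if it is in `Γ` then it is an interior face itself. If `single k 1 + M` is square-free with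
support `N ∈ Γ`, `#N = t`, then `k ∉ M.support`, `M.support = N.erase k`, and `f N = 0` by `r1`. -/
theorem phi_X (h : Ball Γ σ) {t : ℕ} {f : Finset (Fin n) → K} (hf : Rels a σ Γ univ t f)
    (k : Fin n) {p : MvPolynomial (Fin n) K} (hp : p ∈ interiorIdeal K σ Γ) :
    phi K σ Γ t f (MvPolynomial.X k * p) = 0 := by
  classical
  rw [mem_interiorIdeal] at hp
  apply vn_sum
  intro M hM
  obtain ⟨G, -, hG, hGM⟩ := hp M hM
  rw [MvPolynomial.X, MvPolynomial.monomial_mul, one_mul, vn_monomial, one_mul]
  exact vn_int hf k (vn_car_mono hGM hG)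

/-- PROOF. By linearity `p` is a monomial `M` with `M.support ∉ Γ` or `univ.erase i ⊆ car σ M.support`
(`mem_JJ`). `θ_i * p` is the sum of the `a i k` times the monomial `single k 1 + M`. If `M` is not
square-free, or `M.support ∉ Γ` (`h.down`), or `#M.support + 1 ≠ t`, or `k ∈ M.support`, the value is zero.
If `car σ M.support = univ` it is zero by `phi_X` (or `r1`). Otherwise `car σ M.support = univ.erase i` and it
is the sum in `r2` for `N = M.support` (`a i k = 0` for `i ∉ σ k`). -/
theorem phi_theta (h : Ball Γ σ) (hzero : ∀ i j, i ∉ σ j → a i j = 0) {t : ℕ}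
    {f : Finset (Fin n) → K} (hf : Rels a σ Γ univ t f) (i : Fin d)
    {p : MvPolynomial (Fin n) K} (hp : p ∈ JJ K σ Γ (univ.erase i) univ) :
    phi K σ Γ t f (theta a i * p) = 0 := by
  classical
  rw [mem_JJ h.down] at hp
  apply vn_sum
  intro M hM
  have h1 : theta a i * MvPolynomial.monomial M (1 : K) =
      ∑ k : Fin n, MvPolynomial.monomial (Finsupp.single k 1 + M) (a i k) := by
    unfold theta
    rw [sum_mul]
    refine sum_congr rfl fun k _ => ?_
    rw [MvPolynomial.X, MvPolynomial.C_mul_monomial, MvPolynomial.monomial_mul, mul_one, mul_one]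
  rw [h1, map_sum]
  simp only [vn_monomial]
  by_cases hMG : M.support ∈ Γ
  swap
  · refine sum_eq_zero fun k _ => ?_
    rw [vn_zero, mul_zero]
    intro h2 h3 _ _
    obtain ⟨-, hs, -⟩ := vn_insert h2
    rw [hs] at h3
    exact absurd (h.down _ h3 _ (subset_insert _ _)) hMG
  have hW : univ.erase i ⊆ car σ M.support := by
    by_contra hW
    exact hM (hp M hMG (subset_univ _) hW)
  by_cases hcu : car σ M.support = univ
  · refine sum_eq_zero fun k _ => ?_
    rw [vn_int hf k hcu, mul_zero]
  have hi : i ∉ car σ M.support := by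
    intro hi
    apply hcu
    rw [eq_univ_iff_forall]
    intro j
    by_cases hj : j = i
    · rw [hj]
      exact hi
    · exact hW (mem_erase.2 ⟨hj, mem_univ _⟩)
  have hcar : car σ M.support = univ.erase i := by
    refine Subset.antisymm ?_ hW
    intro j hj
    refine mem_erase.2 ⟨?_, mem_univ _⟩
    rintro rfl
    exact hi hj
  by_cases hsq : M = ∑ v ∈ M.support, Finsupp.single v 1
  swap
  · refine sum_eq_zero fun k _ => ?_
    rw [vn_zero, mul_zero]
    intro h2 _ _ _
    exact absurd (vn_insert h2).2.2 hsq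
  by_cases ht : #M.support + 1 = t
  swap
  · refine sum_eq_zero fun k _ => ?_
    rw [vn_zero, mul_zero]
    intro h2 _ h3 _
    obtain ⟨hk, hs, -⟩ := vn_insert h2
    rw [hs, card_insert_of_notMem hk] at h3
    exact absurd h3 ht
  have h2 := hf.r2 M.support hMG ht i (mem_univ _) hcar
  rw [sum_filter] at h2
  rw [← h2]
  refine sum_congr rfl fun k _ => ?_
  by_cases hik : i ∈ σ k
  swap
  · rw [hzero i k hik, zero_mul, if_neg]
    exact fun h3 => hik h3.1
  have hkM : k ∉ M.support := by
    intro hk
    exact hi (mem_biUnion.2 ⟨k, hk, hik⟩)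
  have hsupp : (Finsupp.single k 1 + M).support = insert k M.support := by
    ext v
    rw [Finsupp.mem_support_iff, Finsupp.add_apply, mem_insert, Finsupp.mem_support_iff,
      Finsupp.single_apply]
    by_cases hv : k = v
    · subst hv
      simp
    · rw [if_neg hv, zero_add]
      constructor
      · intro h2
        exact Or.inr h2
      · rintro (h2 | h2)
        · exact absurd h2.symm hv
        · exact h2
  by_cases hins : insert k M.support ∈ Γ
  · rw [if_pos ⟨hik, subset_univ _, hins⟩, vn_pos, hsupp]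
    refine ⟨?_, ?_, ?_, ?_⟩
    · rw [hsupp, sum_insert hkM, ← hsq]
    · rw [hsupp]
      exact hins
    · rw [hsupp, card_insert_of_notMem hkM]
      exact ht
    · rw [hsupp, eq_univ_iff_forall]
      intro j
      by_cases hj : j = i
      · rw [hj]
        exact mem_biUnion.2 ⟨k, mem_insert_self _ _, hik⟩
      · have h3 : j ∈ car σ M.support := hW (mem_erase.2 ⟨hj, mem_univ _⟩)
        obtain ⟨v, hv, hjv⟩ := mem_biUnion.1 h3
        exact mem_biUnion.2 ⟨v, mem_insert_of_mem hv, hjv⟩
  · rw [if_neg (fun h3 => hins h3.2.2), vn_zero, mul_zero]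
    intro _ h3 _ _
    rw [hsupp] at h3
    exact absurd h3 hins

/-- PROOF. `exists_match` and `vanish_of_match` for `φ = phi K σ Γ t f`; `h2` is `phi_X`; `h1`:
`kl` (with `interior_le_JJ`), `phi_theta`, `phi_sr`; `phi_mon`. -/
theorem vanish_good [CharP K 2] (h : Ball Γ σ) (hdet : ∀ F ∈ Γ, #F = d → pdet a F ≠ 0)
    (hzero : ∀ i j, i ∉ σ j → a i j = 0)
    (hsq : ∀ c : (Fin d → Fin n) → K, ∑ I : Fin d → Fin n, (∏ i, a i (I i)) * c I ^ 2 = 0 →
      ∀ I : Fin d → Fin n, (∀ i, i ∈ σ (I i)) → c I = 0)
    (hke : ∀ (U : Finset (Fin d)) (p : ℕ), 1 ≤ p → KE a σ Γ ∅ U p)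
    {t s : ℕ} (hts : t + s = d) (hst : s < t) {f : Finset (Fin n) → K}
    (hf : Rels a σ Γ univ t f) {N : Finset (Fin n)} (hN : N ∈ Γ) (hNt : #N = t)
    (hc : car σ N = univ) (hm : Matchable σ N) : f N = 0 := by
  obtain ⟨I, hI, hI2⟩ := exists_match hm
  have h1 := vanish_of_match h hdet hsq hts hst (phi K σ Γ t f) (by
    intro z hz hrel _
    obtain ⟨y, hy, hsum⟩ := kl h.down hzero hke (interior_le_JJ h.down hz) hrel
    have h2 := phi_sr (t := t) (f := f) h hsum
    rw [map_add, map_sum, sum_eq_zero (fun i _ => phi_theta h hzero hf i (hy i)), add_zero] at h2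
    exact h2) (fun k z hz _ => phi_X h hf k hz) hN hc hNt hI hI2
  rw [phi_mon hN hc hNt] at h1
  exact h1

end Pool.Agent.Lib.MP_fd6ff4_co.Six
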