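import Mathlib
import Pool.Agent.Lib.MP_fd6ff4_co.Six.Defs
import Pool.Agent.Lib.MP_fd6ff4_co.Two.Comb

/-!
# The support of a solution has the closure property
-/

set_option autoImplicit false

open Finset

namespace Pool.Agent.Lib.MP_fd6ff4_co.Six

open Two

universe u

variable {d n : ℕ} {K : Type u} [Field K] {a : Fin d → Fin n → K}
  {Γ : Finset (Finset (Fin n))} {σ : Fin n → Finset (Fin d)}

private theorem zcar_union (σ : Fin n → Finset (Fin d)) (F G : Finset (Fin n)) :
    car σ (F ∪ G) = car σ F ∪ car σ G := by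
  classical
  ext x
  simp only [car, mem_biUnion, mem_union]
  constructor
  · rintro ⟨v, hv | hv, hx⟩
    · exact Or.inl ⟨v, hv, hx⟩
    · exact Or.inr ⟨v, hv, hx⟩
  · rintro (⟨v, hv, hx⟩ | ⟨v, hv, hx⟩)
    · exact ⟨v, Or.inl hv, hx⟩
    · exact ⟨v, Or.inr hv, hx⟩

private theorem zcar_univ_of_subset {F G : Finset (Fin n)} (hFG : F ⊆ G)
    (hF : car σ F = univ) : car σ G = univ := by
  apply univ_subset_iff.1
  rw [← hF]
  exact biUnion_subset_biUnion_of_subset_left σ hFG

/-- PROOF. The members are the faces `N` with `#N = t`, `car σ N = univ`, `f N ≠ 0`. `minimal`: `r1`.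
`small`: `card_le_car` (`h.down`).

`step`: let `A ⊆ N`, `U = car σ A ≠ univ`, `#U < 2 * #A`, `B = N \ A`. First `#A ≤ #U` and
`#U ≤ #A + 5`: by minimality every `v ∈ B` has a point of `σ v` which is not in `car σ (N.erase v)`, so
not in `U`, and these points are different for different `v`; so `#U + #B ≤ d ≤ t + 5`. By `hsp` we have
`Sp a σ Γ U #A`. Let `g A' = f (B ∪ A')` if `B ∪ A' ∈ Γ` and `Disjoint B A'`, and `0` otherwise. `g A = f N ≠ 0`,
so `g` does not satisfy `Rels a σ Γ U #A`. It satisfies `r1`: if `car σ A' = car σ (A'.erase v) = U` then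
`B ∪ A'` is a cover of `univ` (`car σ B ∪ U = univ`), as is `(B ∪ A').erase v`. So `r2` fails for some
`M ∈ Γ`, `#M + 1 = #A`, `i ∈ U`, `car σ M = U.erase i`: the sum of the `a i k * g (insert k M)` over the `k`
with `i ∈ σ k ⊆ U`, `insert k M ∈ Γ`, is not zero. One of the terms is not zero, so
`Disjoint B M`, `B ∪ M ∈ Γ`. If `i ∈ car σ B` then `car σ (B ∪ M) = univ` and all the terms are zero by
`r1` of `f` (`insert k (B ∪ M)` with `k ∉ B ∪ M`): contradiction. So `i ∉ car σ B`,
`car σ (B ∪ M) = univ.erase i`, `#(B ∪ M) + 1 = t`, and `r2` of `f` says that the sum of the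
`a i k * f (insert k (B ∪ M))` over all `k` with `i ∈ σ k`, `insert k (B ∪ M) ∈ Γ` is zero. The part with
`σ k ⊆ U` is the sum above (a `k` with `insert k M ∈ Γ` and `insert k (B ∪ M) ∉ Γ` has
`g (insert k M) = 0`; `k ∉ B` as `i ∉ car σ B`), not zero. So there is a `k` with `i ∈ σ k`, `¬ σ k ⊆ U`,
`insert k (B ∪ M) ∈ Γ` and `f (insert k (B ∪ M)) ≠ 0`. -/
theorem clo_of (h : Ball Γ σ) {t : ℕ} (ht : d ≤ t + 5)
    (hsp : ∀ (U : Finset (Fin d)) (t' : ℕ), U ≠ univ → #U < 2 * t' → t' ≤ #U → #U ≤ t' + 5 →
      Sp a σ Γ U t')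
    {f : Finset (Fin n) → K} (hf : Rels a σ Γ univ t f) :
    Clo σ t fun N => N ∈ Γ ∧ #N = t ∧ car σ N = univ ∧ f N ≠ 0 := by
  classical
  refine ⟨fun N hN => hN.2.1, fun N hN => hN.2.2.1, ?_, ?_, ?_⟩
  · intro N hN v hv hc
    exact hN.2.2.2 (hf.r1 N hN.1 hN.2.1 hN.2.2.1 v hv hc)
  · intro N hN A hA
    exact card_le_car h (h.down N hN.1 A hA)
  intro N hN A hA hU hlt
  obtain ⟨hNΓ, hNt, hNc, hfN⟩ := hN
  have hmin : ∀ v ∈ N, car σ (N.erase v) ≠ univ := fun v hv hc => hfN (hf.r1 N hNΓ hNt hNc v hv hc)
  have hAΓ : A ∈ Γ := h.down N hNΓ A hA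
  set U := car σ A with hUdef
  set B := N \ A with hB
  have hdisj : Disjoint B A := sdiff_disjoint
  have hBA : B ∪ A = N := sdiff_union_of_subset hA
  have hcardB : #B + #A = t := by
    rw [← card_union_of_disjoint hdisj, hBA, hNt]
  have hcarBU : car σ B ∪ U = univ := by
    rw [hUdef, ← zcar_union, hBA, hNc]
  have h1 : #A ≤ #U := card_le_car h hAΓ
  have h2 : #U ≤ #A + 5 := by
    have h3 : ∀ v ∈ B, ∃ x, x ∈ σ v ∧ x ∉ car σ (N.erase v) := by
      intro v hv
      have hvN : v ∈ N := (mem_sdiff.1 hv).1
      have h4 := hmin v hvN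
      obtain ⟨x, hx⟩ : ∃ x, x ∉ car σ (N.erase v) := by
        by_contra hc
        push Not at hc
        exact h4 (eq_univ_of_forall hc)
      refine ⟨x, ?_, hx⟩
      have h5 : x ∈ car σ N := by rw [hNc]; exact mem_univ x
      rw [car, mem_biUnion] at h5
      obtain ⟨w, hw, hxw⟩ := h5
      by_cases hwv : w = v
      · rwa [hwv] at hxw
      · exact absurd (mem_biUnion.2 ⟨w, mem_erase.2 ⟨hwv, hw⟩, hxw⟩) hx
    have : Nonempty (Fin d) := by
      by_contra hc
      apply hU
      apply eq_univ_of_forall
      intro x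
      exact absurd ⟨x⟩ hc
    choose! p hp1 hp2 using h3
    have h4 : Set.InjOn p (B : Set (Fin n)) := by
      intro v hv w hw hvw
      by_contra hne
      apply hp2 v hv
      rw [hvw]
      exact mem_biUnion.2 ⟨w, mem_erase.2 ⟨Ne.symm hne, (mem_sdiff.1 hw).1⟩, hp1 w hw⟩
    have h5 : B.image p ⊆ univ \ U := by
      intro x hx
      obtain ⟨v, hv, rfl⟩ := mem_image.1 hx
      refine mem_sdiff.2 ⟨mem_univ _, fun hxU => hp2 v hv ?_⟩
      refine biUnion_subset_biUnion_of_subset_left σ ?_ hxU
      intro w hw
      refine mem_erase.2 ⟨?_, hA hw⟩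
      rintro rfl
      exact (mem_sdiff.1 hv).2 hw
    have h6 := card_le_card h5
    rw [card_image_of_injOn h4, card_sdiff_of_subset (subset_univ U), card_univ,
      Fintype.card_fin] at h6
    have h7 : #U ≤ d := by
      have := card_le_univ U
      rwa [Fintype.card_fin] at this
    omega
  have hS := hsp U #A hU hlt h1 h2
  set g : Finset (Fin n) → K := fun A' => if B ∪ A' ∈ Γ ∧ Disjoint B A' then f (B ∪ A') else 0
    with hg
  have hgA : g A ≠ 0 := by
    rw [hg]
    simp only
    rw [if_pos ⟨by rw [hBA]; exact hNΓ, hdisj⟩, hBA]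
    exact hfN
  by_contra hno
  refine hgA (hS g ⟨?_, ?_⟩ A hAΓ rfl rfl)
  · intro A' hA' hc1 hc2 k hk hc3
    rw [hg]
    simp only
    split_ifs with hcond
    · obtain ⟨hc4, hc5⟩ := hcond
      refine hf.r1 _ hc4 ?_ ?_ k (mem_union_right _ hk) ?_
      · rw [card_union_of_disjoint hc5, hc1, hcardB]
      · rw [zcar_union, hc2, hcarBU]
      · have hF : car σ (B ∪ A'.erase k) = univ := by rw [zcar_union, hc3, hcarBU]
        refine zcar_univ_of_subset ?_ hF
        intro w hw
        rcases mem_union.1 hw with hw1 | hw1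
        · refine mem_erase.2 ⟨fun hwk => ?_, mem_union_left _ hw1⟩
          rw [hwk] at hw1
          exact disjoint_left.1 hc5 hw1 hk
        · exact mem_erase.2 ⟨(mem_erase.1 hw1).1, mem_union_right _ (mem_erase.1 hw1).2⟩
    · rfl
  · intro M hM hM1 i hi hMc
    by_contra hsum
    obtain ⟨k0, hk0, hk0'⟩ := exists_ne_zero_of_sum_ne_zero hsum
    rw [mem_filter] at hk0
    obtain ⟨-, hk1, hk2, hk3⟩ := hk0
    have hgk0 : g (insert k0 M) ≠ 0 := right_ne_zero_of_mul hk0'
    have hcond : B ∪ insert k0 M ∈ Γ ∧ Disjoint B (insert k0 M) := by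
      by_contra hc
      apply hgk0
      rw [hg]
      simp only
      rw [if_neg hc]
    have hBM : Disjoint B M := hcond.2.mono_right (subset_insert _ _)
    have hBMΓ : B ∪ M ∈ Γ :=
      h.down _ hcond.1 _ (union_subset_union (Subset.refl _) (subset_insert _ _))
    have hiM : i ∉ car σ M := by
      rw [hMc]
      exact notMem_erase i U
    have hkM : ∀ k, i ∈ σ k → k ∉ M := fun k hk hkM => hiM (mem_biUnion.2 ⟨k, hkM, hk⟩)
    have hcBM : #(B ∪ M) + 1 = t := by
      rw [card_union_of_disjoint hBM]
      omega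
    have hins : ∀ k, B ∪ insert k M = insert k (B ∪ M) := fun k => union_insert k B M
    by_cases hiB : i ∈ car σ B
    · have hcar : car σ (B ∪ M) = univ := by
        rw [zcar_union, hMc]
        apply eq_univ_of_forall
        intro x
        have hx : x ∈ car σ B ∪ U := by rw [hcarBU]; exact mem_univ x
        rcases mem_union.1 hx with hx | hx
        · exact mem_union_left _ hx
        · by_cases hxi : x = i
          · rw [hxi]
            exact mem_union_left _ hiB
          · exact mem_union_right _ (mem_erase.2 ⟨hxi, hx⟩)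
      apply hgk0
      rw [hg]
      simp only
      rw [if_pos hcond]
      refine hf.r1 _ hcond.1 ?_ ?_ k0 (mem_union_right _ (mem_insert_self _ _)) ?_
      · rw [hins, card_insert_of_notMem]
        · exact hcBM
        · intro hc
          rcases mem_union.1 hc with hc | hc
          · exact disjoint_left.1 hcond.2 hc (mem_insert_self _ _)
          · exact hkM k0 hk1 hc
      · exact zcar_univ_of_subset (union_subset_union (Subset.refl _) (subset_insert _ _)) hcar
      · refine zcar_univ_of_subset ?_ hcar
        intro w hw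
        refine mem_erase.2 ⟨fun hwk => ?_, ?_⟩
        · rw [hwk] at hw
          rcases mem_union.1 hw with hc | hc
          · exact disjoint_left.1 hcond.2 hc (mem_insert_self _ _)
          · exact hkM _ hk1 hc
        · exact union_subset_union (Subset.refl _) (subset_insert _ _) hw
    · have hcar : car σ (B ∪ M) = univ.erase i := by
        rw [zcar_union, hMc]
        ext x
        have hx : x ∈ car σ B ∪ U := by rw [hcarBU]; exact mem_univ x
        rw [mem_union] at hx
        simp only [mem_union, mem_erase, mem_univ, and_true]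
        constructor
        · rintro (hx1 | hx1)
          · rintro rfl
            exact hiB hx1
          · exact hx1.1
        · intro hxi
          rcases hx with hx | hx
          · exact Or.inl hx
          · exact Or.inr ⟨hxi, hx⟩
      have hkB : ∀ k, i ∈ σ k → k ∉ B := fun k hk hkB => hiB (mem_biUnion.2 ⟨k, hkB, hk⟩)
      have hr2 := hf.r2 (B ∪ M) hBMΓ hcBM i (mem_univ i) hcar
      apply hsum
      rw [← hr2, sum_filter, sum_filter]
      refine sum_congr rfl fun k _ => ?_
      by_cases hik : i ∈ σ k
      · have hgk : g (insert k M) = if insert k (B ∪ M) ∈ Γ then f (insert k (B ∪ M)) else 0 := by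
          rw [hg]
          simp only
          rw [hins]
          have h6 : Disjoint B (insert k M) := by
            rw [disjoint_insert_right]
            exact ⟨hkB k hik, hBM⟩
          simp only [h6, and_true]
        by_cases hk5 : insert k (B ∪ M) ∈ Γ
        · have hk6 : insert k M ∈ Γ := h.down _ hk5 _ (insert_subset_insert _ subset_union_right)
          by_cases hkU : σ k ⊆ U
          · rw [if_pos ⟨hik, hkU, hk6⟩, if_pos ⟨hik, subset_univ _, hk5⟩, hgk, if_pos hk5]
          · rw [if_neg (fun hc => hkU hc.2.1), if_pos ⟨hik, subset_univ _, hk5⟩]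
            by_contra hne
            have hfk : f (insert k (B ∪ M)) ≠ 0 := by
              intro hc
              rw [hc, mul_zero] at hne
              exact hne rfl
            apply hno
            refine ⟨i, M, k, hi, hiB, hik, hkU, hM1, hMc, hBM, hkM k hik, hkB k hik, ?_, ?_, ?_, ?_⟩
            · rw [hins]
              exact hk5
            · rw [hins, card_insert_of_notMem]
              · exact hcBM
              · intro hc
                rcases mem_union.1 hc with hc | hc
                · exact hkB k hik hc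
                · exact hkM k hik hc
            · rw [hins]
              apply eq_univ_of_forall
              intro x
              by_cases hxi : x = i
              · rw [hxi]
                exact mem_biUnion.2 ⟨k, mem_insert_self _ _, hik⟩
              · have hx : x ∈ car σ (B ∪ M) := by
                  rw [hcar]
                  exact mem_erase.2 ⟨hxi, mem_univ x⟩
                exact biUnion_subset_biUnion_of_subset_left σ (subset_insert _ _) hx
            · rw [hins]
              exact hfk
        · have hR : (if i ∈ σ k ∧ σ k ⊆ univ ∧ insert k (B ∪ M) ∈ Γ then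
              a i k * f (insert k (B ∪ M)) else 0) = 0 := if_neg (fun hc => hk5 hc.2.2)
          rw [hR, hgk, if_neg hk5, mul_zero, ite_self]
      · rw [if_neg (fun hc => hik hc.1), if_neg (fun hc => hik hc.1)]

end Pool.Agent.Lib.MP_fd6ff4_co.Six
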