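import Mathlib
import Pool.Agent.Lib.MP_fd6ff4_co.Two.Final
import Pool.Agent.Lib.MP_fd6ff4_co.Six.KoszulBase
import Pool.Agent.Lib.MP_fd6ff4_co.Six.Vanish
import Pool.Agent.Lib.MP_fd6ff4_co.Six.ZOne
import Pool.Agent.Lib.MP_fd6ff4_co.Six.CloD

/-!
# Characteristic 0 or 2: the local face module is generated in degrees at most
`max (d / 2) (d - 6)`
-/

set_option autoImplicit false

open Finset

namespace Pool.Agent.Lib.MP_fd6ff4_co.Six

open Two

universe u

variable {d n : ℕ} {K : Type u} [Field K] {a : Fin d → Fin n → K}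
  {Γ : Finset (Finset (Fin n))} {σ : Fin n → Finset (Fin d)}

/-- The main induction. PROOF. Strong induction on `d`. For `U ≠ univ` the statement
`Sp (gen σ) σ Γ U t'` follows from the induction hypothesis for `Γ'`, `σ'` of `exists_sub` (`Sub.ball`),
`sp_transfer` (`good_gen`, `Sub.good`) and `Sub.sp`, as `#U < d`. Let `f` satisfy the relations and
suppose `f N ≠ 0`. `clo_of` gives `Clo`. If `d + 2 ≤ 2 * t`: `clo_two`. Otherwise `d + 1 = 2 * t`, `t ≤ 6`,
`clo_one` gives `N'`, and `f N' = 0` by `vanish_good` (`Good.pdet`, `gen_squares`, `ke_sub`). -/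
theorem main_sp : ∀ (d : ℕ) {n : ℕ} (σ : Fin n → Finset (Fin d)) (Γ : Finset (Finset (Fin n))),
    Ball Γ σ → ∀ t : ℕ, d < 2 * t → t ≤ d → d ≤ t + 5 → Sp (gen σ) σ Γ univ t := by
  intro d
  induction d using Nat.strong_induction_on with
  | _ d ih =>
    intro n σ Γ h t ht htd hd5
    have : CharP (K2 σ) 2 := charP_K2 σ
    have ha : Good (gen σ) σ := good_gen
    have hsub : ∀ (U : Finset (Fin d)) (t' : ℕ), U ≠ univ → #U < 2 * t' → t' ≤ #U →
        #U ≤ t' + 5 → Sp (gen σ) σ Γ U t' := by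
      intro U t' hU h1 h2 h3
      obtain ⟨n', σ', Γ', e, g, s⟩ := exists_sub σ Γ U
      have hlt : #U < d := by
        have h4 := card_lt_card (ssubset_univ_iff.2 hU)
        rwa [card_univ, Fintype.card_fin] at h4
      exact s.sp (sp_transfer (ih #U hlt σ' Γ' (s.ball h) t' h1 h2 h3) (s.good ha))
    intro f hf N hN hNt hc
    by_contra hfN
    have hclo := clo_of h (by omega) hsub hf
    rcases Nat.lt_or_ge (2 * t) (d + 2) with hlt | hge
    · obtain ⟨N', ⟨hN', hNt', hc', hfN'⟩, hm⟩ :=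
        clo_one hclo (by omega) (by omega) (N := N) ⟨hN, hNt, hc, hfN⟩
      exact hfN' (vanish_good h (ha.pdet h) ha.1 (fun c hc0 I hI => gen_squares c hc0 I hI)
        (fun U p hp => ke_sub h ha U hp) (t := t) (s := d - t) (by omega) (by omega) hf hN' hNt'
        hc' hm)
    · exact clo_two hclo hge (N := N) ⟨hN, hNt, hc, hfN⟩

/-- One step. PROOF. As `step_two` in `Two/Final`, with `Sp a σ Γ univ t` (`main_sp`, `sp_transfer`) in
place of `comb_two`: a functional `φ` which vanishes on `lowIdeal (t - 1)` gives `f N = φ (mon K N)`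
with `Rels a σ Γ univ t f`. -/
theorem step_six (h : Ball Γ σ) (hg : Generic a σ) (ha : Good a σ) {t : ℕ} (ht : d < 2 * t)
    (htd : t ≤ d) (hd : d ≤ t + 5) {N : Finset (Fin n)} (hN : N ∈ Γ)
    (hc : car σ N = univ) (hNt : #N = t) : mon K N ∈ lowIdeal a σ Γ (t - 1) := by
  classical
  by_contra hcon
  have hcon' : mon K N ∉ Submodule.restrictScalars K (lowIdeal a σ Γ (t - 1)) := hcon
  obtain ⟨φ, hφN, hφ⟩ := Submodule.exists_le_ker_of_notMem hcon'
  have hker : ∀ z ∈ lowIdeal a σ Γ (t - 1), φ z = 0 := fun z hz => hφ hz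
  have hsp : Sp a σ Γ univ t := sp_transfer (main_sp d σ Γ h t ht htd hd) ha
  refine hφN (hsp (fun M => φ (mon K M)) ⟨?_, ?_⟩ N hN hNt hc)
  · intro M hM hMt _ k hk hcar
    refine hker _ (mon_mem_of_subset (h.down M hM _ (Finset.erase_subset k M)) hcar ?_
      (Finset.erase_subset k M))
    rw [Finset.card_erase_of_mem hk, hMt]
  · intro M _ _ i _ hcar
    have hi : i ∉ car σ M := by
      rw [hcar]
      exact Finset.notMem_erase i univ
    have h1 := hker _ (relIdeal_le_lowIdeal (σ := σ) (t - 1) (row_mem (Γ := Γ) hg hi))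
    rw [map_sum] at h1
    have h2 : (univ.filter fun k => i ∈ σ k ∧ σ k ⊆ univ ∧ insert k M ∈ Γ) =
        univ.filter fun k => i ∈ σ k ∧ insert k M ∈ Γ := by
      ext k
      simp
    rw [h2, ← h1]
    refine Finset.sum_congr rfl fun x _ => ?_
    rw [← MvPolynomial.smul_eq_C_mul, map_smul, smul_eq_mul]

/-- PROOF. As `generated_two` in `Two/Final`, with `step_six`. `generic_of`, `good_of`. -/
theorem generated_six {k : Type*} [Field k] [Algebra k K] (hk : CharP k 2 ∨ CharZero k)
    (hind : AlgebraicIndependent k fun p : Idx σ => a p.1.1 p.1.2)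
    (hzero : ∀ i j, i ∉ σ j → a i j = 0) (h : Ball Γ σ) (hd : 1 ≤ d) :
    GeneratedLE a σ Γ (max (d / 2) (d - 6)) := by
  have hg : Generic a σ := generic_of hind hzero
  have ha : Good a σ := good_of hk hind hzero
  have main : ∀ t : ℕ, t ≤ d → ∀ G ∈ Γ, car σ G = univ → #G ≤ t →
      mon K G ∈ lowIdeal a σ Γ (max (d / 2) (d - 6)) := by
    intro t
    induction t with
    | zero =>
      intro _ G hG hc hGt
      exact mon_mem_of_subset hG hc (hGt.trans (Nat.zero_le _)) (Finset.Subset.refl _)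
    | succ t ih =>
      intro htd G hG hc hGt
      rcases Nat.lt_or_ge (max (d / 2) (d - 6)) (#G) with hlt | hge
      · have h1 : d / 2 ≤ max (d / 2) (d - 6) := le_max_left _ _
        have h2 : d - 6 ≤ max (d / 2) (d - 6) := le_max_right _ _
        have h3 : mon K G ∈ lowIdeal a σ Γ (#G - 1) :=
          step_six h hg ha (t := #G) (by omega) (by omega) (by omega) hG hc rfl
        refine (lowIdeal_le ?_) h3
        intro G' hG' hc' hcard
        exact ih (by omega) G' hG' hc' (by omega)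
      · exact mon_mem_of_subset hG hc hge (Finset.Subset.refl _)
  apply generated_of
  intro G hG hc
  obtain ⟨H, hHG, hHΓ, hHc, hHd⟩ := exists_small h.tri hG hc
  have h1 := main d le_rfl H hHΓ hHc hHd
  have h2 : mon K G = mon K (G \ H) * mon K H := by
    unfold mon
    rw [Finset.prod_sdiff hHG]
  rw [h2]
  exact Ideal.mul_mem_left _ _ h1

end Pool.Agent.Lib.MP_fd6ff4_co.Six
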